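import Pool.Agent.R12.SEM

set_option autoImplicit false

/-! Super edge-magic labelings of books from finite tables of linear data. -/

namespace Pool.Agent.R12.Book

open Pool.Agent.R12.SEM

/-- The book with `n` pages. -/
abbrev book (n : ℕ) : SimpleGraph ((Fin 1 ⊕ Fin n) × Fin 2) :=
  completeBipartiteGraph (Fin 1) (Fin n) □ (⊤ : SimpleGraph (Fin 2))

/-- Enumeration of the edges of the book. -/
def bedge (n : ℕ) : Option (Fin n × Fin 3) → Sym2 ((Fin 1 ⊕ Fin n) × Fin 2)
  | none => s((Sum.inl 0, 0), (Sum.inl 0, 1))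
  | some (i, 0) => s((Sum.inl 0, 0), (Sum.inr i, 0))
  | some (i, 1) => s((Sum.inl 0, 1), (Sum.inr i, 1))
  | some (i, 2) => s((Sum.inr i, 0), (Sum.inr i, 1))

theorem bedge_mem (n : ℕ) (e : Option (Fin n × Fin 3)) : bedge n e ∈ (book n).edgeSet := by
  rcases e with _ | ⟨i, j⟩
  · simp [bedge, book, SimpleGraph.boxProd_adj]
  · fin_cases j <;> simp [bedge, book, SimpleGraph.boxProd_adj]

theorem bedge_surj (n : ℕ) (e : Sym2 ((Fin 1 ⊕ Fin n) × Fin 2)) (he : e ∈ (book n).edgeSet) :
    ∃ x, bedge n x = e := by
  induction e using Sym2.ind with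
  | _ u v =>
    obtain ⟨u1, u2⟩ := u
    obtain ⟨v1, v2⟩ := v
    rw [SimpleGraph.mem_edgeSet, SimpleGraph.boxProd_adj] at he
    rcases he with ⟨h1, h2⟩ | ⟨h1, h2⟩
    · simp only at h1 h2
      subst h2
      rcases u1 with u1 | i <;> rcases v1 with v1 | j
      · simp at h1
      · obtain rfl : u1 = 0 := Subsingleton.elim _ _
        fin_cases u2
        · exact ⟨some (j, 0), rfl⟩
        · exact ⟨some (j, 1), rfl⟩
      · obtain rfl : v1 = 0 := Subsingleton.elim _ _
        fin_cases u2
        · exact ⟨some (i, 0), Sym2.eq_swap⟩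
        · exact ⟨some (i, 1), Sym2.eq_swap⟩
      · simp at h1
    · simp only at h1 h2
      subst h2
      rcases u1 with u1 | i
      · obtain rfl : u1 = 0 := Subsingleton.elim _ _
        fin_cases u2 <;> fin_cases v2
        · simp at h1
        · exact ⟨none, rfl⟩
        · exact ⟨none, Sym2.eq_swap⟩
        · simp at h1
      · fin_cases u2 <;> fin_cases v2
        · simp at h1
        · exact ⟨some (i, 2), rfl⟩
        · exact ⟨some (i, 2), Sym2.eq_swap⟩
        · simp at h1

theorem bedge_inj (n : ℕ) : Function.Injective (bedge n) := by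
  intro x y h
  rcases x with _ | ⟨i, j⟩ <;> rcases y with _ | ⟨i', j'⟩
  · rfl
  · fin_cases j' <;> simp [bedge] at h
  · fin_cases j <;> simp [bedge] at h
  · fin_cases j <;> fin_cases j' <;> simp [bedge] at h ⊢ <;> exact h

theorem range_bedge (n : ℕ) : Set.range (bedge n) = (book n).edgeSet := by
  ext e
  constructor
  · rintro ⟨x, rfl⟩
    exact bedge_mem n x
  · intro he
    exact bedge_surj n e he

theorem ncard_book (n : ℕ) : (book n).edgeSet.ncard = 3 * n + 1 := by
  rw [← range_bedge, ← Set.image_univ, Set.ncard_image_of_injective _ (bedge_inj n),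
    Set.ncard_univ, Nat.card_eq_fintype_card]
  simp
  ring

theorem card_book (n : ℕ) : Fintype.card ((Fin 1 ⊕ Fin n) × Fin 2) = 2 * n + 2 := by
  simp
  ring

/-- The labeling of the book given by the hub labels and a list of pages. -/
theorem book_of_list (n s A B : ℕ) (L : List (ℕ × ℕ)) (hL : L.length = n)
    (lab : ∀ z, 1 ≤ z → z < 2 * n + 3 → z = A ∨ z = B ∨ ∃ p ∈ L, z = p.1 ∨ z = p.2)
    (sum : ∀ z, s ≤ z → z < s + (3 * n + 1) →
      z = A + B ∨ ∃ p ∈ L, z = A + p.1 ∨ z = B + p.2 ∨ z = p.1 + p.2) :
    SuperEdgeMagic (book n) := by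
  subst hL
  let f : (Fin 1 ⊕ Fin L.length) × Fin 2 → ℕ := fun v =>
    match v with
    | (Sum.inl _, 0) => A
    | (Sum.inl _, 1) => B
    | (Sum.inr i, 0) => (L.get i).1
    | (Sum.inr i, 1) => (L.get i).2
  apply sem_of_cover (book L.length) f s (3 * L.length + 1)
  · rw [ncard_book]
  · intro z h1 h2
    rw [card_book] at h2
    rcases lab z h1 (by omega) with h | h | ⟨p, hp, h⟩
    · exact ⟨(Sum.inl 0, 0), h.symm⟩
    · exact ⟨(Sum.inl 0, 1), h.symm⟩
    · obtain ⟨i, rfl⟩ := List.get_of_mem hp
      rcases h with h | h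
      · exact ⟨(Sum.inr i, 0), h.symm⟩
      · exact ⟨(Sum.inr i, 1), h.symm⟩
  · intro z h1 h2
    rcases sum z h1 (by omega) with h | ⟨p, hp, h⟩
    · exact ⟨(Sum.inl 0, 0), (Sum.inl 0, 1), by simp [book, SimpleGraph.boxProd_adj], h.symm⟩
    · obtain ⟨i, rfl⟩ := List.get_of_mem hp
      rcases h with h | h | h
      · exact ⟨(Sum.inl 0, 0), (Sum.inr i, 0), by simp [book, SimpleGraph.boxProd_adj], h.symm⟩
      · exact ⟨(Sum.inl 0, 1), (Sum.inr i, 1), by simp [book, SimpleGraph.boxProd_adj], h.symm⟩
      · exact ⟨(Sum.inr i, 0), (Sum.inr i, 1), by simp [book, SimpleGraph.boxProd_adj], h.symm⟩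

/-! ### Tables with entries linear in a parameter -/

/-- `(c, k)` stands for `c + k t`. -/
abbrev Lin := ℕ × ℕ

/-- The value of a linear form. -/
def ev (t : ℕ) (l : Lin) : ℕ := l.1 + l.2 * t

/-- Sum of linear forms. -/
def ladd (a b : Lin) : Lin := (a.1 + b.1, a.2 + b.2)

theorem ev_ladd (t : ℕ) (a b : Lin) : ev t (ladd a b) = ev t a + ev t b := by
  simp only [ev, ladd]
  ring

/-- A block `(a, b, m)` stands for the pages `(a + j, b + j)`, `j < m`. -/
structure Blk where
  /-- first label on the first side -/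
  a : Lin
  /-- first label on the second side -/
  b : Lin
  /-- number of pages -/
  m : Lin
  deriving DecidableEq

/-- The pages of a block. -/
def Blk.pages (t : ℕ) (k : Blk) : List (ℕ × ℕ) :=
  (List.range (ev t k.m)).map fun j => (ev t k.a + j, ev t k.b + j)

/-- The pages of a list of blocks. -/
def pages (t : ℕ) (D : List Blk) : List (ℕ × ℕ) := D.flatMap (Blk.pages t)

/-- Total number of pages as a linear form. -/
def total : List Blk → Lin
  | [] => (0, 0)
  | k :: D => ladd k.m (total D)

theorem length_pages (t : ℕ) (D : List Blk) : (pages t D).length = ev t (total D) := by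
  induction D with
  | nil => simp [pages, total, ev]
  | cons k D ih =>
    simp only [pages, total] at ih ⊢
    rw [List.flatMap_cons, List.length_append, ih, ev_ladd]
    simp [Blk.pages]

theorem mem_pages {t : ℕ} {D : List Blk} {i : ℕ} {k : Blk} (h : D[i]? = some k) {j : ℕ}
    (hj : j < ev t k.m) : (ev t k.a + j, ev t k.b + j) ∈ pages t D := by
  unfold pages
  rw [List.mem_flatMap]
  refine ⟨k, List.mem_of_getElem? h, ?_⟩
  unfold Blk.pages
  rw [List.mem_map]
  exact ⟨j, List.mem_range.2 hj, rfl⟩

/-- Pieces of intervals: labels of the hubs, labels of blocks. -/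
inductive LItem where
  | A | B | X (i : ℕ) | Y (i : ℕ)

/-- Pieces of intervals of sums. -/
inductive SItem where
  | AB | X (i : ℕ) | Y (i : ℕ) | P (i : ℕ) | Q (i j : ℕ)

/-- Start and length of a piece of labels. -/
def LItem.iv (A B : Lin) (D : List Blk) : LItem → Option (Lin × Lin)
  | .A => some (A, (1, 0))
  | .B => some (B, (1, 0))
  | .X i => D[i]?.map fun k => (k.a, k.m)
  | .Y i => D[i]?.map fun k => (k.b, k.m)

/-- Start and length of a piece of sums. -/
def SItem.iv (A B : Lin) (D : List Blk) : SItem → Option (Lin × Lin)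
  | .AB => some (ladd A B, (1, 0))
  | .X i => D[i]?.map fun k => (ladd A k.a, k.m)
  | .Y i => D[i]?.map fun k => (ladd B k.b, k.m)
  | .P i => D[i]?.bind fun k => if k.m = (1, 0) then some (ladd k.a k.b, (1, 0)) else none
  | .Q i j => D[i]?.bind fun k => D[j]?.bind fun l =>
      if k.m = l.m ∧ ladd l.a l.b = ladd (ladd k.a k.b) (1, 0) then
        some (ladd k.a k.b, ladd k.m k.m) else none

/-- The pieces follow each other without gaps. -/
def chain (lo : Lin) : List (Option (Lin × Lin)) → Lin → Bool
  | [], hi => decide (lo = hi)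
  | none :: _, _ => false
  | some (s, l) :: t, hi => decide (s = lo) && chain (ladd s l) t hi

theorem chain_cover {t z : ℕ} {I : List (Option (Lin × Lin))} {lo hi : Lin}
    (h : chain lo I hi = true) (h1 : ev t lo ≤ z) (h2 : z < ev t hi) :
    ∃ s l, some (s, l) ∈ I ∧ ev t s ≤ z ∧ z < ev t s + ev t l := by
  induction I generalizing lo with
  | nil =>
    simp only [chain, decide_eq_true_eq] at h
    subst h
    omega
  | cons o I ih =>
    rcases o with _ | ⟨s, l⟩
    · simp [chain] at h
    · simp only [chain, Bool.and_eq_true, decide_eq_true_eq] at h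
      obtain ⟨rfl, h⟩ := h
      rcases Nat.lt_or_ge z (ev t s + ev t l) with h3 | h3
      · exact ⟨s, l, by simp, h1, h3⟩
      · obtain ⟨s', l', hm, h4⟩ := ih h (by rw [ev_ladd]; exact h3)
        exact ⟨s', l', by simp [hm], h4⟩

/-- The main check. -/
theorem book_of_table (n s A B : Lin) (D : List Blk) (LI : List LItem) (SI : List SItem)
    (hn : total D = n)
    (hl : chain (1, 0) (LI.map (LItem.iv A B D)) (ladd (ladd n n) (3, 0)) = true)
    (hs : chain s (SI.map (SItem.iv A B D)) (ladd s (ladd (ladd n (ladd n n)) (1, 0))) = true)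
    (t : ℕ) : SuperEdgeMagic (book (ev t n)) := by
  apply book_of_list (ev t n) (ev t s) (ev t A) (ev t B) (pages t D)
  · rw [length_pages, hn]
  · intro z h1 h2
    obtain ⟨s', l', hm, h3, h4⟩ := chain_cover (t := t) (z := z) hl
      (by simp only [ev]; omega)
      (by simp only [ev_ladd]; simp only [ev] at h2 ⊢; omega)
    rw [List.mem_map] at hm
    obtain ⟨it, -, hit⟩ := hm
    cases it with
    | A =>
      simp only [LItem.iv, Option.some.injEq, Prod.mk.injEq] at hit
      obtain ⟨rfl, rfl⟩ := hit
      left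
      simp only [ev] at h3 h4 ⊢
      omega
    | B =>
      simp only [LItem.iv, Option.some.injEq, Prod.mk.injEq] at hit
      obtain ⟨rfl, rfl⟩ := hit
      right; left
      simp only [ev] at h3 h4 ⊢
      omega
    | X i =>
      simp only [LItem.iv, Option.map_eq_some_iff, Prod.mk.injEq] at hit
      obtain ⟨k, hk, rfl, rfl⟩ := hit
      right; right
      refine ⟨_, mem_pages hk (j := z - ev t k.a) (by omega), Or.inl ?_⟩
      simp only
      omega
    | Y i =>
      simp only [LItem.iv, Option.map_eq_some_iff, Prod.mk.injEq] at hit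
      obtain ⟨k, hk, rfl, rfl⟩ := hit
      right; right
      refine ⟨_, mem_pages hk (j := z - ev t k.b) (by omega), Or.inr ?_⟩
      simp only
      omega
  · intro z h1 h2
    obtain ⟨s', l', hm, h3, h4⟩ := chain_cover (t := t) (z := z) hs h1
      (by simp only [ev_ladd]; simp only [ev] at h2 ⊢; omega)
    rw [List.mem_map] at hm
    obtain ⟨it, -, hit⟩ := hm
    cases it with
    | AB =>
      simp only [SItem.iv, Option.some.injEq, Prod.mk.injEq] at hit
      obtain ⟨rfl, rfl⟩ := hit
      left
      rw [ev_ladd] at h3 h4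
      have : ev t (1, 0) = 1 := by simp [ev]
      omega
    | X i =>
      simp only [SItem.iv, Option.map_eq_some_iff, Prod.mk.injEq] at hit
      obtain ⟨k, hk, rfl, rfl⟩ := hit
      right
      rw [ev_ladd] at h3 h4
      refine ⟨_, mem_pages hk (j := z - ev t A - ev t k.a) (by omega), Or.inl ?_⟩
      simp only
      omega
    | Y i =>
      simp only [SItem.iv, Option.map_eq_some_iff, Prod.mk.injEq] at hit
      obtain ⟨k, hk, rfl, rfl⟩ := hit
      right
      rw [ev_ladd] at h3 h4
      refine ⟨_, mem_pages hk (j := z - ev t B - ev t k.b) (by omega), Or.inr (Or.inl ?_)⟩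
      simp only
      omega
    | P i =>
      simp only [SItem.iv, Option.bind_eq_some_iff] at hit
      obtain ⟨k, hk, hit⟩ := hit
      split_ifs at hit with hm
      · simp only [Option.some.injEq, Prod.mk.injEq] at hit
        obtain ⟨rfl, rfl⟩ := hit
        right
        rw [ev_ladd] at h3 h4
        have h5 : ev t (1, 0) = 1 := by simp [ev]
        refine ⟨_, mem_pages hk (j := 0) (by rw [hm]; omega), Or.inr (Or.inr ?_)⟩
        simp only
        omega
    | Q i j =>
      simp only [SItem.iv, Option.bind_eq_some_iff] at hit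
      obtain ⟨k, hk, l, hl, hit⟩ := hit
      split_ifs at hit with hm
      · simp only [Option.some.injEq, Prod.mk.injEq] at hit
        obtain ⟨rfl, rfl⟩ := hit
        obtain ⟨hm, hm2⟩ := hm
        right
        have h6 := congrArg (ev t) hm2
        rw [ev_ladd, ev_ladd, ev_ladd] at h6
        rw [ev_ladd, ev_ladd] at h4
        rw [ev_ladd] at h3
        have h5 : ev t (1, 0) = 1 := by simp [ev]
        rcases Nat.even_or_odd' (z - (ev t k.a + ev t k.b)) with ⟨c, hc | hc⟩
        · refine ⟨_, mem_pages hk (j := c) (by omega), Or.inr (Or.inr ?_)⟩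
          simp only
          omega
        · refine ⟨_, mem_pages hl (j := c) (by rw [← hm]; omega), Or.inr (Or.inr ?_)⟩
          simp only
          omega

end Pool.Agent.R12.Book
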