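import Pool.Agent.R12.Book

set_option autoImplicit false

/-! Super edge-magic labelings of books: the tables and the necessary condition. -/

namespace Pool.Agent.R12.Book

open Pool.Agent.R12.SEM

/-- Table `E0`. -/
def DE0 : List Blk := [
  ⟨(13, 4), (25, 8), (1, 0)⟩, ⟨(2, 0), (14, 4), (1, 0)⟩, ⟨(10, 3), (22, 7), (1, 0)⟩,
  ⟨(6, 1), (16, 5), (1, 0)⟩, ⟨(11, 3), (20, 7), (1, 0)⟩, ⟨(5, 1), (18, 5), (1, 0)⟩,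
  ⟨(4, 0), (26, 8), (1, 0)⟩, ⟨(9, 3), (15, 5), (1, 0)⟩, ⟨(12, 3), (17, 5), (1, 0)⟩,
  ⟨(1, 0), (24, 8), (1, 0)⟩, ⟨(7, 1), (21, 7), (1, 0)⟩, ⟨(3, 0), (23, 8), (1, 0)⟩,
  ⟨(5, 0), (20, 6), (0, 1)⟩, ⟨(8, 1), (23, 7), (0, 1)⟩, ⟨(9, 2), (15, 4), (0, 1)⟩,
  ⟨(13, 3), (19, 5), (0, 1)⟩]

theorem TE0 (t : ℕ) : SuperEdgeMagic (book (ev t (12, 4))) :=
  book_of_table (12, 4) (9, 2) (8, 2) (19, 6) DE0 [
    .X 9, .X 1, .X 11, .X 6, .X 12, .X 5, .X 3, .X 10, .X 13, .A, .X 14, .X 7, .X 2, .X 4,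
    .X 8, .X 15, .X 0, .Y 1, .Y 14, .Y 7, .Y 3, .Y 8, .Y 5, .Y 15, .B, .Y 12, .Y 4, .Y 10,
    .Y 2, .Y 13, .Y 11, .Y 9, .Y 0, .Y 6] [
    .X 9, .X 1, .X 11, .X 6, .X 12, .X 5, .X 3, .X 10, .X 13, .P 1, .X 14, .X 7, .X 2, .X 4,
    .X 8, .X 15, .X 0, .P 3, .P 5, .Q 14 12, .P 7, .P 9, .P 11, .AB, .P 10, .P 8, .P 6,
    .Q 13 15, .P 4, .P 2, .Y 1, .Y 14, .Y 7, .Y 3, .Y 8, .Y 5, .Y 15, .P 0, .Y 12, .Y 4, .Y 10,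
    .Y 2, .Y 13, .Y 11, .Y 9, .Y 0, .Y 6]
    (by decide +kernel) (by decide +kernel) (by decide +kernel) t

/-- Table `E1`. -/
def DE1 : List Blk := [
  ⟨(15, 4), (29, 8), (1, 0)⟩, ⟨(2, 0), (16, 4), (1, 0)⟩, ⟨(11, 3), (26, 7), (1, 0)⟩,
  ⟨(6, 1), (19, 5), (1, 0)⟩, ⟨(12, 3), (24, 7), (1, 0)⟩, ⟨(8, 1), (18, 5), (1, 0)⟩,
  ⟨(4, 0), (30, 8), (1, 0)⟩, ⟨(5, 1), (23, 7), (1, 0)⟩, ⟨(13, 3), (20, 5), (1, 0)⟩,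
  ⟨(1, 0), (28, 8), (1, 0)⟩, ⟨(7, 1), (25, 7), (1, 0)⟩, ⟨(3, 0), (27, 8), (1, 0)⟩,
  ⟨(5, 0), (23, 6), (0, 1)⟩, ⟨(9, 1), (27, 7), (0, 1)⟩, ⟨(10, 3), (17, 5), (1, 0)⟩,
  ⟨(14, 3), (21, 5), (1, 0)⟩, ⟨(10, 2), (17, 4), (0, 1)⟩, ⟨(15, 3), (22, 5), (0, 1)⟩]

theorem TE1 (t : ℕ) : SuperEdgeMagic (book (ev t (14, 4))) :=
  book_of_table (14, 4) (10, 2) (9, 2) (22, 6) DE1 [
    .X 9, .X 1, .X 11, .X 6, .X 12, .X 7, .X 3, .X 10, .X 5, .X 13, .A, .X 16, .X 14, .X 2,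
    .X 4, .X 8, .X 15, .X 17, .X 0, .Y 1, .Y 16, .Y 14, .Y 5, .Y 3, .Y 8, .Y 15, .Y 17, .B,
    .Y 12, .Y 7, .Y 4, .Y 10, .Y 2, .Y 13, .Y 11, .Y 9, .Y 0, .Y 6] [
    .X 9, .X 1, .X 11, .X 6, .X 12, .X 7, .X 3, .X 10, .X 5, .X 13, .P 1, .X 16, .X 14, .X 2,
    .X 4, .X 8, .X 15, .X 17, .X 0, .P 3, .P 5, .Q 16 12, .P 14, .P 7, .P 9, .P 11, .AB, .P 10,
    .P 8, .P 6, .P 15, .Q 13 17, .P 4, .P 2, .Y 1, .Y 16, .Y 14, .Y 5, .Y 3, .Y 8, .Y 15,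
    .Y 17, .P 0, .Y 12, .Y 7, .Y 4, .Y 10, .Y 2, .Y 13, .Y 11, .Y 9, .Y 0, .Y 6]
    (by decide +kernel) (by decide +kernel) (by decide +kernel) t

/-- Table `O2`. -/
def DO2 : List Blk := [
  ⟨(5, 4), (18, 14), (1, 0)⟩, ⟨(7, 6), (15, 12), (1, 0)⟩, ⟨(8, 6), (16, 12), (1, 0)⟩,
  ⟨(9, 7), (3, 1), (1, 0)⟩, ⟨(10, 7), (28, 19), (1, 0)⟩, ⟨(11, 8), (40, 28), (1, 0)⟩,
  ⟨(12, 10), (41, 30), (1, 0)⟩, ⟨(13, 10), (42, 30), (1, 0)⟩, ⟨(14, 10), (17, 12), (1, 0)⟩,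
  ⟨(19, 14), (2, 0), (1, 0)⟩, ⟨(20, 14), (25, 18), (1, 0)⟩, ⟨(22, 16), (32, 24), (1, 0)⟩,
  ⟨(23, 16), (4, 2), (1, 0)⟩, ⟨(24, 18), (43, 32), (1, 0)⟩, ⟨(30, 22), (39, 28), (1, 0)⟩,
  ⟨(34, 25), (27, 19), (1, 0)⟩, ⟨(35, 26), (33, 24), (1, 0)⟩, ⟨(36, 26), (26, 18), (1, 0)⟩,
  ⟨(37, 26), (29, 20), (1, 0)⟩, ⟨(38, 28), (1, 0), (1, 0)⟩, ⟨(44, 32), (21, 14), (1, 0)⟩,
  ⟨(5, 2), (18, 12), (0, 2)⟩, ⟨(7, 4), (15, 10), (0, 2)⟩, ⟨(9, 6), (27, 18), (0, 1)⟩,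
  ⟨(34, 24), (3, 0), (0, 1)⟩, ⟨(11, 7), (29, 19), (0, 1)⟩, ⟨(35, 25), (4, 1), (0, 1)⟩,
  ⟨(12, 8), (41, 28), (0, 2)⟩, ⟨(22, 14), (32, 22), (0, 2)⟩, ⟨(24, 16), (43, 30), (0, 2)⟩,
  ⟨(38, 26), (30, 20), (0, 2)⟩]

theorem TO2 (t : ℕ) : SuperEdgeMagic (book (ev t (21, 16))) :=
  book_of_table (21, 16) (11, 6) (6, 4) (31, 22) DO2 [
    .Y 19, .Y 9, .Y 24, .Y 3, .Y 26, .Y 12, .X 21, .X 0, .A, .X 22, .X 1, .X 2, .X 23, .X 3,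
    .X 4, .X 25, .X 5, .X 27, .X 6, .X 7, .X 8, .Y 22, .Y 1, .Y 2, .Y 8, .Y 21, .Y 0, .X 9,
    .X 10, .Y 20, .X 28, .X 11, .X 12, .X 29, .X 13, .Y 10, .Y 17, .Y 23, .Y 15, .Y 4, .Y 25,
    .Y 18, .Y 30, .X 14, .B, .Y 28, .Y 11, .Y 16, .X 24, .X 15, .X 26, .X 16, .X 17, .X 18,
    .X 30, .X 19, .Y 14, .Y 5, .Y 27, .Y 6, .Y 7, .Y 29, .Y 13, .X 20] [
    .X 21, .X 0, .P 3, .X 22, .X 1, .X 2, .X 23, .X 3, .X 4, .X 25, .X 5, .X 27, .X 6, .X 7,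
    .X 8, .P 9, .Q 22 21, .P 1, .P 0, .P 2, .X 9, .X 10, .P 12, .X 28, .X 11, .X 12, .X 29,
    .X 13, .P 8, .Y 19, .Y 9, .Y 24, .Y 3, .Y 26, .Y 12, .Q 23 24, .X 14, .AB, .P 4, .Q 26 25,
    .P 19, .X 24, .X 15, .X 26, .X 16, .X 17, .X 18, .X 30, .X 19, .P 10, .Y 22, .Y 1, .Y 2,
    .Y 8, .Y 21, .Y 0, .X 20, .P 5, .Y 20, .Q 27 28, .P 6, .P 11, .P 7, .Y 10, .Y 17, .Y 23,
    .Y 15, .Y 4, .Y 25, .Y 18, .Y 30, .P 15, .P 17, .Y 28, .Y 11, .Y 16, .P 20, .P 18,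
    .Q 29 30, .P 13, .P 16, .P 14, .Y 14, .Y 5, .Y 27, .Y 6, .Y 7, .Y 29, .Y 13]
    (by decide +kernel) (by decide +kernel) (by decide +kernel) t

/-- Table `O3`. -/
def DO3 : List Blk := [
  ⟨(5, 2), (57, 30), (1, 0)⟩, ⟨(6, 4), (25, 14), (1, 0)⟩, ⟨(8, 4), (12, 6), (1, 0)⟩,
  ⟨(10, 6), (22, 12), (1, 0)⟩, ⟨(13, 6), (23, 12), (1, 0)⟩, ⟨(14, 7), (2, 1), (1, 0)⟩,
  ⟨(15, 7), (3, 1), (1, 0)⟩, ⟨(16, 8), (53, 28), (1, 0)⟩, ⟨(17, 8), (54, 28), (1, 0)⟩,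
  ⟨(18, 10), (55, 30), (1, 0)⟩, ⟨(19, 10), (59, 32), (1, 0)⟩, ⟨(20, 10), (1, 0), (1, 0)⟩,
  ⟨(21, 10), (33, 18), (1, 0)⟩, ⟨(26, 14), (7, 4), (1, 0)⟩, ⟨(28, 14), (60, 32), (1, 0)⟩,
  ⟨(29, 14), (43, 22), (1, 0)⟩, ⟨(30, 16), (4, 2), (1, 0)⟩, ⟨(31, 16), (36, 20), (1, 0)⟩,
  ⟨(32, 18), (58, 32), (1, 0)⟩, ⟨(37, 20), (56, 30), (1, 0)⟩, ⟨(38, 20), (44, 24), (1, 0)⟩,
  ⟨(40, 22), (51, 28), (1, 0)⟩, ⟨(42, 22), (45, 24), (1, 0)⟩, ⟨(46, 24), (24, 12), (1, 0)⟩,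
  ⟨(47, 25), (34, 19), (1, 0)⟩, ⟨(48, 25), (35, 19), (1, 0)⟩, ⟨(49, 26), (11, 6), (1, 0)⟩,
  ⟨(50, 26), (39, 20), (1, 0)⟩, ⟨(52, 28), (27, 14), (1, 0)⟩, ⟨(6, 2), (25, 12), (0, 2)⟩,
  ⟨(10, 4), (22, 10), (0, 2)⟩, ⟨(14, 6), (34, 18), (0, 1)⟩, ⟨(47, 24), (2, 0), (0, 1)⟩,
  ⟨(16, 7), (36, 19), (0, 1)⟩, ⟨(49, 25), (4, 1), (0, 1)⟩, ⟨(18, 8), (55, 28), (0, 2)⟩,
  ⟨(30, 14), (44, 22), (0, 2)⟩, ⟨(32, 16), (58, 30), (0, 2)⟩, ⟨(51, 26), (40, 20), (0, 2)⟩]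

theorem TO3 (t : ℕ) : SuperEdgeMagic (book (ev t (29, 16))) :=
  book_of_table (29, 16) (14, 6) (9, 4) (41, 22) DO3 [
    .Y 11, .Y 32, .Y 5, .Y 6, .Y 34, .Y 16, .X 0, .X 29, .X 1, .Y 13, .X 2, .A, .X 30, .X 3,
    .Y 26, .Y 2, .X 4, .X 31, .X 5, .X 6, .X 33, .X 7, .X 8, .X 35, .X 9, .X 10, .X 11, .X 12,
    .Y 30, .Y 3, .Y 4, .Y 23, .Y 29, .Y 1, .X 13, .Y 28, .X 14, .X 15, .X 36, .X 16, .X 17,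
    .X 37, .X 18, .Y 12, .Y 31, .Y 24, .Y 25, .Y 33, .Y 17, .X 19, .X 20, .Y 27, .Y 38, .X 21,
    .B, .X 22, .Y 15, .Y 36, .Y 20, .Y 22, .X 23, .X 32, .X 24, .X 25, .X 34, .X 26, .X 27,
    .X 38, .Y 21, .X 28, .Y 7, .Y 8, .Y 35, .Y 9, .Y 19, .Y 0, .Y 37, .Y 18, .Y 10, .Y 14] [
    .X 0, .X 29, .X 1, .P 5, .X 2, .P 6, .X 30, .X 3, .P 2, .P 11, .X 4, .X 31, .X 5, .X 6,
    .X 33, .X 7, .X 8, .X 35, .X 9, .X 10, .X 11, .X 12, .Q 29 30, .P 1, .P 3, .P 13, .P 16,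
    .X 13, .P 4, .X 14, .X 15, .X 36, .X 16, .X 17, .X 37, .X 18, .Y 11, .Y 32, .Y 5, .Y 6,
    .Y 34, .Y 16, .X 19, .X 20, .Q 31 32, .Y 13, .X 21, .AB, .X 22, .Q 33 34, .Y 26, .Y 2,
    .P 12, .X 23, .X 32, .X 24, .X 25, .X 34, .X 26, .X 27, .X 38, .P 26, .X 28, .P 0, .Y 30,
    .Y 3, .Y 4, .Y 23, .Y 29, .Y 1, .P 17, .Y 28, .P 7, .P 23, .P 8, .P 15, .Q 35 36, .P 9,
    .Y 12, .Y 31, .Y 24, .Y 25, .Y 33, .Y 17, .P 10, .P 28, .Y 27, .Y 38, .P 24, .P 20, .P 25,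
    .Y 15, .Y 36, .Y 20, .Y 22, .P 22, .P 14, .P 27, .Q 37 38, .P 18, .P 21, .Y 21, .P 19,
    .Y 7, .Y 8, .Y 35, .Y 9, .Y 19, .Y 0, .Y 37, .Y 18, .Y 10, .Y 14]
    (by decide +kernel) (by decide +kernel) (by decide +kernel) t

/-- Table `S6`. -/
def DS6 : List Blk := [
  ⟨(1, 0), (9, 0), (1, 0)⟩, ⟨(2, 0), (11, 0), (1, 0)⟩, ⟨(3, 0), (14, 0), (1, 0)⟩,
  ⟨(4, 0), (12, 0), (1, 0)⟩, ⟨(6, 0), (8, 0), (1, 0)⟩, ⟨(7, 0), (13, 0), (1, 0)⟩]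

theorem TS6 (t : ℕ) : SuperEdgeMagic (book (ev t (6, 0))) :=
  book_of_table (6, 0) (6, 0) (5, 0) (10, 0) DS6 [
    .X 0, .X 1, .X 2, .X 3, .A, .X 4, .X 5, .Y 4, .Y 0, .B, .Y 1, .Y 3, .Y 5, .Y 2] [
    .X 0, .X 1, .X 2, .X 3, .P 0, .X 4, .X 5, .P 1, .P 4, .AB, .P 3, .P 2, .Y 4, .Y 0, .P 5,
    .Y 1, .Y 3, .Y 5, .Y 2]
    (by decide +kernel) (by decide +kernel) (by decide +kernel) t

/-- Table `S8`. -/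
def DS8 : List Blk := [
  ⟨(6, 0), (5, 0), (1, 0)⟩, ⟨(7, 0), (3, 0), (1, 0)⟩, ⟨(8, 0), (4, 0), (1, 0)⟩,
  ⟨(12, 0), (2, 0), (1, 0)⟩, ⟨(14, 0), (10, 0), (1, 0)⟩, ⟨(15, 0), (11, 0), (1, 0)⟩,
  ⟨(16, 0), (9, 0), (1, 0)⟩, ⟨(17, 0), (13, 0), (1, 0)⟩]

theorem TS8 (t : ℕ) : SuperEdgeMagic (book (ev t (8, 0))) :=
  book_of_table (8, 0) (7, 0) (1, 0) (18, 0) DS8 [
    .A, .Y 3, .Y 1, .Y 2, .Y 0, .X 0, .X 1, .X 2, .Y 6, .Y 4, .Y 5, .X 3, .Y 7, .X 4, .X 5,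
    .X 6, .X 7, .B] [
    .X 0, .X 1, .X 2, .P 1, .P 0, .P 2, .X 3, .P 3, .X 4, .X 5, .X 6, .X 7, .AB, .Y 3, .Y 1,
    .Y 2, .Y 0, .P 4, .P 6, .P 5, .Y 6, .Y 4, .Y 5, .P 7, .Y 7]
    (by decide +kernel) (by decide +kernel) (by decide +kernel) t

/-- Table `S10`. -/
def DS10 : List Blk := [
  ⟨(7, 0), (6, 0), (1, 0)⟩, ⟨(8, 0), (3, 0), (1, 0)⟩, ⟨(9, 0), (5, 0), (1, 0)⟩,
  ⟨(11, 0), (4, 0), (1, 0)⟩, ⟨(15, 0), (2, 0), (1, 0)⟩, ⟨(17, 0), (14, 0), (1, 0)⟩,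
  ⟨(18, 0), (12, 0), (1, 0)⟩, ⟨(19, 0), (10, 0), (1, 0)⟩, ⟨(20, 0), (13, 0), (1, 0)⟩,
  ⟨(21, 0), (16, 0), (1, 0)⟩]

theorem TS10 (t : ℕ) : SuperEdgeMagic (book (ev t (10, 0))) :=
  book_of_table (10, 0) (8, 0) (1, 0) (22, 0) DS10 [
    .A, .Y 4, .Y 1, .Y 3, .Y 2, .Y 0, .X 0, .X 1, .X 2, .Y 7, .X 3, .Y 6, .Y 8, .Y 5, .X 4,
    .Y 9, .X 5, .X 6, .X 7, .X 8, .X 9, .B] [
    .X 0, .X 1, .X 2, .P 1, .X 3, .P 0, .P 2, .P 3, .X 4, .P 4, .X 5, .X 6, .X 7, .X 8, .X 9,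
    .AB, .Y 4, .Y 1, .Y 3, .Y 2, .Y 0, .P 7, .P 6, .P 5, .Y 7, .P 8, .Y 6, .Y 8, .Y 5, .P 9,
    .Y 9]
    (by decide +kernel) (by decide +kernel) (by decide +kernel) t

/-- Table `S5`. -/
def DS5 : List Blk := [
  ⟨(3, 0), (12, 0), (1, 0)⟩, ⟨(4, 0), (10, 0), (1, 0)⟩, ⟨(5, 0), (7, 0), (1, 0)⟩,
  ⟨(8, 0), (11, 0), (1, 0)⟩, ⟨(9, 0), (2, 0), (1, 0)⟩]

theorem TS5 (t : ℕ) : SuperEdgeMagic (book (ev t (5, 0))) :=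
  book_of_table (5, 0) (4, 0) (1, 0) (6, 0) DS5 [
    .A, .Y 4, .X 0, .X 1, .X 2, .B, .Y 2, .X 3, .X 4, .Y 1, .Y 3, .Y 0] [
    .X 0, .X 1, .X 2, .AB, .Y 4, .X 3, .X 4, .P 4, .P 2, .Y 2, .P 1, .P 0, .Y 1, .Y 3, .Y 0,
    .P 3]
    (by decide +kernel) (by decide +kernel) (by decide +kernel) t

/-- Table `S13`. -/
def DS13 : List Blk := [
  ⟨(6, 0), (10, 0), (1, 0)⟩, ⟨(7, 0), (5, 0), (1, 0)⟩, ⟨(8, 0), (23, 0), (1, 0)⟩,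
  ⟨(9, 0), (25, 0), (1, 0)⟩, ⟨(11, 0), (24, 0), (1, 0)⟩, ⟨(12, 0), (21, 0), (1, 0)⟩,
  ⟨(13, 0), (4, 0), (1, 0)⟩, ⟨(17, 0), (1, 0), (1, 0)⟩, ⟨(18, 0), (3, 0), (1, 0)⟩,
  ⟨(20, 0), (19, 0), (1, 0)⟩, ⟨(26, 0), (14, 0), (1, 0)⟩, ⟨(27, 0), (15, 0), (1, 0)⟩,
  ⟨(28, 0), (16, 0), (1, 0)⟩]

theorem TS13 (t : ℕ) : SuperEdgeMagic (book (ev t (13, 0))) :=
  book_of_table (13, 0) (8, 0) (2, 0) (22, 0) DS13 [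
    .Y 7, .A, .Y 8, .Y 6, .Y 1, .X 0, .X 1, .X 2, .X 3, .Y 0, .X 4, .X 5, .X 6, .Y 10, .Y 11,
    .Y 12, .X 7, .X 8, .Y 9, .X 9, .Y 5, .B, .Y 2, .Y 4, .Y 3, .X 10, .X 11, .X 12] [
    .X 0, .X 1, .X 2, .X 3, .P 1, .X 4, .X 5, .X 6, .P 0, .P 6, .P 7, .X 7, .X 8, .P 8, .X 9,
    .Y 7, .AB, .Y 8, .Y 6, .Y 1, .X 10, .X 11, .X 12, .P 2, .Y 0, .P 5, .P 3, .P 4, .Y 10,
    .Y 11, .Y 12, .P 9, .P 10, .Y 9, .P 11, .Y 5, .P 12, .Y 2, .Y 4, .Y 3]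
    (by decide +kernel) (by decide +kernel) (by decide +kernel) t

theorem book_even (n : ℕ) (h5 : 5 ≤ n) (h : Even n) : SuperEdgeMagic (book n) := by
  have h2 := Nat.even_iff.1 h
  rcases Nat.lt_or_ge n 12 with h12 | h12
  · obtain rfl | rfl | rfl : n = 6 ∨ n = 8 ∨ n = 10 := by omega
    · exact TS6 0
    · exact TS8 0
    · exact TS10 0
  · rcases (by omega : n % 4 = 0 ∨ n % 4 = 2) with h4 | h4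
    · obtain ⟨t, rfl⟩ : ∃ t, n = 12 + 4 * t := ⟨(n - 12) / 4, by omega⟩
      exact TE0 t
    · obtain ⟨t, rfl⟩ : ∃ t, n = 14 + 4 * t := ⟨(n - 14) / 4, by omega⟩
      exact TE1 t

theorem book_odd (n : ℕ) (h : n % 8 = 5) : SuperEdgeMagic (book n) := by
  rcases Nat.lt_or_ge n 21 with h12 | h12
  · obtain rfl | rfl : n = 5 ∨ n = 13 := by omega
    · exact TS5 0
    · exact TS13 0
  · rcases (by omega : n % 16 = 5 ∨ n % 16 = 13) with h4 | h4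
    · obtain ⟨t, rfl⟩ : ∃ t, n = 21 + 16 * t := ⟨(n - 21) / 16, by omega⟩
      exact TO2 t
    · obtain ⟨t, rfl⟩ : ∃ t, n = 29 + 16 * t := ⟨(n - 29) / 16, by omega⟩
      exact TO3 t

theorem sum_Ico (s q : ℕ) : 2 * ∑ z ∈ Finset.Ico s (s + q), z = q * (2 * s + q) - q := by
  induction q with
  | zero => simp
  | succ q ih =>
    rw [← Nat.add_assoc, Finset.sum_Ico_succ_top (by omega), Nat.mul_add, ih]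
    have : q ≤ q * (2 * s + q) := by
      rcases Nat.eq_zero_or_pos q with rfl | hq
      · simp
      · exact Nat.le_mul_of_pos_right _ (by omega)
    have h2 : (q + 1) * (2 * s + (q + 1)) = q * (2 * s + q) + q + (2 * s + q + 1) := by ring
    omega

/-- The counting identity behind the necessary condition. -/
theorem book_count (n : ℕ) (h : SuperEdgeMagic (book n)) :
    ∃ A B s : ℕ, 2 * (n * (A + B)) + 4 * ((n + 1) * (2 * n + 3)) =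
      (3 * n + 1) * (2 * s + 3 * n) + 2 * (A + B) := by
  obtain ⟨f, s, h1, h2⟩ := sem_sums h
  rw [card_book] at h1
  rw [ncard_book] at h2
  refine ⟨f (Sum.inl 0, 0), f (Sum.inl 0, 1), s, ?_⟩
  set A := f (Sum.inl 0, 0)
  set B := f (Sum.inl 0, 1)
  -- labels
  have e1 : ∑ v, f v = ∑ z ∈ Finset.Ico 1 (1 + (2 * n + 2)), z := by
    apply Finset.sum_bij (fun v _ => f v)
    · intro v _
      have := h1.mapsTo (Set.mem_univ v)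
      rw [Set.mem_Icc] at this
      rw [Finset.mem_Ico]
      omega
    · intro v _ w _ hvw
      exact h1.injOn (Set.mem_univ _) (Set.mem_univ _) hvw
    · intro z hz
      rw [Finset.mem_Ico] at hz
      obtain ⟨v, -, hv⟩ := h1.surjOn (show z ∈ Set.Icc 1 (2 * n + 2) by
        rw [Set.mem_Icc]
        omega)
      exact ⟨v, Finset.mem_univ _, hv⟩
    · intro _ _
      rfl
  have e2 : ∑ v, f v = A + B + ∑ i : Fin n, (f (Sum.inr i, 0) + f (Sum.inr i, 1)) := by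
    rw [Fintype.sum_prod_type, Fintype.sum_sum_type]
    simp only [Fin.sum_univ_two, Finset.univ_unique, Finset.sum_singleton]
    rfl
  -- edges
  have e3 : ∑ x, esum f (bedge n x) = ∑ z ∈ Finset.Ico s (s + (3 * n + 1)), z := by
    apply Finset.sum_bij (fun x _ => esum f (bedge n x))
    · intro x _
      have := h2.mapsTo (bedge_mem n x)
      rw [Set.mem_Ico] at this
      rw [Finset.mem_Ico]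
      omega
    · intro v _ w _ hvw
      exact bedge_inj n (h2.injOn (bedge_mem n v) (bedge_mem n w) hvw)
    · intro z hz
      rw [Finset.mem_Ico] at hz
      obtain ⟨e, he, hv⟩ := h2.surjOn (show z ∈ Set.Ico s (s + (3 * n + 1)) by
        rw [Set.mem_Ico]
        omega)
      obtain ⟨x, rfl⟩ := bedge_surj n e he
      exact ⟨x, Finset.mem_univ _, hv⟩
    · intro _ _
      rfl
  have e4 : ∑ x, esum f (bedge n x) =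
      A + B + ∑ i : Fin n, (A + B + 2 * (f (Sum.inr i, 0) + f (Sum.inr i, 1))) := by
    rw [Fintype.sum_option, Fintype.sum_prod_type]
    congr 1
    apply Finset.sum_congr rfl
    intro i _
    rw [Fin.sum_univ_three]
    simp only [bedge, esum_mk]
    ring
  rw [Finset.sum_add_distrib, ← Finset.mul_sum, Finset.sum_const, Finset.card_univ,
    Fintype.card_fin, smul_eq_mul] at e4
  set Q := ∑ i : Fin n, (f (Sum.inr i, 0) + f (Sum.inr i, 1))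
  have i1 := sum_Ico 1 (2 * n + 2)
  have i2 := sum_Ico s (3 * n + 1)
  have j1 : (2 * n + 2) * (2 * 1 + (2 * n + 2)) = 2 * ((n + 1) * (2 * n + 3)) + (2 * n + 2) := by
    ring
  have j2 : (3 * n + 1) * (2 * s + (3 * n + 1)) =
      (3 * n + 1) * (2 * s + 3 * n) + (3 * n + 1) := by ring
  rw [j1] at i1
  rw [j2] at i2
  omega

theorem book_nec (n : ℕ) (h : SuperEdgeMagic (book n)) : Even n ∨ n % 8 = 5 := by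
  rcases Nat.even_or_odd' n with ⟨k, rfl | rfl⟩
  · left
    exact even_two_mul k
  right
  obtain ⟨A, B, s, h⟩ := book_count _ h
  have h1 : 2 * (k * (A + B)) + 15 * k + 14 = 2 * (k * k) + 6 * (k * s) + 4 * s := by
    nlinarith
  obtain ⟨j, rfl⟩ : ∃ j, k = 2 * j := ⟨k / 2, by omega⟩
  have h2 : 2 * (j * (A + B)) + 15 * j + 7 = 4 * (j * j) + 6 * (j * s) + 2 * s := by
    nlinarith
  omega

end Pool.Agent.R12.Book
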