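import Mathlib

set_option autoImplicit false

open Finset
open scoped Classical

namespace Pool.Agent.R12.DM

/-- A partial matching of size `j` inside `S`. -/
def Mat {α : Type*} (S : Finset α) (F : α → α → Prop) (j : ℕ) (D : Finset α) (μ : α → α) : Prop :=
  D ⊆ S ∧ D.card = 2 * j ∧ ∀ i ∈ D, μ i ∈ D ∧ μ (μ i) = i ∧ F i (μ i)

theorem mat_exists {α : Type*} (S : Finset α) (F : α → α → Prop)
    (hs : ∀ a b, F a b → F b a) (hi : ∀ a, ¬ F a a) (k : ℕ)
    (hd : ∀ i ∈ S, k ≤ (S.filter (F i)).card) :
    ∀ j, j ≤ k → 2 * j ≤ S.card → ∃ D μ, Mat S F j D μ := by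
  intro j
  induction j with
  | zero =>
    intro _ _
    exact ⟨∅, id, by simp [Mat]⟩
  | succ j ih =>
    intro hjk hcard
    obtain ⟨D, μ, hDS, hDc, hμ⟩ := ih (by omega) (by omega)
    -- two unmatched vertices
    have h2 : 2 ≤ (S \ D).card := by
      rw [card_sdiff_of_subset hDS, hDc]; omega
    obtain ⟨u, hu, v, hv, huv⟩ := Finset.one_lt_card.1 h2
    rw [mem_sdiff] at hu hv
    -- case 1: an edge between two unmatched vertices
    by_cases hE : ∃ a ∈ S \ D, ∃ b ∈ S \ D, F a b
    · obtain ⟨a, ha, b, hb, hab⟩ := hE
      rw [mem_sdiff] at ha hb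
      have hne : a ≠ b := fun h => hi a (h ▸ hab)
      refine ⟨insert a (insert b D), fun x => if x = a then b else if x = b then a else μ x, ?_, ?_, ?_⟩
      · intro x hx
        simp only [mem_insert] at hx
        rcases hx with rfl | rfl | hx
        · exact ha.1
        · exact hb.1
        · exact hDS hx
      · rw [card_insert_of_notMem (by simp [hne, ha.2]), card_insert_of_notMem hb.2, hDc]; ring
      · intro x hx
        simp only [mem_insert] at hx
        rcases hx with rfl | rfl | hx
        · simp [hne.symm, hab]
        · simp [hne.symm, hs _ _ hab]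
        · have hxa : x ≠ a := fun h => ha.2 (h ▸ hx)
          have hxb : x ≠ b := fun h => hb.2 (h ▸ hx)
          obtain ⟨h1, h3, h4⟩ := hμ x hx
          have hma : μ x ≠ a := fun h => ha.2 (h ▸ h1)
          have hmb : μ x ≠ b := fun h => hb.2 (h ▸ h1)
          simp [hxa, hxb, hma, hmb, h1, h3, h4]
    · push Not at hE
      -- all neighbours of u and v are matched
      have hNu : S.filter (F u) ⊆ D := by
        intro x hx
        rw [mem_filter] at hx
        by_contra hxD
        exact hE u (mem_sdiff.2 hu) x (mem_sdiff.2 ⟨hx.1, hxD⟩) hx.2
      have hNv : S.filter (F v) ⊆ D := by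
        intro x hx
        rw [mem_filter] at hx
        by_contra hxD
        exact hE v (mem_sdiff.2 hv) x (mem_sdiff.2 ⟨hx.1, hxD⟩) hx.2
      by_cases hA : ∃ x ∈ D, F u x ∧ F v (μ x)
      · obtain ⟨x, hxD, hux, hvx⟩ := hA
        obtain ⟨h1, h3, h4⟩ := hμ x hxD
        set y := μ x with hy
        have hxy : x ≠ y := fun h => hi x (by rw [← h] at h4; exact h4)
        have hux' : u ≠ x := fun h => hu.2 (h ▸ hxD)
        have huy' : u ≠ y := fun h => hu.2 (h ▸ h1)
        have hvx' : v ≠ x := fun h => hv.2 (h ▸ hxD)
        have hvy' : v ≠ y := fun h => hv.2 (h ▸ h1)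
        refine ⟨insert u (insert v D),
          fun z => if z = u then x else if z = x then u else if z = v then y else if z = y then v
            else μ z, ?_, ?_, ?_⟩
        · intro z hz
          simp only [mem_insert] at hz
          rcases hz with rfl | rfl | hz
          · exact hu.1
          · exact hv.1
          · exact hDS hz
        · rw [card_insert_of_notMem (by simp [huv, hu.2]), card_insert_of_notMem hv.2, hDc]; ring
        · intro z hz
          simp only [mem_insert] at hz
          by_cases e1 : z = u
          · subst e1
            simp [hux'.symm, hxD, hux]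
          by_cases e2 : z = x
          · subst e2
            simp [e1, hs _ _ hux]
          by_cases e3 : z = v
          · subst e3
            simp [e1, hvx', hvy'.symm, huy'.symm, hxy.symm, h1, hvx]
          by_cases e4 : z = y
          · have : F y v := hs _ _ hvx
            subst e4
            simp [e1, e2, e3, hvx', huv.symm, this]
          · have hzD : z ∈ D := by
              rcases hz with h | h | h
              · exact absurd h e1
              · exact absurd h e3
              · exact h
            obtain ⟨g1, g3, g4⟩ := hμ z hzD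
            have m1 : μ z ≠ u := fun h => hu.2 (h ▸ g1)
            have m2 : μ z ≠ x := fun h => e4 (by rw [hy, ← h, g3])
            have m3 : μ z ≠ v := fun h => hv.2 (h ▸ g1)
            have m4 : μ z ≠ y := fun h => e2 (by rw [← g3, h, h3])
            simp [e1, e2, e3, e4, m1, m2, m3, m4, g1, g3, g4]
      · exfalso
        push Not at hA
        -- μ maps N(u) injectively into D \ N(v)
        have hinj : Set.InjOn μ (S.filter (F u) : Set α) := by
          intro a ha b hb hab
          have ha' := hμ a (hNu ha)
          have hb' := hμ b (hNu hb)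
          rw [← ha'.2.1, hab, hb'.2.1]
        have himg : (S.filter (F u)).image μ ⊆ D \ S.filter (F v) := by
          intro y hy
          rw [mem_image] at hy
          obtain ⟨x, hx, rfl⟩ := hy
          rw [mem_sdiff]
          refine ⟨(hμ x (hNu hx)).1, fun h => ?_⟩
          exact hA x (hNu hx) (mem_filter.1 hx).2 (mem_filter.1 h).2
        have c1 := card_le_card himg
        rw [card_image_of_injOn hinj, card_sdiff_of_subset hNv, hDc] at c1
        have c2 := hd u hu.1
        have c3 := hd v hv.1
        have c4 := card_le_card hNv
        omega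

end Pool.Agent.R12.DM
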