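import Pool.Agent.R12.DM3
import Pool.Agent.R12.DMN9
import Pool.Agent.R12.DMN11
import Pool.Agent.R12.DMM11
import Pool.Agent.R12.DMN13
import Pool.Agent.R12.DMM13
import Pool.Agent.R12.DMN15

set_option autoImplicit false

open Finset
open scoped Classical

namespace Pool.Agent.R12.DM

theorem no_two (N : ℕ) (G : ℤ → ℤ → Prop) (h : ZG N (fun _ => 2) G) : False := by
  have h0 : (0:ℤ) ∈ W N := by rw [mem_W]; simp
  have h1 := h.deg 0 h0
  have hne : ((W N).filter (G 0)).Nonempty := by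
    rw [← card_pos, h1]; norm_num
  obtain ⟨a, ha⟩ := hne
  rw [mem_filter] at ha
  have h2 := h.deg a ha.1
  have h3 := h.sum a ha.1
  obtain ⟨x, y, hxy, he⟩ := card_eq_two.1 h2
  rw [he, sum_pair hxy] at h3
  have h4 : (0:ℤ) ∈ (W N).filter (G a) := mem_filter.2 ⟨h0, h.symm _ _ ha.2⟩
  rw [he, mem_insert, mem_singleton] at h4
  omega

/-- the closed non-neighbourhoods -/
noncomputable def CN (N : ℕ) (G : ℤ → ℤ → Prop) (v : ℤ) : Finset ℤ := W N \ (W N).filter (G v)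

theorem mem_CN {N : ℕ} {G : ℤ → ℤ → Prop} {v w : ℤ} : w ∈ CN N G v ↔ w ∈ W N ∧ ¬ G v w := by
  rw [CN, mem_sdiff, mem_filter]; tauto

theorem CN_cs (N r : ℕ) (G : ℤ → ℤ → Prop) (h : ZG N (fun _ => r) G) (v : ℤ) (hv : v ∈ W N) :
    (CN N G v).card = 2 * N + 1 - r ∧ ∑ w ∈ CN N G v, w = 0 := by
  constructor
  · rw [CN, card_sdiff_of_subset (filter_subset _ _), card_W, h.deg v hv]
  · have := sum_sdiff (f := fun w : ℤ => w) (filter_subset (G v) (W N))
    rw [h.sum v hv, sum_W, add_zero] at this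
    exact this

theorem deg_le (N r : ℕ) (G : ℤ → ℤ → Prop) (h : ZG N (fun _ => r) G) : r ≤ 2 * N := by
  have h0 : (0:ℤ) ∈ W N := by rw [mem_W]; simp
  have h1 := h.deg 0 h0
  have h2 : (W N).filter (G 0) ⊆ (W N).erase 0 := by
    intro x hx
    rw [mem_filter] at hx
    rw [mem_erase]
    exact ⟨fun h3 => h.irr 0 (by rw [h3] at hx; exact hx.2), hx.1⟩
  have h3 := card_le_card h2
  rw [card_erase_of_mem h0, card_W, h1] at h3
  omega

theorem no_full (N : ℕ) (hN : 1 ≤ N) (G : ℤ → ℤ → Prop) (h : ZG N (fun _ => 2 * N) G) : False := by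
  have hv : (N:ℤ) ∈ W N := by rw [mem_W, abs_of_nonneg (by positivity)]
  obtain ⟨h1, h2⟩ := CN_cs N _ G h N hv
  rw [show 2 * N + 1 - 2 * N = 1 by omega, card_eq_one] at h1
  obtain ⟨x, hx⟩ := h1
  have h3 : (N:ℤ) ∈ CN N G N := mem_CN.2 ⟨hv, h.irr _⟩
  rw [hx, sum_singleton] at h2
  rw [hx, mem_singleton] at h3
  omega

theorem three (S : Finset ℤ) (hc : S.card = 3) (hs : ∑ w ∈ S, w = 0) (v w : ℤ) (hv : v ∈ S)
    (hw : w ∈ S) (hne : v ≠ w) : S = {v, w, -v - w} := by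
  have h1 : w ∈ S.erase v := mem_erase.2 ⟨hne.symm, hw⟩
  have c1 : ((S.erase v).erase w).card = 1 := by
    rw [card_erase_of_mem h1, card_erase_of_mem hv, hc]
  obtain ⟨b, hb⟩ := card_eq_one.1 c1
  have e1 : S = insert v (insert w {b}) := by
    rw [← hb, insert_erase h1, insert_erase hv]
  have s1 := add_sum_erase S (fun w : ℤ => w) hv
  have s2 := add_sum_erase (S.erase v) (fun w : ℤ => w) h1
  rw [hb, sum_singleton] at s2
  have : b = -v - w := by
    omega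
  rw [e1, this]

theorem no_three (N : ℕ) (hN : 1 ≤ N) (G : ℤ → ℤ → Prop) (h : ZG N (fun _ => 2 * N - 2) G) :
    3 ∣ 2 * N + 1 := by
  have hcs : ∀ v ∈ W N, (CN N G v).card = 3 ∧ ∑ w ∈ CN N G v, w = 0 := by
    intro v hv
    have := CN_cs N _ G h v hv
    rwa [show 2 * N + 1 - (2 * N - 2) = 3 by omega] at this
  have hself : ∀ v ∈ W N, v ∈ CN N G v := fun v hv => mem_CN.2 ⟨hv, h.irr _⟩
  have heq : ∀ v ∈ W N, ∀ w ∈ CN N G v, CN N G w = CN N G v := by
    intro v hv w hw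
    by_cases hvw : v = w
    · rw [hvw]
    · have hwW := (mem_CN.1 hw).1
      have hvw' : v ∈ CN N G w := mem_CN.2 ⟨hv, fun g => (mem_CN.1 hw).2 (h.symm _ _ g)⟩
      rw [three _ (hcs w hwW).1 (hcs w hwW).2 v w hvw' (hself w hwW) hvw,
        three _ (hcs v hv).1 (hcs v hv).2 v w (hself v hv) hw hvw]
  have h1 := card_eq_sum_card_image (CN N G) (W N)
  have h2 : ∀ t ∈ (W N).image (CN N G), ((W N).filter (fun x => CN N G x = t)).card = 3 := by
    intro t ht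
    rw [mem_image] at ht
    obtain ⟨v, hv, rfl⟩ := ht
    have : (W N).filter (fun x => CN N G x = CN N G v) = CN N G v := by
      ext x
      rw [mem_filter]
      constructor
      · rintro ⟨g1, g2⟩
        rw [← g2]; exact hself x g1
      · intro hx
        exact ⟨(mem_CN.1 hx).1, heq v hv x hx⟩
    rw [this]
    exact (hcs v hv).1
  rw [sum_congr rfl h2, sum_const, card_W] at h1
  exact ⟨_, by rw [h1, smul_eq_mul, mul_comm]⟩

/-! ### conversion -/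

theorem cnt_eq (f : ℕ → Bool) (n : ℕ) : cnt f n = ((range n).filter (fun j => f j = true)).card := by
  induction n with
  | zero => simp [cnt]
  | succ n ih =>
    rw [cnt, ih, range_add_one, filter_insert]
    split_ifs with h
    · rw [card_insert_of_notMem (by simp)]
    · rfl

theorem sml_eq (lab : ℕ → ℤ) (f : ℕ → Bool) (n : ℕ) :
    sml lab f n = ∑ j ∈ (range n).filter (fun j => f j = true), lab j := by
  induction n with
  | zero => simp [sml]
  | succ n ih =>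
    rw [sml, ih, range_add_one, filter_insert]
    split_ifs with h
    · rw [sum_insert (by simp), add_comm]
    · rw [add_zero]

theorem W_filter (N : ℕ) (P : ℤ → Prop) : (W N).filter P =
    ((range (2 * N + 1)).filter (fun j : ℕ => P ((j:ℤ) - N))).image (fun j : ℕ => (j:ℤ) - N) := by
  ext x
  simp only [mem_filter, mem_image, mem_range, W, Finset.mem_Icc]
  constructor
  · rintro ⟨⟨h1, h2⟩, h3⟩
    refine ⟨(x + N).toNat, ⟨by omega, ?_⟩, by omega⟩
    rwa [show ((x + N).toNat : ℤ) - N = x by omega]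
  · rintro ⟨j, ⟨h1, h2⟩, rfl⟩
    exact ⟨by omega, h2⟩

theorem sh_inj (N : ℕ) : Function.Injective (fun j : ℕ => (j:ℤ) - N) := by
  intro a b h
  simp only at h
  omega

theorem conv (N : ℕ) (P : ℤ → Prop) (f : ℕ → Bool) (hf : ∀ j < 2 * N + 1, f j = true ↔ P ((j:ℤ) - N)) :
    cnt f (2 * N + 1) = ((W N).filter P).card ∧
      sml (fun j => (j:ℤ) - (((2 * N + 1) - 1) / 2 : ℕ)) f (2 * N + 1) = ∑ w ∈ (W N).filter P, w := by
  have e : (range (2 * N + 1)).filter (fun j => f j = true) =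
      (range (2 * N + 1)).filter (fun j : ℕ => P ((j:ℤ) - N)) := by
    apply filter_congr
    intro j hj
    exact hf j (mem_range.1 hj)
  constructor
  · rw [cnt_eq, W_filter, card_image_of_injective _ (sh_inj N), e]
  · rw [sml_eq, W_filter, sum_image (fun a _ b _ h => sh_inj N h), e]
    rw [show (2 * N + 1 - 1) / 2 = N by omega]

theorem conv1 (N : ℕ) (G : ℤ → ℤ → Prop) (h : ZG N (fun _ => 4) G) : ∃ A : ℕ → ℕ → Bool,
    (∀ i j, A i j = A j i) ∧ (∀ i, A i i = false) ∧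
    (∀ i < 2 * N + 1, cnt (A i) (2 * N + 1) = 4) ∧
    (∀ i < 2 * N + 1, sml (fun j => (j:ℤ) - (((2 * N + 1) - 1) / 2 : ℕ)) (A i) (2 * N + 1) =
      0 * ((i:ℤ) - (((2 * N + 1) - 1) / 2 : ℕ))) := by
  have key := fun i : ℕ => conv N (G ((i:ℤ) - N)) (fun j => decide (G ((i:ℤ) - N) ((j:ℤ) - N)))
    (fun j _ => by rw [decide_eq_true_iff])
  have hW : ∀ i < 2 * N + 1, ((i:ℤ) - N) ∈ W N := fun i hi => by
    rw [W, Finset.mem_Icc]; omega
  refine ⟨fun i j => decide (G ((i:ℤ) - N) ((j:ℤ) - N)), fun i j => ?_, fun i => ?_,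
    fun i hi => ?_, fun i hi => ?_⟩
  · exact decide_eq_decide.2 ⟨h.symm _ _, h.symm _ _⟩
  · exact decide_eq_false (h.irr _)
  · rw [(key i).1, h.deg _ (hW i hi)]
  · rw [(key i).2, h.sum _ (hW i hi), zero_mul]

def NG (G : ℤ → ℤ → Prop) (v w : ℤ) : Prop := w ≠ v ∧ ¬ G v w

theorem conv2 (N : ℕ) (G : ℤ → ℤ → Prop) (hN : 2 ≤ N) (h : ZG N (fun _ => 2 * N - 4) G) :
    ∃ A : ℕ → ℕ → Bool,
    (∀ i j, A i j = A j i) ∧ (∀ i, A i i = false) ∧
    (∀ i < 2 * N + 1, cnt (A i) (2 * N + 1) = 4) ∧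
    (∀ i < 2 * N + 1, sml (fun j => (j:ℤ) - (((2 * N + 1) - 1) / 2 : ℕ)) (A i) (2 * N + 1) =
      (-1) * ((i:ℤ) - (((2 * N + 1) - 1) / 2 : ℕ))) := by
  have key := fun i : ℕ => conv N (NG G ((i:ℤ) - N))
    (fun j => decide (NG G ((i:ℤ) - N) ((j:ℤ) - N)))
    (fun j _ => by rw [decide_eq_true_iff])
  have hW : ∀ i < 2 * N + 1, ((i:ℤ) - N) ∈ W N := fun i hi => by
    rw [W, Finset.mem_Icc]; omega
  have hF : ∀ v ∈ W N, ((W N).filter (NG G v)) = (CN N G v).erase v := by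
    intro v hv
    ext w
    rw [mem_filter, mem_erase, mem_CN, NG]
    tauto
  have hself : ∀ v ∈ W N, v ∈ CN N G v := fun v hv => mem_CN.2 ⟨hv, h.irr _⟩
  refine ⟨fun i j => decide (NG G ((i:ℤ) - N) ((j:ℤ) - N)),
    fun i j => ?_, fun i => ?_, fun i hi => ?_, fun i hi => ?_⟩
  · exact decide_eq_decide.2 ⟨fun g => ⟨g.1.symm, fun g2 => g.2 (h.symm _ _ g2)⟩,
      fun g => ⟨g.1.symm, fun g2 => g.2 (h.symm _ _ g2)⟩⟩
  · exact decide_eq_false (fun g => g.1 rfl)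
  · rw [(key i).1, hF _ (hW i hi), card_erase_of_mem (hself _ (hW i hi)),
      (CN_cs N _ G h _ (hW i hi)).1]
    omega
  · rw [(key i).2, hF _ (hW i hi)]
    have := add_sum_erase (CN N G ((i:ℤ) - N)) (fun w : ℤ => w) (hself _ (hW i hi))
    rw [(CN_cs N _ G h _ (hW i hi)).2] at this
    rw [show (2 * N + 1 - 1) / 2 = N by omega]
    linarith

theorem no_small (N r : ℕ) (G : ℤ → ℤ → Prop) (h : ZG N (fun _ => r) G)
    (hc : (r = 4 ∧ (N = 4 ∨ N = 5 ∨ N = 6 ∨ N = 7)) ∨ (r = 6 ∧ N = 5) ∨ (r = 8 ∧ N = 6)) :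
    False := by
  rcases hc with ⟨rfl, rfl | rfl | rfl | rfl⟩ | ⟨rfl, rfl⟩ | ⟨rfl, rfl⟩
  · obtain ⟨A, a1, a2, a3, a4⟩ := conv1 4 G h
    exact N9.no A a1 a2 a3 a4
  · obtain ⟨A, a1, a2, a3, a4⟩ := conv1 5 G h
    exact N11.no A a1 a2 a3 a4
  · obtain ⟨A, a1, a2, a3, a4⟩ := conv1 6 G h
    exact N13.no A a1 a2 a3 a4
  · obtain ⟨A, a1, a2, a3, a4⟩ := conv1 7 G h
    exact N15.no A a1 a2 a3 a4
  · obtain ⟨A, a1, a2, a3, a4⟩ := conv2 5 G (by norm_num) h
    exact M11.no A a1 a2 a3 a4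
  · obtain ⟨A, a1, a2, a3, a4⟩ := conv2 6 G (by norm_num) h
    exact M13.no A a1 a2 a3 a4

/-- necessity of the conditions -/
theorem necess (N r : ℕ) (hr : r % 2 = 0) (G : ℤ → ℤ → Prop) (h : ZG N (fun _ => r) G) :
    r = 0 ∨ (r + 3 = 2 * N + 1 ∧ 3 ∣ 2 * N + 1 ∧ 9 ≤ 2 * N + 1) ∨
      (r + 5 ≤ 2 * N + 1 ∧ (10 ≤ r ∨ (r = 8 ∧ 15 ≤ 2 * N + 1) ∨ (r = 6 ∧ 13 ≤ 2 * N + 1) ∨
        (r = 4 ∧ 17 ≤ 2 * N + 1))) := by
  by_cases h0 : r = 0
  · exact Or.inl h0
  right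
  have hle := deg_le N r G h
  have h2 : r ≠ 2 := by
    rintro rfl
    exact no_two N G h
  have hN : 1 ≤ N := by omega
  have hf : r ≠ 2 * N := by
    rintro rfl
    exact no_full N hN G h
  by_cases h3 : r + 3 = 2 * N + 1
  · left
    have h4 : r = 2 * N - 2 := by omega
    rw [h4] at h
    have := no_three N hN G h
    exact ⟨h3, this, by omega⟩
  · right
    refine ⟨by omega, ?_⟩
    by_contra hc
    apply no_small N r G h
    omega

end Pool.Agent.R12.DM
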