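import Pool.Agent.R12.DM9
import Pool.Agent.R12.DM10

set_option autoImplicit false

open Finset
open scoped Classical

namespace Pool.Agent.R12.DM

theorem exist_all (N r : ℕ) (hr : r % 2 = 0)
    (h : r = 0 ∨ (r + 3 = 2 * N + 1 ∧ 3 ∣ 2 * N + 1 ∧ 9 ≤ 2 * N + 1) ∨
      (r + 5 ≤ 2 * N + 1 ∧ (10 ≤ r ∨ (r = 8 ∧ 15 ≤ 2 * N + 1) ∨ (r = 6 ∧ 13 ≤ 2 * N + 1) ∨
        (r = 4 ∧ 17 ≤ 2 * N + 1)))) : ∃ G, ZG N (fun _ => r) G := by
  rcases h with rfl | ⟨h1, h2, h3⟩ | ⟨h1, h2⟩
  · refine ⟨fun _ _ => False, fun _ _ h => h, fun _ h => h, fun _ _ h => h.elim, fun v _ => ?_,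
      fun v _ => ?_⟩
    · rw [filter_false, card_empty]
    · rw [filter_false, sum_empty]
  · obtain ⟨m, rfl⟩ : ∃ m, N = 3 * m + 1 := ⟨(N - 1) / 3, by omega⟩
    obtain ⟨G, hG⟩ := exist_three m
    rw [show 6 * m = r by omega] at hG
    exact ⟨G, hG⟩
  · obtain ⟨G, hG⟩ := exist_main (r / 2) N (by omega) (by omega)
    rw [show 2 * (r / 2) = r by omega] at hG
    exact ⟨G, hG⟩

def GG {V : Type} (G : SimpleGraph V) (φ : V → ℤ) (x y : ℤ) : Prop :=
  ∃ u v, φ u = x ∧ φ v = y ∧ G.Adj u v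

/-- from a labelling to `ZG` -/
theorem to_zg {V : Type} [Fintype V] (G : SimpleGraph V) (N r k : ℕ)
    (hc : Fintype.card V = 2 * N + 1) (hd : ∀ v, (G.neighborSet v).ncard = r) (f : V → ℕ)
    (hf : Set.BijOn f Set.univ (Set.Icc 1 (2 * N + 1)))
    (hk : ∀ v, ∑ u with G.Adj v u, f u = k) : ∃ G', ZG N (fun _ => r) G' := by
  set φ : V → ℤ := fun v => (f v : ℤ) - (N + 1) with hφ
  have hinj : Function.Injective φ := by
    intro a b hab
    simp only [hφ] at hab
    exact hf.injOn (Set.mem_univ _) (Set.mem_univ _) (by omega)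
  have hmem : ∀ v, φ v ∈ W N := by
    intro v
    have := hf.mapsTo (Set.mem_univ v)
    rw [Set.mem_Icc] at this
    rw [W, Finset.mem_Icc]
    simp only [hφ]
    omega
  have hsurj : ∀ x ∈ W N, ∃ v, φ v = x := by
    intro x hx
    rw [W, Finset.mem_Icc] at hx
    obtain ⟨v, -, hv⟩ := hf.surjOn (show (x + (N + 1)).toNat ∈ Set.Icc 1 (2 * N + 1) by
      rw [Set.mem_Icc]; omega)
    refine ⟨v, ?_⟩
    simp only [hφ, hv]
    omega
  have hG'' : ∀ u v, GG G φ (φ u) (φ v) ↔ G.Adj u v := by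
    intro u v
    constructor
    · rintro ⟨u', v', h1, h2, h3⟩
      rwa [hinj h1, hinj h2] at h3
    · intro h; exact ⟨u, v, rfl, rfl, h⟩
  have hfil : ∀ v, (W N).filter (GG G φ (φ v)) = (univ.filter (fun u => G.Adj v u)).image φ := by
    intro v
    ext x
    rw [mem_filter, mem_image]
    constructor
    · rintro ⟨h1, h2⟩
      obtain ⟨u, rfl⟩ := hsurj x h1
      exact ⟨u, mem_filter.2 ⟨mem_univ _, (hG'' v u).1 h2⟩, rfl⟩
    · rintro ⟨u, hu, rfl⟩
      exact ⟨hmem u, (hG'' v u).2 (mem_filter.1 hu).2⟩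
  have hcard : ∀ v, (univ.filter (fun u => G.Adj v u)).card = r := by
    intro v
    rw [← hd v, ← Set.ncard_coe_finset]
    congr 1
    ext u
    simp
  have hsum : ∀ v, ∑ u with G.Adj v u, φ u = (k:ℤ) - r * (N + 1) := by
    intro v
    simp only [hφ]
    rw [sum_sub_distrib, sum_const, hcard v, nsmul_eq_mul, ← Nat.cast_sum, hk v]
  have himg : (univ : Finset V).image φ = W N := by
    ext x
    rw [mem_image]
    constructor
    · rintro ⟨v, -, rfl⟩; exact hmem v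
    · intro hx
      obtain ⟨v, hv⟩ := hsurj x hx
      exact ⟨v, mem_univ _, hv⟩
  have htot : ∑ v, φ v = 0 := by
    rw [← sum_W N, ← himg, sum_image (fun a _ b _ h => hinj h)]
  have hzero : (k:ℤ) - r * (N + 1) = 0 := by
    have h1 : ∑ v : V, ∑ u with G.Adj v u, φ u = (2 * N + 1) * ((k:ℤ) - r * (N + 1)) := by
      rw [sum_congr rfl (fun v _ => hsum v), sum_const, card_univ, hc, nsmul_eq_mul]
      push_cast; ring
    have h2 : ∑ v : V, ∑ u with G.Adj v u, φ u = 0 := by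
      have e1 : ∑ v : V, ∑ u with G.Adj v u, φ u = ∑ v : V, ∑ u : V, if G.Adj v u then φ u else 0 :=
        sum_congr rfl (fun v _ => sum_filter _ _)
      rw [e1, sum_comm]
      have e2 : ∀ u : V, (∑ v : V, if G.Adj v u then φ u else 0) = r * φ u := by
        intro u
        rw [← sum_filter, sum_const, nsmul_eq_mul, ← hcard u]
        congr 3
        ext x
        exact ⟨fun h => mem_filter.2 ⟨mem_univ _, (mem_filter.1 h).2.symm⟩,
          fun h => mem_filter.2 ⟨mem_univ _, (mem_filter.1 h).2.symm⟩⟩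
      rw [sum_congr rfl (fun u _ => e2 u), ← mul_sum, htot, mul_zero]
    rw [h2] at h1
    have h3 : (2 * (N:ℤ) + 1) ≠ 0 := by omega
    rcases mul_eq_zero.1 h1.symm with h | h
    · exact absurd h h3
    · exact h
  refine ⟨GG G φ, ?_, ?_, ?_, ?_, ?_⟩
  · rintro _ _ ⟨u, v, rfl, rfl, h⟩
    exact ⟨v, u, rfl, rfl, h.symm⟩
  · rintro x ⟨u, v, rfl, h2, h⟩
    rw [hinj h2] at h
    exact G.irrefl h
  · rintro _ _ ⟨u, v, rfl, rfl, h⟩
    exact hmem u
  · intro x hx
    obtain ⟨v, rfl⟩ := hsurj x hx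
    rw [hfil, card_image_of_injective _ hinj, hcard]
  · intro x hx
    obtain ⟨v, rfl⟩ := hsurj x hx
    rw [hfil, sum_image (fun a _ b _ h => hinj h), hsum, hzero]

/-- from `ZG` to a labelling -/
theorem of_zg (N r : ℕ) (G' : ℤ → ℤ → Prop) (h : ZG N (fun _ => r) G') :
    ∃ G : SimpleGraph (Fin (2 * N + 1)), (∀ v, (G.neighborSet v).ncard = r) ∧
      ∀ v, ∑ u with G.Adj v u, ((u:ℕ) + 1) = r * (N + 1) := by
  refine ⟨⟨fun i j => G' ((i:ℕ) - N) ((j:ℕ) - N), ⟨fun i j g => h.symm _ _ g⟩,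
    ⟨fun i g => h.irr _ g⟩⟩, ?_⟩
  set φ : Fin (2 * N + 1) → ℤ := fun i => ((i:ℕ):ℤ) - N with hφ
  have hinj : Function.Injective φ := by
    intro a b hab
    simp only [hφ] at hab
    exact Fin.ext (by omega)
  have hmem : ∀ i, φ i ∈ W N := by
    intro i
    have := i.2
    rw [W, Finset.mem_Icc]
    simp only [hφ]
    omega
  have hfil : ∀ i, (univ.filter (fun j => G' (φ i) (φ j))).image φ = (W N).filter (G' (φ i)) := by
    intro i
    ext x
    rw [mem_image, mem_filter]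
    constructor
    · rintro ⟨j, hj, rfl⟩
      exact ⟨hmem j, (mem_filter.1 hj).2⟩
    · rintro ⟨h1, h2⟩
      rw [W, Finset.mem_Icc] at h1
      have hx : φ ⟨(x + N).toNat, by omega⟩ = x := by
        simp only [hφ]; omega
      refine ⟨⟨(x + N).toNat, by omega⟩, mem_filter.2 ⟨mem_univ _, ?_⟩, hx⟩
      rw [hx]; exact h2
  have hcard : ∀ i, (univ.filter (fun j => G' (φ i) (φ j))).card = r := by
    intro i
    rw [← card_image_of_injective _ hinj, hfil i]
    exact h.deg _ (hmem i)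
  constructor
  · intro i
    refine Eq.trans ?_ (hcard i)
    rw [← Set.ncard_coe_finset]
    congr 1
    ext j
    simp [φ]
  · intro i
    have h1 : ∑ j with G' (φ i) (φ j), φ j = 0 := by
      rw [← h.sum _ (hmem i), ← hfil i, sum_image (fun a _ b _ g => hinj g)]
    have h2 : ((∑ j with G' (φ i) (φ j), ((j:ℕ) + 1) : ℕ) : ℤ) = (r * (N + 1) : ℕ) := by
      push_cast
      have h3 : ∀ j : Fin (2 * N + 1), (((j:ℕ):ℤ) + 1) = φ j + (N + 1) := by
        intro j; simp only [hφ]; ring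
      rw [sum_congr rfl (fun j _ => h3 j), sum_add_distrib, h1, sum_const, hcard i, nsmul_eq_mul]
      ring
    have h4 := Nat.cast_injective h2
    rw [← h4]

end Pool.Agent.R12.DM
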