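import Pool.Agent.R12.DM1

set_option autoImplicit false

open Finset
open scoped Classical

namespace Pool.Agent.R12.DM

/-- the labels `-N, ..., N` -/
noncomputable def W (N : ℕ) : Finset ℤ := Finset.Icc (-(N:ℤ)) N

theorem mem_W {N : ℕ} {x : ℤ} : x ∈ W N ↔ |x| ≤ N := by
  rw [W, Finset.mem_Icc, abs_le]

/-- `G` is a graph on `W N` with degrees `d` and with all the neighbour sums zero -/
structure ZG (N : ℕ) (d : ℤ → ℕ) (G : ℤ → ℤ → Prop) : Prop where
  symm : ∀ u w, G u w → G w u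
  irr : ∀ u, ¬ G u u
  supp : ∀ u w, G u w → u ∈ W N
  deg : ∀ v ∈ W N, ((W N).filter (G v)).card = d v
  sum : ∀ v ∈ W N, ∑ w ∈ (W N).filter (G v), w = 0

def Full (G : ℤ → ℤ → Prop) (i j : ℤ) : Prop := G i j ∧ G i (-j) ∧ G (-i) j ∧ G (-i) (-j)

theorem full_symm {G : ℤ → ℤ → Prop} (hs : ∀ u w, G u w → G w u) (a b : ℤ) (h : Full G a b) :
    Full G b a := ⟨hs _ _ h.1, hs _ _ h.2.2.1, hs _ _ h.2.1, hs _ _ h.2.2.2⟩

theorem full_irr {G : ℤ → ℤ → Prop} (hi : ∀ u, ¬ G u u) (a : ℤ) : ¬ Full G a a := fun h => hi a h.1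

theorem full_abs {G : ℤ → ℤ → Prop} {v m : ℤ} (h : Full G |v| m) : G v m ∧ G v (-m) := by
  rcases abs_choice v with e | e
  · rw [e] at h; exact ⟨h.1, h.2.1⟩
  · rw [e] at h
    have h3 := h.2.2.1
    have h4 := h.2.2.2
    rw [neg_neg] at h3 h4
    exact ⟨h3, h4⟩

theorem pair_cs (p : ℤ) (hp : p ≠ 0) : ({p, -p} : Finset ℤ).card = 2 ∧
    ∑ w ∈ ({p, -p} : Finset ℤ), w = 0 := by
  have : p ≠ -p := by omega
  exact ⟨card_pair this, by rw [sum_pair this]; ring⟩

theorem swap_cs (A : Finset ℤ) (m p : ℤ) (hm : m ≠ 0) (hp : p ≠ 0) (h1 : m ∈ A) (h2 : -m ∈ A)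
    (h3 : p ∉ A) (h4 : -p ∉ A) :
    ((A \ {m, -m}) ∪ {p, -p}).card = A.card ∧
      ∑ w ∈ (A \ {m, -m}) ∪ {p, -p}, w = ∑ w ∈ A, w := by
  have hsub : ({m, -m} : Finset ℤ) ⊆ A := by
    intro x hx
    simp only [mem_insert, mem_singleton] at hx
    rcases hx with rfl | rfl <;> assumption
  have hdis : Disjoint (A \ {m, -m}) ({p, -p} : Finset ℤ) := by
    rw [disjoint_left]
    intro x hx hx2
    simp only [mem_insert, mem_singleton] at hx2
    rcases hx2 with rfl | rfl
    · exact h3 (mem_sdiff.1 hx).1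
    · exact h4 (mem_sdiff.1 hx).1
  have c2 : 2 ≤ A.card := by
    rw [← (pair_cs m hm).1]; exact card_le_card hsub
  constructor
  · rw [card_union_of_disjoint hdis, card_sdiff_of_subset hsub, (pair_cs m hm).1, (pair_cs p hp).1]
    omega
  · rw [sum_union hdis, (pair_cs p hp).2, add_zero]
    have := sum_sdiff hsub (f := fun w : ℤ => w)
    rw [(pair_cs m hm).2, add_zero] at this
    exact this

/-- the pairs of a set of positive numbers -/
noncomputable def PM (D : Finset ℤ) : Finset ℤ := D ∪ D.image (fun x => -x)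

theorem mem_PM {D : Finset ℤ} (hD : ∀ x ∈ D, 0 < x) {w : ℤ} : w ∈ PM D ↔ |w| ∈ D := by
  simp only [PM, mem_union, mem_image]
  constructor
  · rintro (h | ⟨x, hx, rfl⟩)
    · rwa [abs_of_pos (hD _ h)]
    · rw [abs_neg, abs_of_pos (hD _ hx)]; exact hx
  · intro h
    rcases abs_choice w with e | e
    · left; rwa [e] at h
    · right; exact ⟨-w, by rwa [e] at h, by ring⟩

theorem PM_cs (D : Finset ℤ) (hD : ∀ x ∈ D, 0 < x) : (PM D).card = 2 * D.card ∧
    ∑ w ∈ PM D, w = 0 := by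
  have hdis : Disjoint D (D.image (fun x => -x)) := by
    rw [disjoint_left]
    intro x hx hx2
    rw [mem_image] at hx2
    obtain ⟨y, hy, rfl⟩ := hx2
    have := hD _ hx
    have := hD _ hy
    omega
  have hinj : Function.Injective (fun x : ℤ => -x) := neg_injective
  constructor
  · rw [PM, card_union_of_disjoint hdis, card_image_of_injective _ hinj]; ring
  · rw [PM, sum_union hdis, sum_image (fun a _ b _ h => hinj h)]
    rw [Finset.sum_neg_distrib]; ring

/-- insertion of a new pair `±(N+1)` -/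
def Ins (N : ℕ) (G : ℤ → ℤ → Prop) (D : Finset ℤ) (μ : ℤ → ℤ) (u w : ℤ) : Prop :=
  (G u w ∧ ¬(|u| ∈ D ∧ μ |u| = |w|)) ∨ (|u| = N + 1 ∧ |w| ∈ D) ∨ (|w| = N + 1 ∧ |u| ∈ D)

theorem ins_zg (N : ℕ) (d : ℤ → ℕ) (G : ℤ → ℤ → Prop) (hG : ZG N d G) (S : Finset ℤ)
    (hS : S ⊆ Finset.Icc 1 (N:ℤ)) (k : ℕ) (D : Finset ℤ) (μ : ℤ → ℤ)
    (hM : Mat S (Full G) k D μ) :
    ZG (N + 1) (fun v => if |v| = N + 1 then 4 * k else d v) (Ins N G D μ) := by
  obtain ⟨hDS, hDc, hμ⟩ := hM
  have hD1 : ∀ x ∈ D, 1 ≤ x ∧ x ≤ N := fun x hx => Finset.mem_Icc.1 (hS (hDS hx))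
  have hDpos : ∀ x ∈ D, 0 < x := fun x hx => by have := (hD1 x hx).1; omega
  have hsup : ∀ u w, G u w → |u| ≤ N ∧ |w| ≤ N := fun u w h =>
    ⟨mem_W.1 (hG.supp _ _ h), mem_W.1 (hG.supp _ _ (hG.symm _ _ h))⟩
  refine ⟨?_, ?_, ?_, ?_, ?_⟩
  · rintro u w (⟨h1, h2⟩ | h | h)
    · refine Or.inl ⟨hG.symm _ _ h1, fun ⟨h3, h4⟩ => h2 ⟨?_, ?_⟩⟩
      · rw [← h4]; exact (hμ _ h3).1
      · rw [← h4]; exact (hμ _ h3).2.1
    · exact Or.inr (Or.inr h)
    · exact Or.inr (Or.inl h)
  · rintro u (⟨h1, -⟩ | ⟨h1, h2⟩ | ⟨h1, h2⟩)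
    · exact hG.irr u h1
    · have := (hD1 _ h2).2; omega
    · have := (hD1 _ h2).2; omega
  · rintro u w (⟨h1, -⟩ | ⟨h1, h2⟩ | ⟨h1, h2⟩)
    · rw [mem_W]; have := (hsup _ _ h1).1; push_cast; omega
    · rw [mem_W]; push_cast; omega
    · rw [mem_W]; have := (hD1 _ h2).2; push_cast; omega
  all_goals
    intro v hv
    rw [mem_W] at hv
    push_cast at hv
  · by_cases hv1 : |v| = N + 1
    · have e : (W (N+1)).filter (Ins N G D μ v) = PM D := by
        ext w
        rw [mem_filter, mem_PM hDpos, mem_W]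
        constructor
        · rintro ⟨-, (⟨h1, -⟩ | ⟨-, h2⟩ | ⟨-, h2⟩)⟩
          · have := (hsup _ _ h1).1; omega
          · exact h2
          · have := (hD1 _ h2).2; omega
        · intro h
          have := (hD1 _ h).2
          exact ⟨by push_cast; omega, Or.inr (Or.inl ⟨hv1, h⟩)⟩
      rw [e, (PM_cs D hDpos).1, if_pos hv1, hDc]; ring
    · rw [if_neg hv1]
      have hvW : v ∈ W N := by rw [mem_W]; omega
      by_cases hvD : |v| ∈ D
      · obtain ⟨g1, g2, g3⟩ := hμ _ hvD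
        obtain ⟨f1, f2⟩ := full_abs g3
        have e : (W (N+1)).filter (Ins N G D μ v) =
            ((W N).filter (G v) \ {μ |v|, -μ |v|}) ∪ {((N:ℤ)+1), -((N:ℤ)+1)} := by
          ext w
          simp only [mem_filter, mem_union, mem_sdiff, mem_insert, mem_singleton, mem_W]
          constructor
          · rintro ⟨-, (⟨h1, h2⟩ | ⟨h1, -⟩ | ⟨h1, -⟩)⟩
            · refine Or.inl ⟨⟨(hsup _ _ h1).2, h1⟩, fun h => h2 ⟨hvD, ?_⟩⟩
              have hp := hDpos _ g1
              rcases h with h | h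
              · rw [h, abs_of_pos hp]
              · rw [h, abs_neg, abs_of_pos hp]
            · exact absurd h1 hv1
            · right; rcases abs_choice w with e | e <;> omega
          · rintro (⟨⟨h1, h2⟩, h3⟩ | h)
            · refine ⟨by push_cast; omega, Or.inl ⟨h2, fun ⟨_, h4⟩ => h3 ?_⟩⟩
              rcases abs_choice w with e | e
              · left; rw [h4, e]
              · right; rw [h4, e]; ring
            · have : |w| = N + 1 := by
                rcases h with rfl | rfl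
                · rw [abs_of_nonneg (by positivity)]
                · rw [abs_neg, abs_of_nonneg (by positivity)]
              exact ⟨by push_cast; omega, Or.inr (Or.inr ⟨this, hvD⟩)⟩
        have hp := hDpos _ g1
        have hle := (hD1 _ g1).2
        rw [e, (swap_cs _ _ _ (by omega) (by omega) (mem_filter.2 ⟨?_, f1⟩) (mem_filter.2 ⟨?_, f2⟩)
          ?_ ?_).1, hG.deg v hvW]
        · rw [mem_W, abs_of_pos hp]; exact hle
        · rw [mem_W, abs_neg, abs_of_pos hp]; exact hle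
        · rw [mem_filter, mem_W, abs_of_nonneg (by positivity)]; omega
        · rw [mem_filter, mem_W, abs_neg, abs_of_nonneg (by positivity)]; omega
      · have e : (W (N+1)).filter (Ins N G D μ v) = (W N).filter (G v) := by
          ext w
          simp only [mem_filter, mem_W]
          constructor
          · rintro ⟨-, (⟨h1, h2⟩ | ⟨h1, -⟩ | ⟨-, h1⟩)⟩
            · exact ⟨(hsup _ _ h1).2, h1⟩
            · exact absurd h1 hv1
            · exact absurd h1 hvD
          · rintro ⟨h1, h2⟩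
            exact ⟨by push_cast; omega, Or.inl ⟨h2, fun h => hvD h.1⟩⟩
        rw [e, hG.deg v hvW]
  · by_cases hv1 : |v| = N + 1
    · have e : (W (N+1)).filter (Ins N G D μ v) = PM D := by
        ext w
        rw [mem_filter, mem_PM hDpos, mem_W]
        constructor
        · rintro ⟨-, (⟨h1, -⟩ | ⟨-, h2⟩ | ⟨-, h2⟩)⟩
          · have := (hsup _ _ h1).1; omega
          · exact h2
          · have := (hD1 _ h2).2; omega
        · intro h
          have := (hD1 _ h).2
          exact ⟨by push_cast; omega, Or.inr (Or.inl ⟨hv1, h⟩)⟩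
      rw [e, (PM_cs D hDpos).2]
    · have hvW : v ∈ W N := by rw [mem_W]; omega
      by_cases hvD : |v| ∈ D
      · obtain ⟨g1, g2, g3⟩ := hμ _ hvD
        obtain ⟨f1, f2⟩ := full_abs g3
        have e : (W (N+1)).filter (Ins N G D μ v) =
            ((W N).filter (G v) \ {μ |v|, -μ |v|}) ∪ {((N:ℤ)+1), -((N:ℤ)+1)} := by
          ext w
          simp only [mem_filter, mem_union, mem_sdiff, mem_insert, mem_singleton, mem_W]
          constructor
          · rintro ⟨-, (⟨h1, h2⟩ | ⟨h1, -⟩ | ⟨h1, -⟩)⟩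
            · refine Or.inl ⟨⟨(hsup _ _ h1).2, h1⟩, fun h => h2 ⟨hvD, ?_⟩⟩
              have hp := hDpos _ g1
              rcases h with h | h
              · rw [h, abs_of_pos hp]
              · rw [h, abs_neg, abs_of_pos hp]
            · exact absurd h1 hv1
            · right; rcases abs_choice w with e | e <;> omega
          · rintro (⟨⟨h1, h2⟩, h3⟩ | h)
            · refine ⟨by push_cast; omega, Or.inl ⟨h2, fun ⟨_, h4⟩ => h3 ?_⟩⟩
              rcases abs_choice w with e | e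
              · left; rw [h4, e]
              · right; rw [h4, e]; ring
            · have : |w| = N + 1 := by
                rcases h with rfl | rfl
                · rw [abs_of_nonneg (by positivity)]
                · rw [abs_neg, abs_of_nonneg (by positivity)]
              exact ⟨by push_cast; omega, Or.inr (Or.inr ⟨this, hvD⟩)⟩
        have hp := hDpos _ g1
        have hle := (hD1 _ g1).2
        rw [e, (swap_cs _ _ _ (by omega) (by omega) (mem_filter.2 ⟨?_, f1⟩) (mem_filter.2 ⟨?_, f2⟩)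
          ?_ ?_).2, hG.sum v hvW]
        · rw [mem_W, abs_of_pos hp]; exact hle
        · rw [mem_W, abs_neg, abs_of_pos hp]; exact hle
        · rw [mem_filter, mem_W, abs_of_nonneg (by positivity)]; omega
        · rw [mem_filter, mem_W, abs_neg, abs_of_nonneg (by positivity)]; omega
      · have e : (W (N+1)).filter (Ins N G D μ v) = (W N).filter (G v) := by
          ext w
          simp only [mem_filter, mem_W]
          constructor
          · rintro ⟨-, (⟨h1, h2⟩ | ⟨h1, -⟩ | ⟨-, h1⟩)⟩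
            · exact ⟨(hsup _ _ h1).2, h1⟩
            · exact absurd h1 hv1
            · exact absurd h1 hvD
          · rintro ⟨h1, h2⟩
            exact ⟨by push_cast; omega, Or.inl ⟨h2, fun h => hvD h.1⟩⟩
        rw [e, hG.sum v hvW]

/-- full pairs after an insertion -/
theorem ins_full_old {N : ℕ} {G : ℤ → ℤ → Prop} {D : Finset ℤ} {μ : ℤ → ℤ} {i j : ℤ}
    (hi : 0 < i) (hj : 0 < j) (h : Full G i j) (hn : ¬(i ∈ D ∧ μ i = j)) :
    Full (Ins N G D μ) i j := by
  have hai : |i| = i := abs_of_pos hi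
  have haj : |j| = j := abs_of_pos hj
  refine ⟨Or.inl ⟨h.1, ?_⟩, Or.inl ⟨h.2.1, ?_⟩, Or.inl ⟨h.2.2.1, ?_⟩, Or.inl ⟨h.2.2.2, ?_⟩⟩ <;>
    simpa only [abs_neg, hai, haj] using hn

theorem ins_full_new {N : ℕ} {G : ℤ → ℤ → Prop} {D : Finset ℤ} {μ : ℤ → ℤ} {i : ℤ}
    (hi : 0 < i) (hD : i ∈ D) : Full (Ins N G D μ) i (N + 1) := by
  have hai : |i| = i := abs_of_pos hi
  have haN : |((N:ℤ) + 1)| = N + 1 := abs_of_nonneg (by positivity)
  refine ⟨Or.inr (Or.inr ?_), Or.inr (Or.inr ?_), Or.inr (Or.inr ?_), Or.inr (Or.inr ?_)⟩ <;>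
    simp only [abs_neg, hai, haN, hD, and_self]

/-- degrees inside the set do not drop -/
theorem ins_count (N : ℕ) (G : ℤ → ℤ → Prop) (T S : Finset ℤ) (k : ℕ) (D : Finset ℤ) (μ : ℤ → ℤ)
    (hT : T ⊆ Finset.Icc 1 (N:ℤ)) (hST : S ⊆ T) (hM : Mat S (Full G) k D μ) (i : ℤ) (hi : i ∈ T) :
    (T.filter (Full G i)).card ≤
      ((insert ((N:ℤ)+1) T).filter (Full (Ins N G D μ) i)).card := by
  obtain ⟨hDS, hDc, hμ⟩ := hM
  have hT1 : ∀ x ∈ T, 1 ≤ x ∧ x ≤ N := fun x hx => Finset.mem_Icc.1 (hT hx)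
  have hi1 := hT1 i hi
  by_cases hiD : i ∈ D
  · obtain ⟨g1, g2, g3⟩ := hμ i hiD
    have hmT : μ i ∈ T := hST (hDS g1)
    have hsub : insert ((N:ℤ)+1) ((T.filter (Full G i)).erase (μ i)) ⊆
        (insert ((N:ℤ)+1) T).filter (Full (Ins N G D μ) i) := by
      intro x hx
      rw [mem_insert, mem_erase, mem_filter] at hx
      rw [mem_filter, mem_insert]
      rcases hx with rfl | ⟨h1, h2, h3⟩
      · exact ⟨Or.inl rfl, ins_full_new (by omega) hiD⟩
      · have := hT1 x h2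
        exact ⟨Or.inr h2, ins_full_old (by omega) (by omega) h3 (fun h => h1 h.2.symm)⟩
    have c1 := card_le_card hsub
    rw [card_insert_of_notMem, card_erase_of_mem (mem_filter.2 ⟨hmT, g3⟩)] at c1
    · omega
    · rw [mem_erase, mem_filter]
      rintro ⟨-, h, -⟩
      have := hT1 _ h
      omega
  · apply card_le_card
    intro x hx
    rw [mem_filter] at hx
    rw [mem_filter, mem_insert]
    have := hT1 x hx.1
    exact ⟨Or.inr hx.1, ins_full_old (by omega) (by omega) hx.2 (fun h => hiD h.1)⟩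

theorem ins_count_new (N : ℕ) (G : ℤ → ℤ → Prop) (T S : Finset ℤ) (k : ℕ) (D : Finset ℤ)
    (μ : ℤ → ℤ) (hT : T ⊆ Finset.Icc 1 (N:ℤ)) (hST : S ⊆ T) (hM : Mat S (Full G) k D μ)
    (hsym : ∀ u w, Ins N G D μ u w → Ins N G D μ w u) :
    2 * k ≤ ((insert ((N:ℤ)+1) T).filter (Full (Ins N G D μ) ((N:ℤ)+1))).card := by
  obtain ⟨hDS, hDc, hμ⟩ := hM
  rw [← hDc]
  apply card_le_card
  intro x hx
  rw [mem_filter, mem_insert]
  have := Finset.mem_Icc.1 (hT (hST (hDS hx)))
  exact ⟨Or.inr (hST (hDS hx)), full_symm hsym _ _ (ins_full_new (by omega) hx)⟩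

/-- the invariant -/
def Inv (N k k' : ℕ) (G : ℤ → ℤ → Prop) : Prop :=
  ∃ S ⊆ Finset.Icc 1 (N:ℤ), 2 * k ≤ S.card ∧ ∀ i ∈ S, k' ≤ (S.filter (Full G i)).card

def St (N r k k' : ℕ) : Prop := ∃ G, ZG N (fun _ => r) G ∧ Inv N k k' G

theorem icc_insert (N : ℕ) (T : Finset ℤ) (hT : T ⊆ Finset.Icc 1 (N:ℤ)) :
    insert ((N:ℤ)+1) T ⊆ Finset.Icc 1 ((N+1:ℕ):ℤ) := by
  intro x hx
  rw [mem_insert] at hx
  rw [Finset.mem_Icc]
  rcases hx with rfl | hx
  · push_cast; omega
  · have := Finset.mem_Icc.1 (hT hx)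
    push_cast; omega

theorem notMem_T (N : ℕ) (T : Finset ℤ) (hT : T ⊆ Finset.Icc 1 (N:ℤ)) : ((N:ℤ)+1) ∉ T := by
  intro h
  have := Finset.mem_Icc.1 (hT h)
  omega

theorem even_step (N k : ℕ) (h : St N (4 * k) k k) : St (N + 1) (4 * k) k k := by
  obtain ⟨G, hG, S, hS, hSc, hSd⟩ := h
  obtain ⟨D, μ, hM⟩ := mat_exists S (Full G) (full_symm hG.symm) (full_irr hG.irr) k hSd k le_rfl hSc
  have hZ := ins_zg N _ G hG S hS k D μ hM
  refine ⟨Ins N G D μ, ?_, insert ((N:ℤ)+1) S, icc_insert N S hS, ?_, ?_⟩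
  · have e : (fun v : ℤ => if |v| = (N:ℤ) + 1 then 4 * k else 4 * k) = fun _ => 4 * k := by
      funext v; split_ifs <;> rfl
    rw [e] at hZ
    exact hZ
  · rw [card_insert_of_notMem (notMem_T N S hS)]; omega
  · intro i hi
    rw [mem_insert] at hi
    rcases hi with rfl | hi
    · have := ins_count_new N G S S k D μ hS subset_rfl hM hZ.symm
      omega
    · exact (hSd i hi).trans (ins_count N G S S k D μ hS subset_rfl hM i hi)

/-- adding a full pair of edges -/
def AddP (G : ℤ → ℤ → Prop) (p q : ℤ) (u w : ℤ) : Prop :=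
  G u w ∨ (|u| = p ∧ |w| = q) ∨ (|u| = q ∧ |w| = p)

theorem addP_zg (N : ℕ) (d : ℤ → ℕ) (G : ℤ → ℤ → Prop) (hG : ZG N d G) (p q : ℤ) (hp : 0 < p)
    (hq : 0 < q) (hpN : p ≤ N) (hqN : q ≤ N) (hpq : p ≠ q) (hn : ∀ u w, |u| = p → |w| = q → ¬ G u w) :
    ZG N (fun v => if |v| = p ∨ |v| = q then d v + 2 else d v) (AddP G p q) := by
  have key : ∀ v ∈ W N, ∀ a b : ℤ, 0 < b → b ≤ N → |v| = a → a ≠ b →
      (∀ w, AddP G p q v w ↔ G v w ∨ |w| = b) → (∀ w, |w| = b → ¬ G v w) →
      ((W N).filter (AddP G p q v)).card = d v + 2 ∧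
        ∑ w ∈ (W N).filter (AddP G p q v), w = 0 := by
    intro v hv a b hb hbN _ _ hiff hnb
    have e : (W N).filter (AddP G p q v) = (W N).filter (G v) ∪ {b, -b} := by
      ext w
      simp only [mem_filter, mem_union, mem_insert, mem_singleton, hiff]
      constructor
      · rintro ⟨h1, h2 | h2⟩
        · exact Or.inl ⟨h1, h2⟩
        · right; rcases abs_choice w with e | e <;> omega
      · rintro (⟨h1, h2⟩ | h)
        · exact ⟨h1, Or.inl h2⟩
        · have : |w| = b := by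
            rcases h with rfl | rfl
            · exact abs_of_pos hb
            · rw [abs_neg]; exact abs_of_pos hb
          exact ⟨by rw [mem_W]; omega, Or.inr this⟩
    have hdis : Disjoint ((W N).filter (G v)) ({b, -b} : Finset ℤ) := by
      rw [disjoint_left]
      intro x hx hx2
      simp only [mem_insert, mem_singleton] at hx2
      refine hnb x ?_ (mem_filter.1 hx).2
      rcases hx2 with rfl | rfl
      · exact abs_of_pos hb
      · rw [abs_neg]; exact abs_of_pos hb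
    rw [e]
    exact ⟨by rw [card_union_of_disjoint hdis, hG.deg v hv, (pair_cs b hb.ne').1],
      by rw [sum_union hdis, hG.sum v hv, (pair_cs b hb.ne').2, add_zero]⟩
  have hcase : ∀ v ∈ W N, ((W N).filter (AddP G p q v)).card =
      (if |v| = p ∨ |v| = q then d v + 2 else d v) ∧
        ∑ w ∈ (W N).filter (AddP G p q v), w = 0 := by
    intro v hv
    by_cases h1 : |v| = p
    · rw [if_pos (Or.inl h1)]
      refine key v hv p q hq hqN h1 hpq (fun w => ?_) (fun w hw => hn v w h1 hw)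
      simp only [AddP, h1, true_and]
      constructor
      · rintro (h | h | h)
        · exact Or.inl h
        · exact Or.inr h
        · exact absurd h.1 hpq
      · rintro (h | h)
        · exact Or.inl h
        · exact Or.inr (Or.inl h)
    · by_cases h2 : |v| = q
      · rw [if_pos (Or.inr h2)]
        refine key v hv q p hp hpN h2 (Ne.symm hpq) (fun w => ?_)
          (fun w hw h => hn w v hw h2 (hG.symm _ _ h))
        simp only [AddP, h2, true_and]
        constructor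
        · rintro (h | h | h)
          · exact Or.inl h
          · exact absurd h.1 hpq.symm
          · exact Or.inr h
        · rintro (h | h)
          · exact Or.inl h
          · exact Or.inr (Or.inr h)
      · rw [if_neg (by tauto)]
        have e : (W N).filter (AddP G p q v) = (W N).filter (G v) := by
          ext w
          simp only [mem_filter, AddP, h1, h2, false_and, or_false]
        rw [e]
        exact ⟨hG.deg v hv, hG.sum v hv⟩
  refine ⟨?_, ?_, ?_, fun v hv => (hcase v hv).1, fun v hv => (hcase v hv).2⟩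
  · rintro u w (h | ⟨h1, h2⟩ | ⟨h1, h2⟩)
    · exact Or.inl (hG.symm _ _ h)
    · exact Or.inr (Or.inr ⟨h2, h1⟩)
    · exact Or.inr (Or.inl ⟨h2, h1⟩)
  · rintro u (h | ⟨h1, h2⟩ | ⟨h1, h2⟩)
    · exact hG.irr _ h
    · omega
    · omega
  · rintro u w (h | ⟨h1, h2⟩ | ⟨h1, h2⟩)
    · exact hG.supp _ _ h
    · rw [mem_W]; omega
    · rw [mem_W]; omega

theorem odd_step (N k : ℕ) (hk : 1 ≤ k) (h : St N (4 * k + 2) k (k + 1)) :
    St (N + 2) (4 * k + 2) k (k + 1) := by
  obtain ⟨G, hG, S, hS, hSc, hSd⟩ := h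
  obtain ⟨D, μ, hM⟩ := mat_exists S (Full G) (full_symm hG.symm) (full_irr hG.irr) k
    (fun i hi => (Nat.le_succ k).trans (hSd i hi)) k le_rfl hSc
  have hZ := ins_zg N _ G hG S hS k D μ hM
  set G1 := Ins N G D μ with hG1
  set T := insert ((N:ℤ)+1) S with hT
  have hTI : T ⊆ Finset.Icc 1 ((N+1:ℕ):ℤ) := icc_insert N S hS
  have hST : S ⊆ T := subset_insert _ _
  have hSI : S ⊆ Finset.Icc 1 ((N+1:ℕ):ℤ) := hST.trans hTI
  have hTd : ∀ i ∈ T, k + 1 ≤ (T.filter (Full G1 i)).card := by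
    intro i hi
    rw [hT, mem_insert] at hi
    rcases hi with rfl | hi
    · exact le_trans (by omega) (ins_count_new N G S S k D μ hS subset_rfl hM hZ.symm)
    · exact (hSd i hi).trans (ins_count N G S S k D μ hS subset_rfl hM i hi)
  have hSd1 : ∀ i ∈ S, k ≤ (S.filter (Full G1 i)).card := by
    intro i hi
    have h1 := hTd i (hST hi)
    have h2 : T.filter (Full G1 i) ⊆ insert ((N:ℤ)+1) (S.filter (Full G1 i)) := by
      intro x hx
      rw [mem_filter, hT, mem_insert] at hx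
      rw [mem_insert, mem_filter]
      rcases hx.1 with h | h
      · exact Or.inl h
      · exact Or.inr ⟨h, hx.2⟩
    have h3 := card_le_card h2
    have h4 := card_insert_le ((N:ℤ)+1) (S.filter (Full G1 i))
    omega
  obtain ⟨D2, μ2, hM2⟩ := mat_exists S (Full G1) (full_symm hZ.symm) (full_irr hZ.irr) k
    hSd1 k le_rfl hSc
  have hZ2 := ins_zg (N+1) _ G1 hZ S hSI k D2 μ2 hM2
  set G2 := Ins (N+1) G1 D2 μ2 with hG2
  have hND : ((N:ℤ)+1) ∉ D2 := fun h => notMem_T N S hS (hM2.1 h)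
  have hno : ∀ u w, |u| = (N:ℤ)+1 → |w| = (N:ℤ)+1+1 → ¬ G2 u w := by
    rintro u w hu hw (⟨h1, -⟩ | ⟨h1, -⟩ | ⟨-, h2⟩)
    · have := mem_W.1 (hZ.supp _ _ (hZ.symm _ _ h1))
      push_cast at this; omega
    · push_cast at h1; omega
    · rw [hu] at h2; exact hND h2
  have hZ3 := addP_zg (N+1+1) _ G2 hZ2 ((N:ℤ)+1) ((N:ℤ)+1+1) (by omega) (by omega)
    (by push_cast; omega) (by push_cast; omega) (by omega) hno
  refine ⟨AddP G2 ((N:ℤ)+1) ((N:ℤ)+1+1), ?_, insert (((N+1:ℕ):ℤ)+1) T, icc_insert (N+1) T hTI, ?_, ?_⟩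
  · have e : (fun v : ℤ => if |v| = (N:ℤ)+1 ∨ |v| = (N:ℤ)+1+1 then
        (if |v| = ((N+1:ℕ):ℤ) + 1 then 4 * k else if |v| = (N:ℤ) + 1 then 4 * k else 4 * k + 2) + 2
        else (if |v| = ((N+1:ℕ):ℤ) + 1 then 4 * k else if |v| = (N:ℤ) + 1 then 4 * k else 4 * k + 2))
        = fun _ => 4 * k + 2 := by
      funext v
      push_cast
      by_cases h1 : |v| = (N:ℤ)+1
      · have : |v| ≠ (N:ℤ)+1+1 := by omega
        simp [h1]
      · by_cases h2 : |v| = (N:ℤ)+1+1
        · simp [h2]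
        · simp [h1, h2]
    have := hZ3
    simp only [e] at this
    exact this
  · rw [card_insert_of_notMem (notMem_T (N+1) T hTI), hT, card_insert_of_notMem (notMem_T N S hS)]
    omega
  · intro i hi
    have hmono : ∀ X : Finset ℤ, X.filter (Full G2 i) ⊆
        X.filter (Full (AddP G2 ((N:ℤ)+1) ((N:ℤ)+1+1)) i) := by
      intro X x hx
      rw [mem_filter] at hx ⊢
      exact ⟨hx.1, Or.inl hx.2.1, Or.inl hx.2.2.1, Or.inl hx.2.2.2.1, Or.inl hx.2.2.2.2⟩
    refine le_trans ?_ (card_le_card (hmono _))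
    rw [mem_insert] at hi
    rcases hi with rfl | hi
    · exact le_trans (by omega) (ins_count_new (N+1) G1 T S k D2 μ2 hTI hST hM2 hZ2.symm)
    · exact (hTd i hi).trans (ins_count (N+1) G1 T S k D2 μ2 hTI hST hM2 i hi)

end Pool.Agent.R12.DM
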