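import Pool.Agent.R12.DM2

set_option autoImplicit false

open Finset
open scoped Classical

namespace Pool.Agent.R12.DM

/-- the complement: an `s`-regular graph with all closed neighbour sums zero, symmetric under `-1` -/
structure HG (N s : ℕ) (H : ℤ → ℤ → Prop) : Prop where
  symm : ∀ u w, H u w → H w u
  irr : ∀ u, ¬ H u u
  deg : ∀ v ∈ W N, ((W N).filter (H v)).card = s
  sum : ∀ v ∈ W N, v + ∑ w ∈ (W N).filter (H v), w = 0
  neg : ∀ u w, H u w → H (-u) (-w)

def Co (N : ℕ) (H : ℤ → ℤ → Prop) (u w : ℤ) : Prop := u ∈ W N ∧ w ∈ W N ∧ u ≠ w ∧ ¬ H u w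

theorem card_W (N : ℕ) : (W N).card = 2 * N + 1 := by
  rw [W, Int.card_Icc]; omega

theorem sum_W (N : ℕ) : ∑ w ∈ W N, w = 0 := by
  have h : ∑ w ∈ W N, w = ∑ w ∈ W N, -w := by
    refine Finset.sum_nbij' (fun x => -x) (fun x => -x) ?_ ?_ ?_ ?_ ?_ <;>
      simp [mem_W, abs_neg]
  rw [Finset.sum_neg_distrib] at h
  omega

theorem co_zg (N s : ℕ) (H : ℤ → ℤ → Prop) (hH : HG N s H) :
    ZG N (fun _ => 2 * N - s) (Co N H) := by
  have key : ∀ v ∈ W N, (W N).filter (Co N H v) = W N \ (insert v ((W N).filter (H v))) := by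
    intro v hv
    ext w
    simp only [mem_filter, Co, mem_sdiff, mem_insert, hv, true_and]
    constructor
    · rintro ⟨h1, -, h3, h4⟩
      exact ⟨h1, by rintro (h | h); exacts [h3 h.symm, h4 h.2]⟩
    · rintro ⟨h1, h2⟩
      exact ⟨h1, h1, fun h => h2 (Or.inl h.symm), fun h => h2 (Or.inr ⟨h1, h⟩)⟩
  have hsub : ∀ v ∈ W N, insert v ((W N).filter (H v)) ⊆ W N := by
    intro v hv x hx
    rw [mem_insert, mem_filter] at hx
    rcases hx with rfl | hx
    · exact hv
    · exact hx.1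
  have hni : ∀ v, v ∉ (W N).filter (H v) := fun v h => hH.irr v (mem_filter.1 h).2
  refine ⟨?_, ?_, ?_, ?_, ?_⟩
  · rintro u w ⟨h1, h2, h3, h4⟩
    exact ⟨h2, h1, h3.symm, fun h => h4 (hH.symm _ _ h)⟩
  · rintro u ⟨-, -, h, -⟩
    exact h rfl
  · exact fun u w h => h.1
  · intro v hv
    rw [key v hv, card_sdiff_of_subset (hsub v hv), card_insert_of_notMem (hni v), hH.deg v hv, card_W]
    omega
  · intro v hv
    rw [key v hv]
    have h1 := sum_sdiff (hsub v hv) (f := fun w : ℤ => w)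
    rw [sum_insert (hni v), hH.sum v hv, sum_W, add_zero] at h1
    exact h1

theorem co_inv (N s : ℕ) (H : ℤ → ℤ → Prop) (hH : HG N s H) (k k' : ℕ) (h1 : 2 * k ≤ N)
    (h2 : k' + 1 + s ≤ N) : Inv N k k' (Co N H) := by
  refine ⟨Finset.Icc 1 (N:ℤ), subset_rfl, ?_, ?_⟩
  · rw [Int.card_Icc]; omega
  · intro i hi
    rw [Finset.mem_Icc] at hi
    have hiW : i ∈ W N := by rw [mem_W, abs_of_pos (by omega)]; omega
    have hcov : Finset.Icc 1 (N:ℤ) ⊆ (Finset.Icc 1 (N:ℤ)).filter (Full (Co N H) i) ∪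
        insert i (((W N).filter (H i)).image (fun w => |w|)) := by
      intro j hj
      rw [mem_union, mem_filter, mem_insert, mem_image]
      by_cases hij : j = i
      · exact Or.inr (Or.inl hij)
      by_cases hh : H i j ∨ H i (-j)
      · right; right
        rw [Finset.mem_Icc] at hj
        rcases hh with h | h
        · exact ⟨j, mem_filter.2 ⟨by rw [mem_W, abs_of_pos (by omega)]; omega, h⟩,
            abs_of_pos (by omega)⟩
        · exact ⟨-j, mem_filter.2 ⟨by rw [mem_W, abs_neg, abs_of_pos (by omega)]; omega, h⟩,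
            by rw [abs_neg]; exact abs_of_pos (by omega)⟩
      · left
        refine ⟨hj, ?_⟩
        rw [Finset.mem_Icc] at hj
        push Not at hh
        have hjW : j ∈ W N := by rw [mem_W, abs_of_pos (by omega)]; omega
        have hiW' : -i ∈ W N := by rw [mem_W, abs_neg, abs_of_pos (by omega)]; omega
        have hjW' : -j ∈ W N := by rw [mem_W, abs_neg, abs_of_pos (by omega)]; omega
        refine ⟨⟨hiW, hjW, by omega, hh.1⟩, ⟨hiW, hjW', by omega, hh.2⟩,
          ⟨hiW', hjW, by omega, fun h => hh.2 ?_⟩, ⟨hiW', hjW', by omega, fun h => hh.1 ?_⟩⟩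
        · have := hH.neg _ _ h; rwa [neg_neg] at this
        · have := hH.neg _ _ h; rwa [neg_neg, neg_neg] at this
    have c1 := card_le_card hcov
    have c2 := card_union_le ((Finset.Icc 1 (N:ℤ)).filter (Full (Co N H) i))
      (insert i (((W N).filter (H i)).image (fun w => |w|)))
    have c3 := card_insert_le i (((W N).filter (H i)).image (fun w => |w|))
    have c4 : (((W N).filter (H i)).image (fun w => |w|)).card ≤ s := by
      rw [← hH.deg i hiW]; exact card_image_le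
    rw [Int.card_Icc] at c1
    omega

theorem co_st (N s : ℕ) (H : ℤ → ℤ → Prop) (hH : HG N s H) (r k k' : ℕ) (hr : r = 2 * N - s)
    (h1 : 2 * k ≤ N) (h2 : k' + 1 + s ≤ N) : St N r k k' := by
  subst hr
  exact ⟨Co N H, co_zg N s H hH, co_inv N s H hH k k' h1 h2⟩

/-! ### the family: cliques on zero-sum sets and lifts -/

/-- pairs: triples, quintuples and free pairs -/
abbrev PP (g f b : ℕ) := (Fin g × Fin 3) ⊕ (Fin f × Fin 5) ⊕ Fin b

abbrev VV (g f b : ℕ) := Option (PP g f b × Bool)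

def K {g f b : ℕ} (Q3 : Fin g → Fin g → Prop) (Q5 : Fin f → Fin f → Prop) :
    VV g f b → VV g f b → Prop
  | none, some (Sum.inr (Sum.inr _), _) => True
  | some (Sum.inr (Sum.inr _), _), none => True
  | some (Sum.inr (Sum.inr c), s), some (Sum.inr (Sum.inr c'), s') => (c, s) ≠ (c', s')
  | some (Sum.inl (i, p), s), some (Sum.inl (i', p'), s') =>
      (i = i' ∧ p ≠ p' ∧ s = s') ∨ (Q3 i i' ∧ p = p')
  | some (Sum.inr (Sum.inl (i, p)), s), some (Sum.inr (Sum.inl (i', p')), s') =>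
      (i = i' ∧ p ≠ p' ∧ s = s') ∨ (Q5 i i' ∧ p = p')
  | _, _ => False

def lab {g f b : ℕ} (l sg : PP g f b → ℤ) : VV g f b → ℤ
  | none => 0
  | some (p, s) => (if s then 1 else -1) * (sg p * l p)

/-- indicator -/
noncomputable def ind (P : Prop) (a : ℤ) : ℤ := if P then a else 0

theorem ind_t (a : ℤ) : ind True a = a := by simp [ind]

theorem ind_f (a : ℤ) : ind False a = 0 := by simp [ind]

theorem ind_of {P : Prop} (h : P) (a : ℤ) : ind P a = a := by simp [ind, h]

theorem ind_not {P : Prop} (h : ¬ P) (a : ℤ) : ind P a = 0 := by simp [ind, h]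

theorem ind_zero (P : Prop) : ind P 0 = 0 := by simp [ind]

theorem sum_ind_eq {α : Type*} [Fintype α] (a : α) (F : α → ℤ) : ∑ x, ind (a = x) (F x) = F a := by
  simp [ind]

theorem sum_ind_two {n : ℕ} (Q : Fin n → Prop) :
    ∑ i', ind (Q i') (1 + 1) = 2 * ((Finset.univ.filter Q).card : ℤ) := by
  have h : ∀ i', ind (Q i') (1 + 1) = 2 * (if Q i' then 1 else 0) := by
    intro i'
    by_cases e : Q i' <;> simp [ind, e]
  rw [Finset.sum_congr rfl fun i' _ => h i', ← Finset.mul_sum, Finset.sum_boole]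

theorem block_sum {n m : ℕ} (Q : Fin n → Fin n → Prop) (hQ : ∀ i, ¬ Q i i) (i : Fin n) (p : Fin m)
    (s : Bool) (F : Fin n → Fin m → Bool → ℤ) :
    ∑ i', ∑ p', ∑ s', ind ((i = i' ∧ p ≠ p' ∧ s = s') ∨ (Q i i' ∧ p = p')) (F i' p' s') =
      (∑ p', F i p' s - F i p s) + ∑ i', ind (Q i i') (F i' p true + F i' p false) := by
  have h1 : ∀ i' p' s', ind ((i = i' ∧ p ≠ p' ∧ s = s') ∨ (Q i i' ∧ p = p')) (F i' p' s') =
      ind (i = i') (ind (s = s') (F i' p' s') - ind (p = p') (ind (s = s') (F i' p' s'))) +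
      ind (Q i i') (ind (p = p') (F i' p' s')) := by
    intro i' p' s'
    by_cases e1 : i = i'
    · subst e1
      by_cases e2 : p = p' <;> by_cases e3 : s = s' <;> simp [ind, e2, e3, hQ]
    · by_cases e2 : Q i i' <;> by_cases e3 : p = p' <;> simp [ind, e1, e2, e3]
  have hA : ∀ i', ∑ p', ∑ s', ind (i = i') (ind (s = s') (F i' p' s') -
      ind (p = p') (ind (s = s') (F i' p' s'))) = ind (i = i') (∑ p', F i' p' s - F i' p s) := by
    intro i'
    by_cases e : i = i'
    · simp only [ind_of e, Finset.sum_sub_distrib, sum_ind_eq]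
      congr 1
      have : ∀ p', ∑ s', ind (p = p') (ind (s = s') (F i' p' s')) = ind (p = p') (F i' p' s) := by
        intro p'
        by_cases e2 : p = p'
        · simp only [ind_of e2, sum_ind_eq]
        · simp only [ind_not e2, Finset.sum_const_zero]
      simp only [this, sum_ind_eq]
    · simp only [ind_not e, Finset.sum_const_zero]
  have hB : ∀ i', ∑ p', ∑ s', ind (Q i i') (ind (p = p') (F i' p' s')) =
      ind (Q i i') (F i' p true + F i' p false) := by
    intro i'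
    by_cases e : Q i i'
    · simp only [ind_of e]
      rw [Finset.sum_comm]
      simp only [sum_ind_eq, Fintype.sum_bool]
    · simp only [ind_not e, Finset.sum_const_zero]
  simp only [h1, Finset.sum_add_distrib, hA, hB, sum_ind_eq]

/-- weighted neighbour sums -/
noncomputable def KS {g f b : ℕ} (Q3 : Fin g → Fin g → Prop) (Q5 : Fin f → Fin f → Prop)
    (F : VV g f b → ℤ) : VV g f b → ℤ
  | none => ∑ c : Fin b, (F (some (Sum.inr (Sum.inr c), true)) + F (some (Sum.inr (Sum.inr c), false)))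
  | some (Sum.inr (Sum.inr c), s) => F none + (∑ c' : Fin b, (F (some (Sum.inr (Sum.inr c'), true))
      + F (some (Sum.inr (Sum.inr c'), false))) - F (some (Sum.inr (Sum.inr c), s)))
  | some (Sum.inl (i, p), s) => (∑ p', F (some (Sum.inl (i, p'), s)) - F (some (Sum.inl (i, p), s)))
      + ∑ i', ind (Q3 i i') (F (some (Sum.inl (i', p), true)) + F (some (Sum.inl (i', p), false)))
  | some (Sum.inr (Sum.inl (i, p)), s) => (∑ p', F (some (Sum.inr (Sum.inl (i, p')), s))
        - F (some (Sum.inr (Sum.inl (i, p)), s)))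
      + ∑ i', ind (Q5 i i') (F (some (Sum.inr (Sum.inl (i', p)), true))
        + F (some (Sum.inr (Sum.inl (i', p)), false)))

theorem K_sum {g f b : ℕ} (Q3 : Fin g → Fin g → Prop) (Q5 : Fin f → Fin f → Prop)
    (h3 : ∀ i, ¬ Q3 i i) (h5 : ∀ i, ¬ Q5 i i) (F : VV g f b → ℤ) (x : VV g f b) :
    (∑ y, ind (K Q3 Q5 x y) (F y)) = KS Q3 Q5 F x := by
  rcases x with _ | ⟨(⟨i, p⟩ | ⟨i, p⟩ | c), s⟩
  · simp only [Fintype.sum_option, Fintype.sum_prod_type, Fintype.sum_sum_type, K, KS, ind_f, ind_t,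
      Finset.sum_const_zero, zero_add, Fintype.sum_bool]
  · simp only [Fintype.sum_option, Fintype.sum_prod_type, Fintype.sum_sum_type, K, KS, ind_f,
      Finset.sum_const_zero, zero_add, add_zero]
    exact block_sum Q3 h3 i p s (fun i' p' s' => F (some (Sum.inl (i', p'), s')))
  · simp only [Fintype.sum_option, Fintype.sum_prod_type, Fintype.sum_sum_type, K, KS, ind_f,
      Finset.sum_const_zero, zero_add, add_zero]
    exact block_sum Q5 h5 i p s (fun i' p' s' => F (some (Sum.inr (Sum.inl (i', p')), s')))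
  · simp only [Fintype.sum_option, Fintype.sum_prod_type, Fintype.sum_sum_type, K, KS, ind_f, ind_t,
      Finset.sum_const_zero, zero_add, add_zero]
    have h1 : ∀ c' s', ind ((c, s) ≠ (c', s')) (F (some (Sum.inr (Sum.inr c'), s'))) =
        F (some (Sum.inr (Sum.inr c'), s')) -
          ind (c = c') (ind (s = s') (F (some (Sum.inr (Sum.inr c'), s')))) := by
      intro c' s'
      by_cases e1 : c = c' <;> by_cases e2 : s = s' <;> simp [ind, e1, e2]
    have h2 : ∀ c', ∑ s', ind (c = c') (ind (s = s') (F (some (Sum.inr (Sum.inr c'), s')))) =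
        ind (c = c') (F (some (Sum.inr (Sum.inr c'), s))) := by
      intro c'
      by_cases e : c = c'
      · simp only [ind_of e, sum_ind_eq]
      · simp only [ind_not e, Finset.sum_const_zero]
    simp only [h1, Finset.sum_sub_distrib, h2, sum_ind_eq, Fintype.sum_bool]

theorem K_symm {g f b : ℕ} (Q3 : Fin g → Fin g → Prop) (Q5 : Fin f → Fin f → Prop)
    (h3 : ∀ i j, Q3 i j → Q3 j i) (h5 : ∀ i j, Q5 i j → Q5 j i) :
    ∀ x y : VV g f b, K Q3 Q5 x y → K Q3 Q5 y x := by
  rintro (_ | ⟨(⟨i, p⟩ | ⟨i, p⟩ | c), s⟩) (_ | ⟨(⟨i', p'⟩ | ⟨i', p'⟩ | c'), s'⟩) h <;>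
    simp only [K] at h ⊢
  · rcases h with ⟨h1, h2, h4⟩ | ⟨h1, h2⟩
    · exact Or.inl ⟨h1.symm, h2.symm, h4.symm⟩
    · exact Or.inr ⟨h3 _ _ h1, h2.symm⟩
  · rcases h with ⟨h1, h2, h4⟩ | ⟨h1, h2⟩
    · exact Or.inl ⟨h1.symm, h2.symm, h4.symm⟩
    · exact Or.inr ⟨h5 _ _ h1, h2.symm⟩
  · exact fun e => h e.symm

theorem K_irr {g f b : ℕ} (Q3 : Fin g → Fin g → Prop) (Q5 : Fin f → Fin f → Prop)
    (h3 : ∀ i, ¬ Q3 i i) (h5 : ∀ i, ¬ Q5 i i) :
    ∀ x : VV g f b, ¬ K Q3 Q5 x x := by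
  rintro (_ | ⟨(⟨i, p⟩ | ⟨i, p⟩ | c), s⟩) <;> simp [K, h3, h5]

def flip {g f b : ℕ} : VV g f b → VV g f b
  | none => none
  | some (p, s) => some (p, !s)

theorem K_flip {g f b : ℕ} (Q3 : Fin g → Fin g → Prop) (Q5 : Fin f → Fin f → Prop) :
    ∀ x y : VV g f b, K Q3 Q5 x y → K Q3 Q5 (flip x) (flip y) := by
  rintro (_ | ⟨(⟨i, p⟩ | ⟨i, p⟩ | c), s⟩) (_ | ⟨(⟨i', p'⟩ | ⟨i', p'⟩ | c'), s'⟩) h <;>
    simp only [K, flip] at h ⊢
  · rcases h with ⟨h1, h2, h4⟩ | ⟨h1, h2⟩
    · exact Or.inl ⟨h1, h2, by rw [h4]⟩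
    · exact Or.inr ⟨h1, h2⟩
  · rcases h with ⟨h1, h2, h4⟩ | ⟨h1, h2⟩
    · exact Or.inl ⟨h1, h2, by rw [h4]⟩
    · exact Or.inr ⟨h1, h2⟩
  · intro e
    apply h
    simp only [Prod.mk.injEq] at e ⊢
    refine ⟨e.1, ?_⟩
    have := e.2
    cases s <;> cases s' <;> simp_all

theorem lab_flip {g f b : ℕ} (l sg : PP g f b → ℤ) (x : VV g f b) :
    lab l sg (flip x) = - lab l sg x := by
  rcases x with _ | ⟨p, s⟩
  · simp [lab, flip]
  · cases s <;> simp [lab, flip]

theorem fam_hg (g f b N s : ℕ) (Q3 : Fin g → Fin g → Prop) (Q5 : Fin f → Fin f → Prop)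
    (h3s : ∀ i j, Q3 i j → Q3 j i) (h5s : ∀ i j, Q5 i j → Q5 j i)
    (h3 : ∀ i, ¬ Q3 i i) (h5 : ∀ i, ¬ Q5 i i)
    (h3d : ∀ i, 2 + 2 * (Finset.univ.filter (Q3 i)).card = s)
    (h5d : ∀ i, 4 + 2 * (Finset.univ.filter (Q5 i)).card = s)
    (hb : 2 * b = s) (hN : 3 * g + 5 * f + b = N)
    (l sg : PP g f b → ℤ) (hl : Function.Injective l) (hl1 : ∀ p, 1 ≤ l p ∧ l p ≤ N)
    (hsg : ∀ p, sg p = 1 ∨ sg p = -1)
    (z3 : ∀ i, ∑ p, sg (Sum.inl (i, p)) * l (Sum.inl (i, p)) = 0)
    (z5 : ∀ i, ∑ p, sg (Sum.inr (Sum.inl (i, p))) * l (Sum.inr (Sum.inl (i, p))) = 0) :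
    ∃ H, HG N s H := by
  have habs : ∀ p s, |lab l sg (some (p, s))| = l p := by
    intro p s
    simp only [lab]
    rw [abs_mul, abs_mul]
    have h1 : |(if s then (1:ℤ) else -1)| = 1 := by cases s <;> simp
    have h2 : |sg p| = 1 := by rcases hsg p with h | h <;> simp [h]
    rw [h1, h2, abs_of_pos (by have := (hl1 p).1; omega)]
    ring
  have hinj : Function.Injective (lab l sg) := by
    rintro (_ | ⟨p, s⟩) (_ | ⟨p', s'⟩) h
    · rfl
    · have := habs p' s'
      rw [← h] at this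
      simp only [lab, abs_zero] at this
      have := (hl1 p').1
      omega
    · have := habs p s
      rw [h] at this
      simp only [lab, abs_zero] at this
      have := (hl1 p).1
      omega
    · have e1 : p = p' := hl (by rw [← habs p s, ← habs p' s', h])
      subst e1
      by_cases e2 : s = s'
      · rw [e2]
      · exfalso
        have h0 : sg p * l p ≠ 0 := by
          have := (hl1 p).1
          rcases hsg p with h | h <;> rw [h] <;> omega
        simp only [lab] at h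
        cases s <;> cases s' <;> simp at e2 h <;> omega
  have himg : Finset.univ.image (lab l sg) = W N := by
    refine Finset.eq_of_subset_of_card_le ?_ ?_
    · intro x hx
      rw [mem_image] at hx
      obtain ⟨v, -, rfl⟩ := hx
      rw [mem_W]
      rcases v with _ | ⟨p, s⟩
      · simp [lab]
      · rw [habs]; exact (hl1 p).2
    · rw [Finset.card_image_of_injective _ hinj, card_W, Finset.card_univ]
      simp only [Fintype.card_option, Fintype.card_prod, Fintype.card_sum, Fintype.card_fin,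
        Fintype.card_bool]
      omega
  have hsurj : ∀ v ∈ W N, ∃ x, lab l sg x = v := by
    intro v hv
    rw [← himg, mem_image] at hv
    obtain ⟨x, -, hx⟩ := hv
    exact ⟨x, hx⟩
  obtain ⟨H, hHd⟩ : ∃ H : ℤ → ℤ → Prop, ∀ u w, H u w ↔
      ∃ x y, lab l sg x = u ∧ lab l sg y = w ∧ K Q3 Q5 x y := ⟨_, fun _ _ => Iff.rfl⟩
  have hfil : ∀ x, (W N).filter (H (lab l sg x)) =
      (Finset.univ.filter (K Q3 Q5 x)).image (lab l sg) := by
    intro x
    ext w
    simp only [mem_filter, mem_image, mem_univ, true_and, hHd]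
    constructor
    · rintro ⟨-, x', y, h1, h2, h4⟩
      have := hinj h1
      subst this
      exact ⟨y, h4, h2⟩
    · rintro ⟨y, h1, rfl⟩
      refine ⟨?_, x, y, rfl, rfl, h1⟩
      rw [← himg]
      exact mem_image_of_mem _ (mem_univ _)
  have hsumF : ∀ (x : VV g f b) (F : VV g f b → ℤ),
      ∑ y ∈ Finset.univ.filter (K Q3 Q5 x), F y = ∑ y, ind (K Q3 Q5 x y) (F y) := by
    intro x F
    rw [Finset.sum_filter]; rfl
  have hlz : ∀ p, lab l sg (some (p, true)) + lab l sg (some (p, false)) = 0 := by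
    intro p; simp [lab]
  refine ⟨H, ?_, ?_, ?_, ?_, ?_⟩
  · intro u w h
    obtain ⟨x, y, h1, h2, h4⟩ := (hHd u w).1 h
    exact (hHd w u).2 ⟨y, x, h2, h1, K_symm Q3 Q5 h3s h5s _ _ h4⟩
  · intro u h
    obtain ⟨x, y, h1, h2, h4⟩ := (hHd u u).1 h
    have := hinj (h1.trans h2.symm)
    subst this
    exact K_irr Q3 Q5 h3 h5 _ h4
  · intro v hv
    obtain ⟨x, rfl⟩ := hsurj v hv
    rw [hfil, Finset.card_image_of_injective _ hinj]
    have h0 : ((Finset.univ.filter (K Q3 Q5 x)).card : ℤ) = ∑ y, ind (K Q3 Q5 x y) 1 := by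
      rw [← hsumF x (fun _ => 1)]; simp
    have h1 := K_sum Q3 Q5 h3 h5 (fun _ => (1:ℤ)) x
    rw [← h0] at h1
    rcases x with _ | ⟨(⟨i, p⟩ | ⟨i, p⟩ | c), t⟩
    · simp [KS] at h1
      omega
    · have h4 := h3d i
      simp only [KS, sum_ind_two, Finset.sum_const, Finset.card_univ, Fintype.card_fin, nsmul_eq_mul,
        mul_one] at h1
      push_cast at h1
      omega
    · have h4 := h5d i
      simp only [KS, sum_ind_two, Finset.sum_const, Finset.card_univ, Fintype.card_fin, nsmul_eq_mul,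
        mul_one] at h1
      push_cast at h1
      omega
    · simp [KS] at h1
      omega
  · intro v hv
    obtain ⟨x, rfl⟩ := hsurj v hv
    rw [hfil, Finset.sum_image (fun a _ c _ h => hinj h), hsumF, K_sum Q3 Q5 h3 h5]
    rcases x with _ | ⟨(⟨i, p⟩ | ⟨i, p⟩ | c), t⟩
    · simp only [KS, hlz, Finset.sum_const_zero, add_zero]
      simp [lab]
    · simp only [KS, hlz, ind_zero, Finset.sum_const_zero, add_zero]
      have : ∑ p', lab l sg (some (Sum.inl (i, p'), t)) = 0 := by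
        simp only [lab]
        rw [← Finset.mul_sum, z3, mul_zero]
      rw [this]; ring
    · simp only [KS, hlz, ind_zero, Finset.sum_const_zero, add_zero]
      have : ∑ p', lab l sg (some (Sum.inr (Sum.inl (i, p')), t)) = 0 := by
        simp only [lab]
        rw [← Finset.mul_sum, z5, mul_zero]
      rw [this]; ring
    · simp only [KS, hlz, Finset.sum_const_zero]
      simp [lab]
  · intro u w h
    obtain ⟨x, y, rfl, rfl, h4⟩ := (hHd u w).1 h
    exact (hHd _ _).2 ⟨flip x, flip y, lab_flip _ _ _, lab_flip _ _ _, K_flip Q3 Q5 _ _ h4⟩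

end Pool.Agent.R12.DM
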