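import Mathlib

set_option autoImplicit false

open Finset
open scoped Classical

namespace Pool.Agent.R12.DM

/-- a (hooked if `e = 1`) Skolem sequence of order `t` -/
def SkOK (t e : ℤ) (X : ℤ → ℤ) : Prop :=
  ∀ k, 1 ≤ k → k ≤ t → 1 ≤ X k ∧ X k + k ≤ 2 * t + e ∧ (e = 1 → X k ≠ 2 * t ∧ X k + k ≠ 2 * t) ∧
    ∀ k', 1 ≤ k' → k' ≤ t → (X k = X k' → k = k') ∧ (X k + k = X k' + k' → k = k') ∧
      X k ≠ X k' + k'

def sk0 (s k : ℤ) : ℤ :=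
  if k % 2 = 0 then 6 * s - k / 2 else if k = 1 then s else if k = 2 * s + 1 then s - 1
  else if k = 2 * s - 1 then 2 * s else if k = 4 * s - 1 then 2 * s + 1
  else if 2 * s + 1 < k then (4 * s - 1 - k) / 2 else (4 * s + 1 - k) / 2

def sk1 (s k : ℤ) : ℤ :=
  if k % 2 = 0 then 6 * s + 2 - k / 2 else if k = 1 then s + 1 else if k = 4 * s + 1 then 2 * s + 1
  else if k = 2 * s - 1 then 2 * s + 2
  else if 2 * s + 1 ≤ k then (4 * s + 1 - k) / 2 else (4 * s + 3 - k) / 2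

def sk2 (s k : ℤ) : ℤ :=
  if k = 4 * s + 2 then 4 * s + 3 else if k % 2 = 0 then 2 * s + 1 - k / 2
  else if k = 1 then 7 * s + 3 else if k = 4 * s + 1 then 2 * s + 1
  else if k = 2 * s + 1 then 4 * s + 2
  else if 2 * s + 1 < k then 4 * s + 3 + (4 * s + 1 - k) / 2 else 5 * s + 2 + (2 * s + 1 - k) / 2

def sk3 (s k : ℤ) : ℤ :=
  if k = 4 * s - 2 then 2 * s + 1 else if k % 2 = 0 then 6 * s - 1 - k / 2
  else if k = 1 then s else if k = 2 * s + 1 then s - 1 else if k = 2 * s - 1 then 2 * s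
  else if k = 4 * s - 1 then 4 * s
  else if 2 * s + 1 < k then (4 * s - 1 - k) / 2 else s + 1 + (2 * s - 1 - k) / 2

theorem sk0_ok (s : ℤ) (hs : 2 ≤ s) : SkOK (4 * s) 0 (sk0 s) := by
  intro k h1 h2
  refine ⟨?_, ?_, by norm_num, fun k' h3 h4 => ⟨?_, ?_, ?_⟩⟩ <;> unfold sk0 <;> split_ifs <;> omega

theorem sk1_ok (s : ℤ) (hs : 2 ≤ s) : SkOK (4 * s + 1) 0 (sk1 s) := by
  intro k h1 h2
  refine ⟨?_, ?_, by norm_num, fun k' h3 h4 => ⟨?_, ?_, ?_⟩⟩ <;> unfold sk1 <;> split_ifs <;> omega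

theorem sk2_ok (s : ℤ) (hs : 1 ≤ s) : SkOK (4 * s + 2) 1 (sk2 s) := by
  intro k h1 h2
  refine ⟨?_, ?_, fun _ => ⟨?_, ?_⟩, fun k' h3 h4 => ⟨?_, ?_, ?_⟩⟩ <;> unfold sk2 <;>
    split_ifs <;> omega

theorem sk3_ok (s : ℤ) (hs : 2 ≤ s) : SkOK (4 * s - 1) 1 (sk3 s) := by
  intro k h1 h2
  refine ⟨?_, ?_, fun _ => ⟨?_, ?_⟩, fun k' h3 h4 => ⟨?_, ?_, ?_⟩⟩ <;> unfold sk3 <;>
    split_ifs <;> omega

theorem sk_exists (t : ℤ) (ht : 6 ≤ t) : ∃ e X, (e = 0 ∨ e = 1) ∧ SkOK t e X := by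
  have h : t % 4 = 0 ∨ t % 4 = 1 ∨ t % 4 = 2 ∨ t % 4 = 3 := by omega
  rcases h with h | h | h | h
  · obtain ⟨s, rfl⟩ : ∃ s, t = 4 * s := ⟨t / 4, by omega⟩
    exact ⟨0, _, Or.inl rfl, sk0_ok s (by omega)⟩
  · obtain ⟨s, rfl⟩ : ∃ s, t = 4 * s + 1 := ⟨t / 4, by omega⟩
    exact ⟨0, _, Or.inl rfl, sk1_ok s (by omega)⟩
  · obtain ⟨s, rfl⟩ : ∃ s, t = 4 * s + 2 := ⟨t / 4, by omega⟩
    exact ⟨1, _, Or.inr rfl, sk2_ok s (by omega)⟩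
  · obtain ⟨s, rfl⟩ : ∃ s, t = 4 * s - 1 := ⟨(t + 1) / 4, by omega⟩
    exact ⟨1, _, Or.inr rfl, sk3_ok s (by omega)⟩


end Pool.Agent.R12.DM
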