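import Pool.Agent.R12.DM3
import Pool.Agent.R12.DMSk

set_option autoImplicit false

open Finset
open scoped Classical

namespace Pool.Agent.R12.DM

def l3 (t : ℤ) (X : ℤ → ℤ) (k : ℤ) : Fin 3 → ℤ := ![k, t + X k, t + X k + k]
def l5 (t c : ℤ) (X : ℤ → ℤ) (k : ℤ) : Fin 5 → ℤ := ![k, t + X k, t + X k + k, c + k, c - k]
def lb (t f e : ℤ) : Fin 3 → ℤ := ![3 * t + e + f + 1, if e = 1 then 3 * t else 3 * t + 2 * f + 2,
  3 * t + 2 * f + 3]

/-- labels -/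
def ll {g f b : ℕ} (hb : b ≤ 3) (t e : ℤ) (X : ℤ → ℤ) : PP g f b → ℤ
  | Sum.inl (i, p) => l3 t X (f + 1 + (i : ℕ)) p
  | Sum.inr (Sum.inl (i, p)) => l5 t (3 * t + e + f + 1) X (1 + (i : ℕ)) p
  | Sum.inr (Sum.inr c) => lb t f e (Fin.castLE hb c)

def ss {g f b : ℕ} : PP g f b → ℤ
  | Sum.inl (_, p) => (![1, 1, -1] : Fin 3 → ℤ) p
  | Sum.inr (Sum.inl (_, p)) => (![-1, 1, -1, 1, -1] : Fin 5 → ℤ) p
  | Sum.inr (Sum.inr _) => 1

theorem ll_inj {g f b : ℕ} (hb : b ≤ 3) (hb2 : 2 ≤ b) (t e : ℤ) (he : e = 0 ∨ e = 1)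
    (X : ℤ → ℤ) (ht : t = g + f) (hX : SkOK t e X) :
    Function.Injective (ll hb t e X : PP g f b → ℤ) := by
  have r3 : ∀ i : Fin g, (f:ℤ) + 1 + (i:ℕ) ≤ t := fun i => by have := i.2; omega
  have r5 : ∀ i : Fin f, (1:ℤ) + (i:ℕ) ≤ t := fun i => by have := i.2; omega
  rintro (⟨i, p⟩ | ⟨i, p⟩ | c) (⟨i', p'⟩ | ⟨i', p'⟩ | c') h
  · have a1 := hX _ (by omega) (r3 i)
    have a2 := a1.2.2.2 _ (by omega) (r3 i')
    have a3 := (hX _ (by omega) (r3 i')).2.2.2 _ (by omega) (r3 i)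
    have a4 := hX _ (by omega) (r3 i')
    simp only [ll, l3] at h
    have : (i:ℕ) = i' ∧ p = p' := by
      fin_cases p <;> fin_cases p' <;> simp at h <;> simp <;> omega
    rw [Fin.ext this.1, this.2]
  · exfalso
    have a1 := hX _ (by omega) (r3 i)
    have a2 := a1.2.2.2 _ (by omega) (r5 i')
    have a4 := hX _ (by omega) (r5 i')
    have a3 := a4.2.2.2 _ (by omega) (r3 i)
    have := i'.2
    simp only [ll, l3, l5] at h
    fin_cases p <;> fin_cases p' <;> simp at h <;> omega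
  · exfalso
    have a1 := hX _ (by omega) (r3 i)
    simp only [ll, l3, lb] at h
    obtain ⟨c', hc'⟩ := c'
    have : c' = 0 ∨ c' = 1 ∨ c' = 2 := by omega
    rcases this with rfl | rfl | rfl <;> fin_cases p <;> simp at h <;> (try split_ifs at h) <;> omega
  · exfalso
    have a1 := hX _ (by omega) (r5 i)
    have a2 := a1.2.2.2 _ (by omega) (r3 i')
    have a4 := hX _ (by omega) (r3 i')
    have a3 := a4.2.2.2 _ (by omega) (r5 i)
    have := i.2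
    simp only [ll, l3, l5] at h
    fin_cases p <;> fin_cases p' <;> simp at h <;> omega
  · have a1 := hX _ (by omega) (r5 i)
    have a2 := a1.2.2.2 _ (by omega) (r5 i')
    have a4 := hX _ (by omega) (r5 i')
    have a3 := a4.2.2.2 _ (by omega) (r5 i)
    simp only [ll, l5] at h
    have : (i:ℕ) = i' ∧ p = p' := by
      fin_cases p <;> fin_cases p' <;> simp at h <;> simp <;> omega
    rw [Fin.ext this.1, this.2]
  · exfalso
    have a1 := hX _ (by omega) (r5 i)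
    have := i.2
    simp only [ll, l5, lb] at h
    obtain ⟨c', hc'⟩ := c'
    have : c' = 0 ∨ c' = 1 ∨ c' = 2 := by omega
    rcases this with rfl | rfl | rfl <;> fin_cases p <;> simp at h <;> (try split_ifs at h) <;> omega
  · exfalso
    have a1 := hX _ (by omega) (r3 i')
    simp only [ll, l3, lb] at h
    obtain ⟨c, hc⟩ := c
    have : c = 0 ∨ c = 1 ∨ c = 2 := by omega
    rcases this with rfl | rfl | rfl <;> fin_cases p' <;> simp at h <;> (try split_ifs at h) <;> omega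
  · exfalso
    have a1 := hX _ (by omega) (r5 i')
    have := i'.2
    simp only [ll, l5, lb] at h
    obtain ⟨c, hc⟩ := c
    have : c = 0 ∨ c = 1 ∨ c = 2 := by omega
    rcases this with rfl | rfl | rfl <;> fin_cases p' <;> simp at h <;> (try split_ifs at h) <;> omega
  · simp only [ll, lb] at h
    obtain ⟨c, hc⟩ := c
    obtain ⟨c', hc'⟩ := c'
    have h1 : c = 0 ∨ c = 1 ∨ c = 2 := by omega
    have h2 : c' = 0 ∨ c' = 1 ∨ c' = 2 := by omega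
    have : c = c' := by
      rcases h1 with rfl | rfl | rfl <;> rcases h2 with rfl | rfl | rfl <;> simp at h ⊢ <;>
        (try split_ifs at h) <;> omega
    subst this; rfl

theorem ll_range {g f b : ℕ} (hb : b ≤ 3) (hb2 : 2 ≤ b) (t e : ℤ) (he : e = 0 ∨ e = 1)
    (X : ℤ → ℤ) (ht : t = g + f) (ht6 : 6 ≤ t) (hX : SkOK t e X) (p : PP g f b) :
    1 ≤ ll hb t e X p ∧ ll hb t e X p ≤ 3 * t + 2 * f + b := by
  have r3 : ∀ i : Fin g, (f:ℤ) + 1 + (i:ℕ) ≤ t := fun i => by have := i.2; omega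
  have r5 : ∀ i : Fin f, (1:ℤ) + (i:ℕ) ≤ t := fun i => by have := i.2; omega
  rcases p with (⟨i, p⟩ | ⟨i, p⟩ | c)
  · have a1 := hX _ (by omega) (r3 i)
    have := r3 i
    simp only [ll, l3]
    fin_cases p <;> simp <;> omega
  · have a1 := hX _ (by omega) (r5 i)
    have := r5 i
    have := i.2
    simp only [ll, l5]
    fin_cases p <;> simp <;> omega
  · obtain ⟨c, hc⟩ := c
    simp only [ll, lb]
    have h1 : c = 0 ∨ c = 1 ∨ c = 2 := by omega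
    rcases h1 with rfl | rfl | rfl <;> simp <;> (try split_ifs) <;> omega

theorem match_graph (n : ℕ) (hn : n % 2 = 0) : ∃ Q : Fin n → Fin n → Prop,
    (∀ i j, Q i j → Q j i) ∧ (∀ i, ¬ Q i i) ∧ ∀ i, (Finset.univ.filter (Q i)).card = 1 := by
  refine ⟨fun i j => i ≠ j ∧ (i:ℕ) / 2 = (j:ℕ) / 2, fun i j h => ⟨h.1.symm, h.2.symm⟩,
    fun i h => h.1 rfl, fun i => ?_⟩
  rw [Finset.card_eq_one]
  have hi := i.2
  refine ⟨⟨if (i:ℕ) % 2 = 0 then i + 1 else i - 1, by split_ifs <;> omega⟩, ?_⟩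
  ext j
  have hj := j.2
  simp only [mem_filter, mem_univ, true_and, mem_singleton, Fin.ext_iff, ne_eq]
  split_ifs <;> omega

theorem cyc_graph (n : ℕ) (hn : 3 ≤ n) : ∃ Q : Fin n → Fin n → Prop,
    (∀ i j, Q i j → Q j i) ∧ (∀ i, ¬ Q i i) ∧ ∀ i, (Finset.univ.filter (Q i)).card = 2 := by
  obtain ⟨m, rfl⟩ := Nat.exists_eq_add_of_le' hn
  refine ⟨(SimpleGraph.cycleGraph (m + 3)).Adj, fun i j h => h.symm, fun i => by simp, fun i => ?_⟩
  have h := SimpleGraph.cycleGraph_degree_three_le (n := m) (v := i)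
  rw [← SimpleGraph.card_neighborFinset_eq_degree, SimpleGraph.neighborFinset_eq_filter] at h
  convert h

theorem fam_gen (g f b : ℕ) (hb : b ≤ 3) (hb2 : 2 ≤ b) (ht : 6 ≤ g + f) (Q3 : Fin g → Fin g → Prop)
    (Q5 : Fin f → Fin f → Prop) (h3s : ∀ i j, Q3 i j → Q3 j i) (h5s : ∀ i j, Q5 i j → Q5 j i)
    (h3 : ∀ i, ¬ Q3 i i) (h5 : ∀ i, ¬ Q5 i i)
    (h3d : ∀ i, 2 + 2 * (Finset.univ.filter (Q3 i)).card = 2 * b)
    (h5d : ∀ i, 4 + 2 * (Finset.univ.filter (Q5 i)).card = 2 * b) :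
    ∃ H, HG (3 * g + 5 * f + b) (2 * b) H := by
  obtain ⟨e, X, he, hX⟩ := sk_exists ((g:ℤ) + f) (by omega)
  refine fam_hg g f b (3 * g + 5 * f + b) (2 * b) Q3 Q5 h3s h5s h3 h5 h3d h5d rfl rfl
    (ll hb ((g:ℤ) + f) e X) ss (ll_inj hb hb2 _ e he X rfl hX) (fun p => ?_) (fun p => ?_)
    (fun i => ?_) (fun i => ?_)
  · have := ll_range hb hb2 _ e he X rfl (by omega) hX p
    refine ⟨this.1, this.2.trans (le_of_eq ?_)⟩
    push_cast; ring
  · rcases p with (⟨i, p⟩ | ⟨i, p⟩ | c)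
    · simp only [ss]; fin_cases p <;> simp
    · simp only [ss]; fin_cases p <;> simp
    · exact Or.inl rfl
  · simp [Fin.sum_univ_succ, ll, l3, ss]
    ring
  · simp [Fin.sum_univ_succ, ll, l5, ss]
    ring

theorem fam2 (ρ : ℕ) (hρ : 26 ≤ ρ) : ∃ H, HG (ρ + 2) 4 H := by
  obtain ⟨g, f, h1, h2, h3⟩ : ∃ g f : ℕ, 3 * g + 5 * f = ρ ∧ g % 2 = 0 ∧ 6 ≤ g + f := by
    refine ⟨(ρ - 5 * ((6 - ρ % 6) % 6)) / 3, (6 - ρ % 6) % 6, ?_, ?_, ?_⟩ <;> omega
  obtain ⟨Q, q1, q2, q3⟩ := match_graph g h2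
  have := fam_gen g f 2 (by norm_num) le_rfl h3 Q (fun _ _ => False) q1 (fun _ _ h => h) q2
    (fun _ h => h) (fun i => by rw [q3]) (fun i => by simp)
  rw [h1] at this
  exact this

theorem fam3 (ρ : ℕ) (hρ : 25 ≤ ρ) (ho : ρ % 2 = 1) : ∃ H, HG (ρ + 3) 6 H := by
  obtain ⟨g, f, h1, h2, h3, h4⟩ : ∃ g f : ℕ, 3 * g + 5 * f = ρ ∧ f % 2 = 0 ∧ 6 ≤ g + f ∧ 3 ≤ g := by
    refine ⟨(ρ - 5 * ((9 - ρ % 6) % 6)) / 3, (9 - ρ % 6) % 6, ?_, ?_, ?_, ?_⟩ <;> omega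
  obtain ⟨Q, q1, q2, q3⟩ := cyc_graph g h4
  obtain ⟨R, r1, r2, r3⟩ := match_graph f h2
  have := fam_gen g f 3 le_rfl (by norm_num) h3 Q R q1 r1 q2 r2 (fun i => by rw [q3])
    (fun i => by rw [r3])
  rw [h1] at this
  exact this

end Pool.Agent.R12.DM
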