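import Pool.Agent.R12.DM3

set_option autoImplicit false

open Finset

namespace Pool.Agent.R12.DM

/-! ### table checker -/

def row (N : ℕ) (T : List (List ℤ)) (v : ℤ) : List ℤ := T.getD (v + N).toNat []

def fullb (N : ℕ) (T : List (List ℤ)) (i j : ℤ) : Bool :=
  decide (i ≠ j) && decide (j ∉ row N T i) && decide (-j ∉ row N T i) &&
    decide (j ∉ row N T (-i)) && decide (-j ∉ row N T (-i))

def chk (N s k k' : ℕ) (T : List (List ℤ)) (S : List ℤ) : Bool :=
  (List.range (2 * N + 1)).all (fun a =>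
    decide ((row N T ((a:ℤ) - N)).length = s) && decide (row N T ((a:ℤ) - N)).Nodup &&
    decide (((a:ℤ) - N) + (row N T ((a:ℤ) - N)).sum = 0) &&
    (row N T ((a:ℤ) - N)).all (fun w => decide (-(N:ℤ) ≤ w) && decide (w ≤ N) &&
      decide (w ≠ (a:ℤ) - N) && decide ((a:ℤ) - N ∈ row N T w))) &&
  decide S.Nodup && decide (2 * k ≤ S.length) &&
  S.all (fun i => decide (1 ≤ i) && decide (i ≤ N) &&
    decide (k' ≤ (S.filter (fun j => fullb N T i j)).length))

open scoped Classical in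
theorem chk_sound (N s k k' : ℕ) (T : List (List ℤ)) (S : List ℤ) (h : chk N s k k' T S = true)
    (r : ℕ) (hr : r = 2 * N - s) : St N r k k' := by
  subst hr
  simp only [chk, Bool.and_eq_true, List.all_eq_true, decide_eq_true_eq, List.mem_range] at h
  obtain ⟨⟨⟨h1, h2⟩, h3⟩, h4⟩ := h
  have hrow : ∀ v ∈ W N, (row N T v).length = s ∧ (row N T v).Nodup ∧ v + (row N T v).sum = 0 ∧
      ∀ w ∈ row N T v, w ∈ W N ∧ w ≠ v ∧ v ∈ row N T w := by
    intro v hv
    rw [mem_W, abs_le] at hv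
    have := h1 (v + N).toNat (by omega)
    have e : (((v + N).toNat : ℕ) : ℤ) - N = v := by omega
    rw [e] at this
    obtain ⟨⟨⟨g1, g2⟩, g3⟩, g4⟩ := this
    refine ⟨g1, g2, g3, fun w hw => ?_⟩
    obtain ⟨⟨⟨k1, k2⟩, k3⟩, k4⟩ := g4 w hw
    exact ⟨by rw [mem_W, abs_le]; exact ⟨k1, k2⟩, k3, k4⟩
  let H : ℤ → ℤ → Prop := fun u w => w ∈ row N T u
  have hfil : ∀ v ∈ W N, (W N).filter (Co N H v) = W N \ (insert v (row N T v).toFinset) := by
    intro v hv
    ext w
    simp only [mem_filter, Co, mem_sdiff, mem_insert, List.mem_toFinset, hv, true_and, H]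
    constructor
    · rintro ⟨a1, -, a3, a4⟩
      exact ⟨a1, by rintro (h | h); exacts [a3 h.symm, a4 h]⟩
    · rintro ⟨a1, a2⟩
      exact ⟨a1, a1, fun h => a2 (Or.inl h.symm), fun h => a2 (Or.inr h)⟩
  have hsub : ∀ v ∈ W N, insert v (row N T v).toFinset ⊆ W N := by
    intro v hv x hx
    rw [mem_insert, List.mem_toFinset] at hx
    rcases hx with rfl | hx
    · exact hv
    · exact ((hrow v hv).2.2.2 x hx).1
  have hni : ∀ v ∈ W N, v ∉ (row N T v).toFinset := fun v hv h =>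
    ((hrow v hv).2.2.2 v (List.mem_toFinset.1 h)).2.1 rfl
  have hcard : ∀ v ∈ W N, (row N T v).toFinset.card = s := fun v hv => by
    rw [List.toFinset_card_of_nodup (hrow v hv).2.1, (hrow v hv).1]
  have hsum : ∀ v ∈ W N, v + ∑ w ∈ (row N T v).toFinset, w = 0 := fun v hv => by
    rw [List.sum_toFinset _ (hrow v hv).2.1, List.map_id']
    exact (hrow v hv).2.2.1
  refine ⟨Co N H, ⟨?_, ?_, fun u w h => h.1, ?_, ?_⟩, S.toFinset, ?_, ?_, ?_⟩
  · rintro u w ⟨a1, a2, a3, a4⟩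
    exact ⟨a2, a1, a3.symm, fun h => a4 ((hrow w a2).2.2.2 u h).2.2⟩
  · rintro u ⟨-, -, h, -⟩
    exact h rfl
  · intro v hv
    rw [hfil v hv, card_sdiff_of_subset (hsub v hv), card_insert_of_notMem (hni v hv), hcard v hv,
      card_W]
    omega
  · intro v hv
    rw [hfil v hv]
    have h5 := sum_sdiff (hsub v hv) (f := fun w : ℤ => w)
    rw [sum_insert (hni v hv), hsum v hv, sum_W, add_zero] at h5
    exact h5
  · intro x hx
    rw [List.mem_toFinset] at hx
    rw [Finset.mem_Icc]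
    exact (h4 x hx).1
  · rw [List.toFinset_card_of_nodup h2]; exact h3
  · intro i hi
    rw [List.mem_toFinset] at hi
    obtain ⟨⟨b1, b2⟩, b3⟩ := h4 i hi
    refine b3.trans ?_
    rw [← List.toFinset_card_of_nodup (h2.filter _)]
    apply card_le_card
    intro j hj
    rw [List.mem_toFinset, List.mem_filter] at hj
    rw [mem_filter, List.mem_toFinset]
    refine ⟨hj.1, ?_⟩
    obtain ⟨⟨c1, c2⟩, -⟩ := h4 j hj.1
    have hf := hj.2
    simp only [fullb, Bool.and_eq_true, decide_eq_true_eq] at hf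
    obtain ⟨⟨⟨⟨f1, f2⟩, f3⟩, f4⟩, f5⟩ := hf
    have hiW : i ∈ W N := by rw [mem_W, abs_of_pos (by omega)]; omega
    have hjW : j ∈ W N := by rw [mem_W, abs_of_pos (by omega)]; omega
    have hiW' : -i ∈ W N := by rw [mem_W, abs_neg, abs_of_pos (by omega)]; omega
    have hjW' : -j ∈ W N := by rw [mem_W, abs_neg, abs_of_pos (by omega)]; omega
    exact ⟨⟨hiW, hjW, by omega, f2⟩, ⟨hiW, hjW', by omega, f3⟩, ⟨hiW', hjW, by omega, f4⟩,
      ⟨hiW', hjW', by omega, f5⟩⟩

/-- iterate the steps -/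
theorem st_even (k N₀ : ℕ) (h : St N₀ (4 * k) k k) : ∀ N, N₀ ≤ N → St N (4 * k) k k := by
  intro N hN
  induction N, hN using Nat.le_induction with
  | base => exact h
  | succ n _ ih => exact even_step n k ih

theorem st_odd (k N₀ : ℕ) (hk : 1 ≤ k) (h : St N₀ (4 * k + 2) k (k + 1)) :
    ∀ j, St (N₀ + 2 * j) (4 * k + 2) k (k + 1) := by
  intro j
  induction j with
  | zero => exact h
  | succ n ih => exact odd_step (N₀ + 2 * n) k hk ih

theorem st_odd2 (k N₀ : ℕ) (hk : 1 ≤ k) (h : St N₀ (4 * k + 2) k (k + 1))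
    (h' : St (N₀ + 1) (4 * k + 2) k (k + 1)) (N : ℕ) (hN : N₀ ≤ N) :
    St N (4 * k + 2) k (k + 1) := by
  rcases Nat.even_or_odd (N - N₀) with ⟨j, hj⟩ | ⟨j, hj⟩
  · have := st_odd k N₀ hk h j
    rwa [show N₀ + 2 * j = N by omega] at this
  · have := st_odd k (N₀ + 1) hk h' j
    rwa [show N₀ + 1 + 2 * j = N by omega] at this

end Pool.Agent.R12.DM
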