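import Mathlib

set_option autoImplicit false

namespace Pool.Agent.R12.DM

/-! ### exhaustive search -/

def mask (f : ℕ → Bool) : ℕ → ℕ
  | 0 => 0
  | n + 1 => 2 ^ n * (if f n then 1 else 0) + mask f n

theorem mask_lt (f : ℕ → Bool) (n : ℕ) : mask f n < 2 ^ n := by
  induction n with
  | zero => simp [mask]
  | succ n ih =>
    rw [mask, pow_succ]
    split_ifs <;> omega

theorem mask_testBit (f : ℕ → Bool) (n j : ℕ) (hj : j < n) : (mask f n).testBit j = f j := by
  induction n with
  | zero => omega
  | succ n ih =>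
    rw [mask]
    by_cases h : f n = true
    · rw [if_pos h, mul_one]
      rcases Nat.lt_succ_iff_lt_or_eq.1 hj with h1 | h1
      · rw [Nat.testBit_two_pow_add_gt h1, ih h1]
      · subst h1
        rw [Nat.testBit_two_pow_add_eq, Nat.testBit_lt_two_pow (mask_lt f j), h]; rfl
    · rw [if_neg h, mul_zero, zero_add]
      rcases Nat.lt_succ_iff_lt_or_eq.1 hj with h1 | h1
      · exact ih h1
      · subst h1
        rw [Nat.testBit_lt_two_pow (mask_lt f j)]
        simpa using h

def cnt (f : ℕ → Bool) : ℕ → ℕ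
  | 0 => 0
  | n + 1 => cnt f n + (if f n then 1 else 0)

def sml (lab : ℕ → ℤ) (f : ℕ → Bool) : ℕ → ℤ
  | 0 => 0
  | n + 1 => sml lab f n + (if f n then lab n else 0)

def subs (lab : ℕ → ℤ) : ℕ → ℕ → ℤ → List ℕ
  | 0, k, t => if k = 0 then (if t = 0 then [0] else []) else []
  | n + 1, 0, t => subs lab n 0 t
  | n + 1, k + 1, t => subs lab n (k + 1) t ++ (subs lab n k (t - lab n)).map (fun x => 2 ^ n + x)

theorem mem_subs (lab : ℕ → ℤ) (f : ℕ → Bool) (n : ℕ) :
    mask f n ∈ subs lab n (cnt f n) (sml lab f n) := by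
  induction n with
  | zero => simp [subs, mask, cnt, sml]
  | succ n ih =>
    by_cases h : f n = true
    · simp only [mask, cnt, sml, h, if_true, mul_one]
      rw [subs, add_sub_cancel_right, List.mem_append, List.mem_map]
      exact Or.inr ⟨_, ih, rfl⟩
    · simp only [mask, cnt, sml, h, if_false, mul_zero, zero_add, add_zero, Bool.false_eq_true]
      rcases hc : cnt f n with _ | m
      · rw [hc] at ih
        rw [subs]; exact ih
      · rw [hc] at ih
        rw [subs, List.mem_append]; exact Or.inl ih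

/-- filter the lists of the remaining vertices; `none` if a list becomes empty -/
def filt (v m : ℕ) : List (ℕ × List ℕ) → Option (List (ℕ × List ℕ))
  | [] => some []
  | (u, c) :: L =>
    match c.filter (fun x => x.testBit v == m.testBit u) with
    | [] => none
    | (a :: l) =>
      match filt v m L with
      | none => none
      | some L' => some ((u, a :: l) :: L')

/-- `true` means: no solution -/
def go : ℕ → List (ℕ × List ℕ) → Bool
  | 0, _ => false
  | _ + 1, [] => false
  | n + 1, (v, c) :: L => c.all (fun m =>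
      match filt v m L with
      | none => true
      | some L' => go n L')

/-- `R` solves the lists -/
def Sol (R : ℕ → ℕ) (L : List (ℕ × List ℕ)) : Prop := ∀ e ∈ L, R e.1 ∈ e.2

theorem filt_sol (R : ℕ → ℕ) (v : ℕ) (L : List (ℕ × List ℕ)) (h : Sol R L)
    (hs : ∀ e ∈ L, (R e.1).testBit v = (R v).testBit e.1) :
    ∃ L', filt v (R v) L = some L' ∧ Sol R L' ∧ ∀ e ∈ L', ∃ e' ∈ L, e'.1 = e.1 := by
  induction L with
  | nil => exact ⟨[], rfl, by simp [Sol], by simp⟩
  | cons e L ih =>
    obtain ⟨u, c⟩ := e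
    obtain ⟨L', h1, h2, h3⟩ := ih (fun e he => h e (List.mem_cons_of_mem _ he))
      (fun e he => hs e (List.mem_cons_of_mem _ he))
    have h4 := h (u, c) List.mem_cons_self
    have h5 := hs (u, c) List.mem_cons_self
    have h6 : R u ∈ c.filter (fun x => x.testBit v == (R v).testBit u) := by
      rw [List.mem_filter]
      exact ⟨h4, by simpa using h5⟩
    rcases hf : c.filter (fun x => x.testBit v == (R v).testBit u) with _ | ⟨a, l⟩
    · rw [hf] at h6; simp at h6
    · refine ⟨(u, a :: l) :: L', ?_, ?_, ?_⟩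
      · rw [filt, hf, h1]
      · intro e he
        rw [List.mem_cons] at he
        rcases he with rfl | he
        · rw [hf] at h6; exact h6
        · exact h2 e he
      · intro e he
        rw [List.mem_cons] at he
        rcases he with rfl | he
        · exact ⟨(u, c), List.mem_cons_self, rfl⟩
        · obtain ⟨e', he', h7⟩ := h3 e he
          exact ⟨e', List.mem_cons_of_mem _ he', h7⟩

theorem go_sound (n : ℕ) : ∀ (R : ℕ → ℕ) (L : List (ℕ × List ℕ)), Sol R L →
    (∀ e ∈ L, ∀ e' ∈ L, (R e.1).testBit e'.1 = (R e'.1).testBit e.1) → go n L = false := by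
  induction n with
  | zero => intros; rfl
  | succ n ih =>
    intro R L hL hs
    rcases L with _ | ⟨⟨v, c⟩, L⟩
    · rfl
    · rw [go, Bool.eq_false_iff]
      intro hall
      rw [List.all_eq_true] at hall
      have h1 := hall (R v) (hL (v, c) List.mem_cons_self)
      obtain ⟨L', g1, g2, g3⟩ := filt_sol R v L (fun e he => hL e (List.mem_cons_of_mem _ he))
        (fun e he => hs e (List.mem_cons_of_mem _ he) (v, c) List.mem_cons_self)
      rw [g1] at h1
      simp only at h1
      rw [ih R L' g2 (fun e he e' he' => ?_)] at h1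
      · exact Bool.false_ne_true h1
      · obtain ⟨a, ha, ha'⟩ := g3 e he
        obtain ⟨b, hb, hb'⟩ := g3 e' he'
        rw [← ha', ← hb']
        exact hs a (List.mem_cons_of_mem _ ha) b (List.mem_cons_of_mem _ hb)

/-- the candidate lists -/
def cands (n : ℕ) (d : ℤ) (ord : List ℕ) : List (ℕ × List ℕ) :=
  ord.map (fun i => (i, (subs (fun j => (j:ℤ) - ((n - 1) / 2 : ℕ)) n 4
    (d * ((i:ℤ) - ((n - 1) / 2 : ℕ)))).filter (fun x => !x.testBit i)))

theorem no_sol (n : ℕ) (d : ℤ) (ord : List ℕ) (hord : ∀ i ∈ ord, i < n) (fuel : ℕ)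
    (h : go fuel (cands n d ord) = true) (A : ℕ → ℕ → Bool) (hs : ∀ i j, A i j = A j i)
    (hi : ∀ i, A i i = false) (hc : ∀ i < n, cnt (A i) n = 4)
    (hm : ∀ i < n, sml (fun j => (j:ℤ) - ((n - 1) / 2 : ℕ)) (A i) n =
      d * ((i:ℤ) - ((n - 1) / 2 : ℕ))) : False := by
  have h1 := go_sound fuel (fun i => mask (A i) n) (cands n d ord) ?_ ?_
  · rw [h] at h1; exact Bool.noConfusion h1
  · intro e he
    rw [cands, List.mem_map] at he
    obtain ⟨i, hi1, rfl⟩ := he
    have hin := hord i hi1
    simp only
    rw [List.mem_filter]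
    constructor
    · have := mem_subs (fun j => (j:ℤ) - ((n - 1) / 2 : ℕ)) (A i) n
      rw [hc i hin, hm i hin] at this
      exact this
    · rw [mask_testBit _ _ _ hin, hi]; rfl
  · intro e he e' he'
    rw [cands, List.mem_map] at he he'
    obtain ⟨i, hi1, rfl⟩ := he
    obtain ⟨j, hj1, rfl⟩ := he'
    simp only
    rw [mask_testBit _ _ _ (hord j hj1), mask_testBit _ _ _ (hord i hi1), hs]

end Pool.Agent.R12.DM
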