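import Pool.Agent.R12.DM6

set_option autoImplicit false

namespace Pool.Agent.R12.DM

/-! ### the search with all domains packed into one number -/

inductive T where
  | lf (M : ℕ)
  | nd (m : ℕ) (l r : T)

/-- number of leaves -/
def T.sz : T → ℕ
  | .lf _ => 1
  | .nd _ l r => l.sz + r.sz

noncomputable def run (C G : ℕ) (k : ℕ → Bool) (t : T) : ℕ → Bool :=
  T.rec (motive := fun _ => ℕ → Bool)
    (fun M D => Bool.rec (motive := fun _ => Bool) true (k (Nat.land D M))
      (Nat.beq (Nat.land (Nat.add (Nat.land D M) C) G) G))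
    (fun m _ _ il ir D => Bool.rec (motive := fun _ => Bool)
      (Bool.rec (motive := fun _ => Bool) false (ir D) (il D)) true (Nat.beq (Nat.land D m) 0)) t

noncomputable def goT (C G : ℕ) (L : List T) : ℕ → Bool :=
  List.rec (motive := fun _ => ℕ → Bool) (fun _ => false) (fun t _ ih => run C G ih t) L

theorem land_tb (a b j : ℕ) : (Nat.land a b).testBit j = (a.testBit j && b.testBit j) :=
  Nat.testBit_and a b j

theorem beq_tb (a j : ℕ) (h : a.testBit j = true) : Nat.beq a 0 = false := by
  rcases a with _ | a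
  · simp at h
  · rfl

/-- guard bits: `g` blocks of width `w + 1` starting at bit `q` -/
def gd (w : ℕ) : ℕ → ℕ → ℕ
  | 0, _ => 0
  | g + 1, q => 2 ^ (q + w) ||| gd w g (q + (w + 1))

theorem gd_bit (w g : ℕ) : ∀ q j, (gd w g q).testBit j = true →
    ∃ k < g, j = q + (w + 1) * k + w := by
  induction g with
  | zero => intro q j h; simp [gd] at h
  | succ g ih =>
    intro q j h
    rw [gd, Nat.testBit_or, Bool.or_eq_true] at h
    rcases h with h | h
    · rw [Nat.testBit_two_pow] at h
      exact ⟨0, by omega, by have := of_decide_eq_true h; omega⟩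
    · obtain ⟨k, hk, he⟩ := ih _ _ h
      exact ⟨k + 1, by omega, by rw [he]; ring⟩

/-- check of the constant `C` -/
def okC (w C : ℕ) : ℕ → ℕ → Bool
  | 0, _ => true
  | g + 1, q => !(C.testBit (q + w)) && (Nat.ble (2 ^ (q + w)) (C % 2 ^ (q + w) + 2 ^ q) &&
      okC w C g (q + (w + 1)))

theorem okC_sp (w C g : ℕ) : ∀ q, okC w C g q = true → ∀ k < g,
    C.testBit (q + (w + 1) * k + w) = false ∧
      2 ^ (q + (w + 1) * k + w) ≤ C % 2 ^ (q + (w + 1) * k + w) + 2 ^ (q + (w + 1) * k) := by
  induction g with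
  | zero => intro q _ k hk; omega
  | succ g ih =>
    intro q h k hk
    rw [okC, Bool.and_eq_true, Bool.and_eq_true] at h
    obtain ⟨h1, h2, h3⟩ := h
    rcases k with _ | k
    · rw [mul_zero, add_zero]
      exact ⟨by simpa using h1, Nat.le_of_ble_eq_true h2⟩
    · have := ih _ h3 k (by omega)
      rw [show q + (w + 1) * (k + 1) + w = q + (w + 1) + (w + 1) * k + w by ring,
        show q + (w + 1) * (k + 1) = q + (w + 1) + (w + 1) * k by ring]
      exact this

theorem tb_ge (D b p : ℕ) (hb : b < p) (h : D.testBit b = true) : 2 ^ b ≤ D % 2 ^ p := by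
  by_contra hc
  push Not at hc
  have : (D % 2 ^ p).testBit b = false := Nat.testBit_lt_two_pow hc
  rw [Nat.testBit_mod_two_pow] at this
  simp [hb, h] at this

theorem guard_one (D C p q b : ℕ) (hq : q ≤ b) (hb : b < p) (h1 : D.testBit b = true)
    (h2 : D.testBit p = false) (h3 : C.testBit p = false)
    (h4 : 2 ^ p ≤ C % 2 ^ p + 2 ^ q) : (D + C).testBit p = true := by
  have e1 := tb_ge D b p hb h1
  have e2 : 2 ^ q ≤ 2 ^ b := Nat.pow_le_pow_right (by norm_num) hq
  rw [Nat.testBit_eq_decide_div_mod_eq] at h2 h3 ⊢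
  have hp : 0 < 2 ^ p := by positivity
  have d1 := Nat.div_add_mod D (2 ^ p)
  have d2 := Nat.div_add_mod C (2 ^ p)
  have m1 := Nat.mod_lt D hp
  have m2 := Nat.mod_lt C hp
  have e3 : (D + C) / 2 ^ p = D / 2 ^ p + C / 2 ^ p + 1 := by
    rw [Nat.div_eq_iff hp]
    generalize D / 2 ^ p = x at *
    generalize C / 2 ^ p = y at *
    generalize D % 2 ^ p = u at *
    generalize C % 2 ^ p = v at *
    generalize 2 ^ p = P at *
    generalize 2 ^ b = B at *
    generalize 2 ^ q = Q at *
    have t1 : (x + y + 1) * P = P * x + P * y + P := by ring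
    rw [t1]
    omega
  have h2' := of_decide_eq_false h2
  have h3' := of_decide_eq_false h3
  rw [e3]
  apply decide_eq_true
  omega

structure Pk (w n q : ℕ) (C : ℕ) (jj : ℕ → ℕ) (D : ℕ) : Prop where
  bit : ∀ k < n, D.testBit (q + (w + 1) * k + jj k) = true
  grd : ∀ k < n, D.testBit (q + (w + 1) * k + w) = false

theorem guard_all (w n q C : ℕ) (hC : okC w C n q = true) (jj : ℕ → ℕ) (hj : ∀ k < n, jj k < w)
    (D : ℕ) (hD : Pk w n q C jj D) :
    Nat.beq (Nat.land (Nat.add D C) (gd w n q)) (gd w n q) = true := by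
  rw [Nat.beq_eq]
  apply Nat.eq_of_testBit_eq
  intro i
  rw [land_tb]
  rcases hg : (gd w n q).testBit i with _ | _
  · rw [Bool.and_false]
  · rw [Bool.and_true]
    obtain ⟨k, hk, rfl⟩ := gd_bit w n q i hg
    obtain ⟨c1, c2⟩ := okC_sp w C n q hC k hk
    exact guard_one D C _ _ (q + (w + 1) * k + jj k) (by omega) (by have := hj k hk; omega)
      (hD.bit k hk) (hD.grd k hk) c1 c2

theorem Pk.land {w n q C : ℕ} {jj : ℕ → ℕ} {D : ℕ} (hD : Pk w n q C jj D) (M : ℕ)
    (hM : ∀ k < n, M.testBit (q + (w + 1) * k + jj k) = true) :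
    Pk w n q C jj (Nat.land D M) := by
  refine ⟨fun k hk => ?_, fun k hk => ?_⟩
  · rw [land_tb, hD.bit k hk, hM k hk]; rfl
  · rw [land_tb, hD.grd k hk]; rfl

def bset (v : ℕ) (b : Bool) : List ℕ → ℕ → ℕ
  | [], _ => 0
  | x :: c, k => (if x.testBit v = b then 2 ^ k else 0) ||| bset v b c (k + 1)

theorem bset_bit (v : ℕ) (b : Bool) (l : List ℕ) : ∀ (k j : ℕ) (x : ℕ), l[j]? = some x →
    x.testBit v = b → (bset v b l k).testBit (k + j) = true := by
  induction l with
  | nil => intro k j x h; simp at h
  | cons y c ih =>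
    intro k j x h hx
    rw [bset, Nat.testBit_or]
    rcases j with _ | j
    · simp only [List.getElem?_cons_zero, Option.some.injEq] at h
      subst h
      rw [if_pos hx, add_zero, Nat.testBit_two_pow_self, Bool.true_or]
    · simp only [List.getElem?_cons_succ] at h
      rw [show k + (j + 1) = (k + 1) + j by ring, ih (k + 1) j x h hx, Bool.or_true]

/-- the two masks for every row other than `v` -/
def pre (w v : ℕ) : List (ℕ × List ℕ) → ℕ → List (ℕ × ℕ × ℕ)
  | [], _ => []
  | (u, c) :: L, q => if Nat.beq u v = true then pre w v L (q + (w + 1))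
      else (u, bset v false c q, bset v true c q) :: pre w v L (q + (w + 1))

def selM (m : ℕ) : List (ℕ × ℕ × ℕ) → ℕ
  | [] => 0
  | (u, x0, x1) :: l => (Bool.rec (motive := fun _ => ℕ) x0 x1 (m.testBit u)) ||| selM m l

theorem selM_bit (w v m : ℕ) (R : ℕ → ℕ) (jj : ℕ → ℕ) (L : List (ℕ × List ℕ)) : ∀ (q : ℕ) (s : ℕ),
    (∀ k e, L[k]? = some e → e.2[jj (s + k)]? = some (R e.1) ∧
      (R e.1).testBit v = m.testBit e.1) →
    ∀ k e, L[k]? = some e → e.1 ≠ v →
      (selM m (pre w v L q)).testBit (q + (w + 1) * k + jj (s + k)) = true := by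
  induction L with
  | nil => intro q s _ k e he; simp at he
  | cons a L ih =>
    intro q s h k e he hv
    obtain ⟨u, c⟩ := a
    have ih' := ih (q + (w + 1)) (s + 1) (fun k e he => by
      have := h (k + 1) e (by simpa using he)
      rwa [show s + (k + 1) = s + 1 + k by ring] at this)
    rw [pre]
    rcases k with _ | k
    · simp only [List.getElem?_cons_zero, Option.some.injEq] at he
      subst he
      obtain ⟨h1, h2⟩ := h 0 (u, c) (by simp)
      simp only at h1 h2 hv
      have hb : ¬ Nat.beq u v = true := by rwa [Nat.beq_eq]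
      rw [if_neg hb, selM, Nat.testBit_or, mul_zero, add_zero]
      have := bset_bit v (m.testBit u) c q (jj (s + 0)) (R u) h1 h2
      rcases hm : m.testBit u with _ | _
      · rw [hm] at this
        simp only [this, Bool.true_or]
      · rw [hm] at this
        simp only [this, Bool.true_or]
    · simp only [List.getElem?_cons_succ] at he
      have h3 := ih' k e he hv
      rw [show q + (w + 1) * (k + 1) + jj (s + (k + 1)) =
        q + (w + 1) + (w + 1) * k + jj (s + 1 + k) by
          rw [show s + (k + 1) = s + 1 + k by ring]; ring]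
      split_ifs with hc
      · exact h3
      · rw [selM, Nat.testBit_or, h3, Bool.or_true]

/-- check of a tree for row `v`, whose block starts at bit `q` -/
def chkT (P : List (ℕ × ℕ × ℕ)) (c : List ℕ) (q : ℕ) : T → ℕ → Bool
  | .lf M, a => (fun s => Nat.beq (Nat.land M s) s) (selM (c.getD a 0) P) && M.testBit (q + a)
  | .nd m l r, a => (fun s => Nat.beq (Nat.land m s) s) ((2 ^ (l.sz + r.sz) - 1) * 2 ^ (q + a)) &&
      (chkT P c q l a && chkT P c q r (a + l.sz))

theorem sub_bit (M s j : ℕ) (h : Nat.beq (Nat.land M s) s = true) (hs : s.testBit j = true) :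
    M.testBit j = true := by
  rw [Nat.beq_eq] at h
  rw [← h, land_tb, Bool.and_eq_true] at hs
  exact hs.1

theorem run_sound (w n q C : ℕ) (hC : okC w C n q = true) (jj : ℕ → ℕ) (hj : ∀ k < n, jj k < w)
    (P : List (ℕ × ℕ × ℕ)) (c : List ℕ) (i : ℕ) (hi : i < n) (k : ℕ → Bool)
    (hP : ∀ k < n, k ≠ i → (selM (c.getD (jj i) 0) P).testBit (q + (w + 1) * k + jj k) = true)
    (hk : ∀ D, Pk w n q C jj D → k D = false) (t : T) : ∀ (a : ℕ),
    chkT P c (q + (w + 1) * i) t a = true → a ≤ jj i → jj i < a + t.sz →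
    ∀ D, Pk w n q C jj D → run C (gd w n q) k t D = false := by
  induction t with
  | lf M =>
    intro a h h1 h2 D hD
    simp only [T.sz] at h2
    have ha : jj i = a := by omega
    rw [chkT, Bool.and_eq_true] at h
    obtain ⟨g1, g2⟩ := h
    have hM : ∀ k < n, M.testBit (q + (w + 1) * k + jj k) = true := by
      intro k hkn
      by_cases hki : k = i
      · rw [hki, ha]; exact g2
      · exact sub_bit M _ _ g1 (by rw [← ha]; exact hP k hkn hki)
    have hE := hD.land M hM
    have hg := guard_all w n q C hC jj hj _ hE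
    change Bool.rec (motive := fun _ => Bool) true (k (Nat.land D M))
      (Nat.beq (Nat.land (Nat.add (Nat.land D M) C) (gd w n q)) (gd w n q)) = false
    rw [hg]
    exact hk _ hE
  | nd m l r ihl ihr =>
    intro a h h1 h2 D hD
    simp only [T.sz] at h2
    rw [chkT, Bool.and_eq_true, Bool.and_eq_true] at h
    obtain ⟨g1, g2, g3⟩ := h
    have hm : m.testBit (q + (w + 1) * i + jj i) = true := by
      apply sub_bit m _ _ g1
      rw [Nat.testBit_mul_two_pow, Nat.testBit_two_pow_sub_one]
      simp only [Bool.and_eq_true, decide_eq_true_eq]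
      omega
    have hz : Nat.beq (Nat.land D m) 0 = false :=
      beq_tb _ (q + (w + 1) * i + jj i) (by rw [land_tb, hm, hD.bit i hi]; rfl)
    change Bool.rec (motive := fun _ => Bool)
      (Bool.rec (motive := fun _ => Bool) false (run C (gd w n q) k r D) (run C (gd w n q) k l D))
        true (Nat.beq (Nat.land D m) 0) = false
    rw [hz]
    change Bool.rec (motive := fun _ => Bool) false (run C (gd w n q) k r D)
      (run C (gd w n q) k l D) = false
    by_cases hl : jj i < a + l.sz
    · rw [ihl a g2 h1 hl D hD]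
    · rw [ihr (a + l.sz) g3 (by omega) (by omega) D hD]
      cases run C (gd w n q) k l D <;> rfl

/-- check of all the trees -/
def chkL (w q : ℕ) (Lf : List (ℕ × List ℕ)) : List T → List (ℕ × List ℕ) → ℕ → Bool
  | t :: ts, (v, c) :: L, i => chkT (pre w v Lf q) c (q + (w + 1) * i) t 0 &&
      (Nat.beq t.sz c.length && chkL w q Lf ts L (i + 1))
  | [], [], _ => true
  | _, _, _ => false

theorem goT_sound (w q C : ℕ) (R : ℕ → ℕ) (jj : ℕ → ℕ) (Lf : List (ℕ × List ℕ))
    (hC : okC w C Lf.length q = true) (hj : ∀ k < Lf.length, jj k < w)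
    (hR : ∀ k e, Lf[k]? = some e → e.2[jj k]? = some (R e.1))
    (hs : ∀ e ∈ Lf, ∀ e' ∈ Lf, (R e.1).testBit e'.1 = (R e'.1).testBit e.1)
    (hnd : (Lf.map Prod.fst).Nodup) (ts : List T) : ∀ (L : List (ℕ × List ℕ)) (i : ℕ),
    chkL w q Lf ts L i = true → Lf.drop i = L →
    ∀ D, Pk w Lf.length q C jj D → goT C (gd w Lf.length q) ts D = false := by
  induction ts with
  | nil => intro L i _ _ D _; rfl
  | cons t ts ih =>
    intro L i h hL D hD
    rcases L with _ | ⟨⟨v, c⟩, L⟩
    · simp [chkL] at h
    · rw [chkL, Bool.and_eq_true, Bool.and_eq_true] at h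
      obtain ⟨g1, g2, g3⟩ := h
      have hi : i < Lf.length := by
        by_contra hc
        rw [List.drop_eq_nil_of_le (by omega)] at hL
        exact List.cons_ne_nil _ _ hL.symm
      have hget : Lf[i]? = some (v, c) := by
        rw [List.drop_eq_getElem_cons hi] at hL
        rw [List.getElem?_eq_getElem hi]
        exact congrArg some (List.cons.inj hL).1
      have hdrop : Lf.drop (i + 1) = L := by
        rw [List.drop_eq_getElem_cons hi] at hL
        exact (List.cons.inj hL).2
      have hRi := hR i (v, c) hget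
      simp only at hRi
      have hlen : jj i < c.length := by
        rw [List.getElem?_eq_some_iff] at hRi
        exact hRi.1
      have hmem : (v, c) ∈ Lf := List.mem_of_getElem? hget
      have hgd : c.getD (jj i) 0 = R v := by
        rw [List.getD_eq_getElem?_getD, hRi]; rfl
      refine run_sound w Lf.length q C hC jj hj (pre w v Lf q) c i hi (goT C (gd w Lf.length q) ts)
        ?_ (ih L (i + 1) g3 hdrop) t 0 g1 (Nat.zero_le _) ?_ D hD
      · intro k hk hki
        rw [hgd]
        have := selM_bit w v (R v) R jj Lf q 0 (fun k e he => by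
          rw [zero_add]
          exact ⟨hR k e he, hs e (List.mem_of_getElem? he) (v, c) hmem⟩) k Lf[k]
            (List.getElem?_eq_getElem hk) ?_
        · rwa [zero_add] at this
        · intro hkv
          apply hki
          have h1 : (Lf.map Prod.fst)[k]? = (Lf.map Prod.fst)[i]? := by
            rw [List.getElem?_map, List.getElem?_map, hget, List.getElem?_eq_getElem hk]
            exact congrArg some hkv
          have hkl : k < (Lf.map Prod.fst).length := by rwa [List.length_map]
          exact (List.getElem?_inj hkl hnd).1 h1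
      · rw [Nat.beq_eq] at g2
        rw [g2, zero_add]; exact hlen

/-- `Lf` contains the candidate lists -/
def cov : List (ℕ × List ℕ) → List (ℕ × List ℕ) → Bool
  | [], [] => true
  | (u, c) :: L, (v, c') :: L' => Nat.beq u v && (c.all (fun x => c'.any (fun y => Nat.beq x y)) &&
      cov L L')
  | _, _ => false

theorem cov_sol (R : ℕ → ℕ) (L : List (ℕ × List ℕ)) : ∀ L', cov L L' = true → Sol R L →
    Sol R L' := by
  induction L with
  | nil =>
    intro L' h hs
    rcases L' with _ | ⟨⟨v, c'⟩, L'⟩
    · exact hs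
    · simp [cov] at h
  | cons e L ih =>
    intro L' h hs
    obtain ⟨u, c⟩ := e
    rcases L' with _ | ⟨⟨v, c'⟩, L'⟩
    · simp [cov] at h
    · rw [cov, Bool.and_eq_true, Bool.and_eq_true] at h
      obtain ⟨h1, h2, h3⟩ := h
      rw [Nat.beq_eq] at h1
      subst h1
      have h4 := ih L' h3 (fun e he => hs e (List.mem_cons_of_mem _ he))
      intro e he
      rw [List.mem_cons] at he
      rcases he with rfl | he
      · have h5 := hs (u, c) List.mem_cons_self
        simp only at h5 ⊢
        rw [List.all_eq_true] at h2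
        have h6 := h2 _ h5
        rw [List.any_eq_true] at h6
        obtain ⟨y, hy, hxy⟩ := h6
        rw [Nat.beq_eq] at hxy
        rwa [hxy]
      · exact h4 e he

/-- the initial domains -/
def okD (w D : ℕ) : List (ℕ × List ℕ) → ℕ → Bool
  | [], _ => true
  | (_, c) :: L, q => (fun s => Nat.beq (Nat.land D s) s) ((2 ^ c.length - 1) * 2 ^ q) &&
      (!(D.testBit (q + w)) && (Nat.ble c.length w && okD w D L (q + (w + 1))))

theorem okD_sp (w D : ℕ) (L : List (ℕ × List ℕ)) : ∀ q, okD w D L q = true →
    ∀ k e, L[k]? = some e → (∀ j < e.2.length, D.testBit (q + (w + 1) * k + j) = true) ∧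
      D.testBit (q + (w + 1) * k + w) = false ∧ e.2.length ≤ w := by
  induction L with
  | nil => intro q _ k e he; simp at he
  | cons a L ih =>
    intro q h k e he
    obtain ⟨u, c⟩ := a
    rw [okD, Bool.and_eq_true, Bool.and_eq_true, Bool.and_eq_true] at h
    obtain ⟨h1, h2, h3, h4⟩ := h
    rcases k with _ | k
    · simp only [List.getElem?_cons_zero, Option.some.injEq] at he
      subst he
      rw [mul_zero, add_zero]
      refine ⟨fun j hj => ?_, by simpa using h2, Nat.le_of_ble_eq_true h3⟩
      apply sub_bit D _ _ h1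
      rw [Nat.testBit_mul_two_pow, Nat.testBit_two_pow_sub_one]
      simp only at hj
      simp only [Bool.and_eq_true, decide_eq_true_eq]
      omega
    · simp only [List.getElem?_cons_succ] at he
      have := ih _ h4 k e he
      rw [show q + (w + 1) * (k + 1) = q + (w + 1) + (w + 1) * k by ring]
      exact this

theorem no_sol3 (n : ℕ) (d : ℤ) (ord : List ℕ) (hord : ∀ i ∈ ord, i < n) (hnd : ord.Nodup)
    (w q C G D : ℕ) (Lf : List (ℕ × List ℕ)) (ts : List T)
    (h1 : cov (cands n d ord) Lf = true) (h2 : okC w C Lf.length q = true)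
    (h3 : okD w D Lf q = true) (h4 : chkL w q Lf ts Lf 0 = true)
    (h5 : goT C G ts D = true) (h6 : Lf.map Prod.fst = ord) (h7 : gd w Lf.length q = G)
    (A : ℕ → ℕ → Bool)
    (hs : ∀ i j, A i j = A j i)
    (hi : ∀ i, A i i = false) (hc : ∀ i < n, cnt (A i) n = 4)
    (hm : ∀ i < n, sml (fun j => (j:ℤ) - ((n - 1) / 2 : ℕ)) (A i) n =
      d * ((i:ℤ) - ((n - 1) / 2 : ℕ))) : False := by
  have hsol : Sol (fun i => mask (A i) n) (cands n d ord) := by
    intro e he
    rw [cands, List.mem_map] at he
    obtain ⟨i, hi1, rfl⟩ := he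
    have hin := hord i hi1
    simp only
    rw [List.mem_filter]
    constructor
    · have := mem_subs (fun j => (j:ℤ) - ((n - 1) / 2 : ℕ)) (A i) n
      rw [hc i hin, hm i hin] at this
      exact this
    · rw [mask_testBit _ _ _ hin, hi]; rfl
  have hsol2 := cov_sol _ _ _ h1 hsol
  have hex : ∀ k : ℕ, ∃ j : ℕ, ∀ e : ℕ × List ℕ, Lf[k]? = some e →
      e.2[j]? = some (mask (A e.1) n) := by
    intro k
    rcases hk : Lf[k]? with _ | e
    · exact ⟨0, by simp⟩
    · obtain ⟨j, hj, hj2⟩ := List.mem_iff_getElem.1 (hsol2 e (List.mem_of_getElem? hk))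
      refine ⟨j, fun e' he' => ?_⟩
      rw [← Option.some.inj he', List.getElem?_eq_getElem hj, hj2]
  choose jj hjj using hex
  have hok := okD_sp w D Lf q h3
  have hlt : ∀ k e, Lf[k]? = some e → jj k < e.2.length := by
    intro k e he
    have := hjj k e he
    rw [List.getElem?_eq_some_iff] at this
    exact this.1
  have hfin := goT_sound w q C (fun i => mask (A i) n) jj Lf h2 ?_ hjj ?_ ?_ ts Lf 0 h4
    (List.drop_zero) D ?_
  · rw [h7, h5] at hfin; exact Bool.noConfusion hfin
  · intro k hk
    have g1 := hlt k _ (List.getElem?_eq_getElem hk)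
    have g2 := (hok k _ (List.getElem?_eq_getElem hk)).2.2
    omega
  · intro e he e' he'
    have g1 : e.1 ∈ ord := by rw [← h6]; exact List.mem_map_of_mem he
    have g2 : e'.1 ∈ ord := by rw [← h6]; exact List.mem_map_of_mem he'
    rw [mask_testBit _ _ _ (hord _ g1), mask_testBit _ _ _ (hord _ g2), hs]
  · rw [h6]; exact hnd
  · refine ⟨fun k hk => ?_, fun k hk => ?_⟩
    · exact (hok k _ (List.getElem?_eq_getElem hk)).1 _ (hlt k _ (List.getElem?_eq_getElem hk))
    · exact (hok k _ (List.getElem?_eq_getElem hk)).2.1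

end Pool.Agent.R12.DM
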