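import Pool.Agent.R12.DM5

set_option autoImplicit false

namespace Pool.Agent.R12.DM

def T_8_12 : List (List ℤ) := [[-7,-5,-3,-2,-1,0,1,2,3,5,7,8],[-8,-6,-5,-4,-2,-1,3,4,5,6,7,8],[-7,-4,-3,-2,-1,0,1,2,3,4,6,7],[-8,-7,-4,-3,-2,0,1,3,4,6,7,8],[-7,-6,-5,-3,-1,0,1,2,4,5,6,8],[-8,-6,-5,-4,-1,0,1,2,4,5,7,8],[-8,-7,-6,-5,0,1,2,3,4,5,6,7],[-8,-7,-6,-4,-3,1,2,3,4,5,6,8],[-8,-6,-5,-4,-3,-2,2,3,4,5,6,8],[-8,-6,-5,-4,-3,-2,-1,2,5,6,7,8],[-8,-6,-4,-3,-2,-1,0,1,3,5,6,7],[-8,-7,-6,-5,-2,-1,0,2,4,5,7,8],[-7,-6,-5,-4,-3,-2,-1,0,3,6,7,8],[-8,-7,-4,-3,-2,-1,0,1,2,3,6,8],[-7,-6,-5,-4,-2,-1,0,1,2,4,5,7],[-8,-7,-6,-5,-3,-2,1,2,3,4,6,8],[-8,-7,-5,-4,-3,-1,0,1,3,4,5,7]]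

theorem st_8_12 : St 8 4 1 1 :=
  chk_sound 8 12 1 1 T_8_12 [6,8] (by decide +kernel) _ (by norm_num)

def T_6_6 : List (List ℤ) := [[-4,-3,1,3,4,5],[-4,-2,-1,2,4,6],[-6,-5,0,4,5,6],[-6,-1,0,1,3,6],[-5,-1,0,1,2,5],[-5,-3,-2,2,3,6],[-4,-3,-2,2,3,4],[-6,-3,-2,2,3,5],[-5,-2,-1,0,1,5],[-6,-3,-1,0,1,6],[-6,-5,-4,0,5,6],[-6,-4,-2,1,2,4],[-5,-4,-3,-1,3,4]]

theorem st_6_6 : St 6 6 1 2 :=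
  chk_sound 6 6 1 2 T_6_6 [2,3,4] (by decide +kernel) _ (by norm_num)

def T_7_8 : List (List ℤ) := [[-6,-5,-1,1,2,3,6,7],[-7,-3,-2,-1,1,5,6,7],[-7,-4,0,1,2,3,4,6],[-5,-3,-2,0,2,3,4,5],[-6,-4,-2,-1,0,4,5,7],[-6,-4,-3,-1,0,4,5,7],[-7,-6,-3,-2,1,5,6,7],[-5,-4,-3,-2,2,3,4,5],[-7,-6,-5,-1,2,3,6,7],[-7,-5,-4,0,1,3,4,6],[-7,-5,-4,0,1,2,4,6],[-5,-4,-3,-2,0,2,3,5],[-6,-4,-3,-2,-1,0,4,7],[-7,-6,-5,-1,1,2,3,7],[-7,-6,-3,-2,-1,1,5,6]]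

theorem st_7_8 : St 7 6 0 0 :=
  chk_sound 7 8 0 0 T_7_8 [] (by decide +kernel) _ (by norm_num)

def T_9_12 : List (List ℤ) := [[-8,-6,-5,-3,-1,1,2,3,4,5,8,9],[-9,-7,-6,-3,-2,0,2,3,6,7,8,9],[-8,-5,-4,-2,-1,0,1,3,4,5,6,8],[-9,-8,-5,-3,-1,1,2,3,5,6,7,8],[-9,-7,-6,-4,-2,0,2,4,5,6,7,9],[-7,-5,-3,-2,-1,0,1,2,3,4,5,7],[-9,-8,-6,-4,-2,0,1,2,5,7,8,9],[-8,-7,-5,-4,-3,-1,0,3,4,6,8,9],[-9,-7,-6,-4,-2,0,1,2,4,6,7,9],[-8,-7,-5,-4,-3,-2,-1,1,5,7,8,9],[-9,-7,-6,-4,-3,-1,0,3,4,6,7,9],[-9,-8,-6,-5,-4,-3,-1,4,6,7,8,9],[-9,-8,-7,-6,-4,-2,1,4,5,6,8,9],[-9,-7,-5,-4,-2,-1,1,2,3,5,6,7],[-9,-7,-6,-5,-4,-3,0,3,4,6,7,9],[-8,-7,-6,-5,-2,-1,1,2,3,4,5,8],[-8,-6,-5,-4,-3,-1,0,1,2,4,5,8],[-9,-8,-7,-6,-3,-2,0,2,3,6,7,9],[-9,-8,-5,-3,-2,-1,0,1,2,3,5,8]]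

theorem st_9_12 : St 9 6 1 2 :=
  chk_sound 9 12 1 2 T_9_12 [1,5,8] (by decide +kernel) _ (by norm_num)

def T_7_6 : List (List ℤ) := [[-6,-1,0,3,4,7],[-7,-3,2,3,5,6],[-4,-2,0,1,4,6],[-5,-3,-2,2,5,7],[-6,-4,-1,1,6,7],[-5,-4,0,1,4,6],[-7,-3,1,2,3,5],[-7,-5,-2,2,5,7],[-5,-3,-2,-1,3,7],[-6,-4,-1,0,4,5],[-7,-6,-1,1,4,6],[-7,-5,-2,2,3,5],[-6,-4,-1,0,2,4],[-6,-5,-3,-2,3,7],[-7,-4,-3,0,1,6]]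

theorem st_7_6 : St 7 8 2 2 :=
  chk_sound 7 6 2 2 T_7_6 [1,2,3,4,5,6,7] (by decide +kernel) _ (by norm_num)

def T_7_4 : List (List ℤ) := [[-2,-1,4,6],[-4,1,2,7],[-3,0,3,5],[-6,1,2,7],[-5,0,3,5],[-7,-1,4,6],[-7,-2,4,6],[-5,-3,3,5],[-6,-4,2,7],[-6,-4,1,7],[-5,-3,0,5],[-7,-2,-1,6],[-5,-3,0,3],[-7,-2,-1,4],[-6,-4,1,2]]

theorem st_7_4 : St 7 10 0 0 :=
  chk_sound 7 4 0 0 T_7_4 [] (by decide +kernel) _ (by norm_num)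

def T_8_6 : List (List ℤ) := [[-7,-2,1,2,6,8],[-8,-4,3,4,5,7],[-5,-4,-3,4,6,8],[-6,-1,0,1,4,7],[-7,-6,-1,5,6,7],[-6,-2,-1,2,3,7],[-8,-3,0,2,3,8],[-5,-4,-3,0,5,8],[-5,-2,-1,1,2,5],[-8,-5,0,3,4,5],[-8,-3,-2,0,3,8],[-7,-3,-2,1,2,6],[-7,-6,-5,1,6,7],[-7,-4,-1,0,1,6],[-8,-6,-4,3,4,5],[-7,-5,-4,-3,4,8],[-8,-6,-2,-1,2,7]]

theorem st_8_6 : St 8 10 2 3 :=
  chk_sound 8 6 2 3 T_8_6 [1,2,3,4,5,6,7,8] (by decide +kernel) _ (by norm_num)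

def T_9_8 : List (List ℤ) := [[-5,-3,-2,0,1,4,5,9],[-5,-4,-1,1,2,3,4,8],[-5,-2,-1,0,1,2,5,7],[-4,-3,-2,-1,2,3,5,6],[-9,-8,-7,3,4,6,7,9],[-8,-6,-3,-1,0,5,8,9],[-9,-6,-4,0,3,5,6,8],[-9,-7,-6,1,2,6,7,8],[-8,-7,-6,-4,2,7,8,9],[-9,-7,-4,-3,3,4,7,9],[-9,-8,-7,-2,4,6,7,8],[-8,-7,-6,-2,-1,6,7,9],[-8,-6,-5,-3,0,4,6,9],[-9,-8,-5,0,1,3,6,8],[-9,-7,-6,-4,-3,7,8,9],[-6,-5,-3,-2,1,2,3,4],[-7,-5,-2,-1,0,1,2,5],[-8,-4,-3,-2,-1,1,4,5],[-9,-5,-4,-1,0,2,3,5]]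

theorem st_9_8 : St 9 10 2 3 :=
  chk_sound 9 8 2 3 T_9_8 [6,7,8,9] (by decide +kernel) _ (by norm_num)

def T_8_4 : List (List ℤ) := [[-5,1,4,8],[-2,0,2,7],[-4,-1,5,6],[-8,2,5,6],[-6,-1,3,8],[-2,0,1,4],[-7,-3,5,7],[-6,-4,3,8],[-7,-3,3,7],[-8,-3,4,6],[-7,-5,3,7],[-4,-1,0,2],[-8,-3,1,6],[-6,-5,-2,8],[-6,-5,1,4],[-7,-2,0,2],[-8,-4,-1,5]]

theorem st_8_4 : St 8 12 3 3 :=
  chk_sound 8 4 3 3 T_8_4 [1,2,3,4,5,6,7,8] (by decide +kernel) _ (by norm_num)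

def T_9_4 : List (List ℤ) := [[-1,0,4,6],[-3,2,3,6],[-5,-1,5,8],[-3,-2,4,7],[-7,-4,7,9],[-5,1,3,5],[-8,-6,8,9],[-6,0,1,7],[-9,-7,8,9],[-9,-2,2,9],[-4,-2,2,3],[-8,0,1,5],[-8,-4,1,8],[-9,-6,5,6],[-7,-4,2,4],[-9,-8,4,7],[-6,-5,-2,6],[-7,-3,-1,3],[-5,-3,-1,0]]

theorem st_9_4 : St 9 14 0 0 :=
  chk_sound 9 4 0 0 T_9_4 [] (by decide +kernel) _ (by norm_num)

def T_10_6 : List (List ℤ) := [[-5,-1,0,1,5,10],[-3,-2,-1,1,5,9],[-6,-4,2,3,6,7],[-5,-3,0,3,4,8],[-8,-4,1,3,6,8],[-10,-7,-1,4,9,10],[-8,-6,2,4,5,7],[-9,-7,-2,6,7,8],[-9,-3,0,2,4,8],[-10,-9,-5,6,9,10],[-10,-7,-2,2,7,10],[-10,-9,-6,5,9,10],[-8,-4,-2,0,3,9],[-8,-7,-6,2,7,9],[-7,-5,-4,-2,6,8],[-10,-9,-4,1,7,10],[-8,-6,-3,-1,4,8],[-8,-4,-3,0,3,5],[-7,-6,-3,-2,4,6],[-9,-5,-1,1,2,3],[-10,-5,-1,0,1,5]]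

theorem st_10_6 : St 10 14 3 4 :=
  chk_sound 10 6 3 4 T_10_6 [1,2,3,4,5,6,7,8,9,10] (by decide +kernel) _ (by norm_num)

def T_11_8 : List (List ℤ) := [[-10,-3,0,1,2,3,7,11],[-11,-9,-8,4,7,8,9,10],[-10,-7,-2,-1,2,8,9,10],[-10,-7,-2,-1,1,8,9,10],[-9,-8,-5,-4,5,7,10,11],[-3,-2,-1,0,1,2,3,6],[-7,-4,-3,0,3,4,5,7],[-7,-5,-2,-1,0,4,5,10],[-11,-6,-5,1,2,5,6,11],[-9,-8,-6,-4,3,6,9,11],[-9,-8,-6,-4,3,6,8,11],[-11,-6,-5,-4,4,5,6,11],[-11,-8,-6,-3,4,6,8,9],[-11,-9,-6,-3,4,6,8,9],[-11,-6,-5,-2,-1,5,6,11],[-10,-5,-4,0,1,2,5,7],[-7,-5,-4,-3,0,3,4,7],[-6,-3,-2,-1,0,1,2,3],[-11,-10,-7,-5,4,5,8,9],[-10,-9,-8,-1,1,2,7,10],[-10,-9,-8,-2,1,2,7,10],[-10,-9,-8,-7,-4,8,9,11],[-11,-7,-3,-2,-1,0,3,10]]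

theorem st_11_8 : St 11 14 3 4 :=
  chk_sound 11 8 3 4 T_11_8 [1,2,3,4,5,6,7,8,9,10,11] (by decide +kernel) _ (by norm_num)

def T_10_4 : List (List ℤ) := [[-8,3,5,10],[-3,-1,6,7],[-10,4,6,8],[-6,1,3,9],[-7,-4,8,9],[-3,-2,0,10],[-6,0,2,8],[-9,-5,7,10],[-5,1,2,4],[-9,1,2,7],[-5,-4,4,5],[-7,-2,-1,9],[-4,-2,-1,5],[-10,-7,5,9],[-8,-2,0,6],[-10,0,2,3],[-9,-8,4,7],[-9,-3,-1,6],[-8,-6,-4,10],[-7,-6,1,3],[-10,-5,-3,8]]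

theorem st_10_4 : St 10 16 4 4 :=
  chk_sound 10 4 4 4 T_10_4 [1,2,3,4,5,6,7,8,9,10] (by decide +kernel) _ (by norm_num)

def T_11_4 : List (List ℤ) := [[-5,1,5,10],[-4,-3,6,11],[-6,-1,7,9],[-7,3,4,8],[-8,0,6,9],[-9,-2,7,10],[-11,2,3,11],[-10,2,4,8],[-10,0,5,8],[-6,-1,4,5],[-9,-2,1,11],[-7,-3,3,7],[-11,-1,2,9],[-5,-4,1,6],[-8,-5,0,10],[-8,-4,-2,10],[-11,-3,-2,11],[-10,-7,2,9],[-9,-6,0,8],[-8,-4,-3,7],[-9,-7,1,6],[-11,-6,3,4],[-10,-5,-1,5]]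

theorem st_11_4 : St 11 18 4 5 :=
  chk_sound 11 4 4 5 T_11_4 [1,2,3,4,5,6,7,8,9,10,11] (by decide +kernel) _ (by norm_num)

def T_12_4 : List (List ℤ) := [[-4,-2,6,12],[-6,4,5,8],[-8,2,6,10],[-5,0,5,9],[-10,-1,8,11],[-3,0,3,7],[-11,-5,10,12],[-9,-6,9,11],[-12,1,4,11],[-7,1,2,7],[-12,1,3,10],[-8,2,3,4],[-9,-7,7,9],[-4,-3,-2,8],[-10,-3,-1,12],[-7,-2,-1,7],[-11,-4,-1,12],[-11,-9,6,9],[-12,-10,5,11],[-7,-3,0,3],[-11,-8,1,10],[-9,-5,0,5],[-10,-6,-2,8],[-8,-5,-4,6],[-12,-6,2,4]]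

theorem st_12_4 : St 12 20 5 5 :=
  chk_sound 12 4 5 5 T_12_4 [1,2,3,4,5,6,7,8,9,10,11,12] (by decide +kernel) _ (by norm_num)

def T_13_4 : List (List ℤ) := [[-11,5,9,10],[-4,0,4,12],[-13,6,8,10],[-9,-5,11,13],[-10,-1,7,13],[-6,1,2,11],[-3,-2,3,9],[-8,1,2,11],[-10,-2,4,13],[-12,-1,5,12],[-7,0,3,7],[-7,-5,6,8],[-9,-4,6,8],[-12,-3,3,12],[-8,-6,4,9],[-8,-6,5,7],[-7,-3,0,7],[-12,-5,1,12],[-13,-4,2,10],[-11,-2,-1,8],[-9,-3,2,3],[-11,-2,-1,6],[-13,-7,1,10],[-13,-11,5,9],[-10,-8,-6,13],[-12,-4,0,4],[-10,-9,-5,11]]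

theorem st_13_4 : St 13 22 5 6 :=
  chk_sound 13 4 5 6 T_13_4 [1,2,3,4,5,6,7,8,9,10,11,12,13] (by decide +kernel) _ (by norm_num)

def T_14_4 : List (List ℤ) := [[-9,-1,10,14],[-7,3,7,10],[-2,1,2,11],[-10,4,5,12],[-11,-6,13,14],[-14,6,8,9],[-5,-4,8,9],[-13,0,7,13],[-10,1,6,9],[-8,-3,5,11],[-8,-3,4,11],[-5,-4,-1,13],[-12,0,2,12],[-14,-3,6,12],[-7,-2,2,7],[-12,-6,3,14],[-12,-2,0,12],[-13,1,4,5],[-11,-4,3,8],[-11,-5,3,8],[-9,-6,-1,10],[-13,-7,0,13],[-9,-8,4,5],[-9,-8,-6,14],[-14,-13,6,11],[-12,-5,-4,10],[-11,-2,-1,2],[-10,-7,-3,7],[-14,-10,1,9]]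

theorem st_14_4 : St 14 24 6 6 :=
  chk_sound 14 4 6 6 T_14_4 [1,2,3,4,5,6,7,8,9,10,11,12,13,14] (by decide +kernel) _ (by norm_num)

def T_15_4 : List (List ℤ) := [[-11,5,8,13],[0,1,3,10],[-12,-1,11,15],[-13,6,7,12],[-15,4,9,13],[-8,-3,7,14],[-7,-4,9,11],[-10,-5,8,15],[-9,-6,10,12],[-7,-5,6,12],[-8,-6,4,15],[-9,-3,5,11],[-10,-4,3,14],[-1,0,1,2],[-13,-2,2,14],[-14,-2,2,14],[-14,-2,2,13],[-2,-1,0,1],[-14,-3,4,10],[-11,-5,3,9],[-15,-4,6,8],[-12,-6,5,7],[-12,-10,6,9],[-15,-8,5,10],[-11,-9,4,7],[-14,-7,3,8],[-13,-9,-4,15],[-12,-7,-6,13],[-15,-11,1,12],[-10,-3,-1,0],[-13,-8,-5,11]]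

theorem st_15_4 : St 15 26 6 7 :=
  chk_sound 15 4 6 7 T_15_4 [1,2,3,4,5,6,7,8,9,10,11,12,13,14,15] (by decide +kernel) _ (by norm_num)

def T_16_4 : List (List ℤ) := [[-1,1,6,10],[-8,0,8,15],[-13,5,8,14],[-14,3,11,13],[-6,-3,9,12],[-10,1,7,13],[-11,-1,6,16],[-7,0,4,12],[-15,-6,14,15],[-9,2,3,11],[-12,-8,10,16],[-4,-3,-2,14],[-5,-2,2,9],[-12,-5,7,13],[-5,-4,4,7],[-16,-10,11,16],[-15,-9,9,15],[-16,-11,10,16],[-7,-4,4,5],[-13,-7,5,12],[-9,-2,2,5],[-14,2,3,4],[-16,-10,8,12],[-11,-3,-2,9],[-15,-14,6,15],[-12,-4,0,7],[-16,-6,1,11],[-13,-7,-1,10],[-12,-9,3,6],[-13,-11,-3,14],[-14,-8,-5,13],[-15,-8,0,8],[-10,-6,-1,1]]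

theorem st_16_4 : St 16 28 7 7 :=
  chk_sound 16 4 7 7 T_16_4 [1,2,3,4,5,6,7,8,9,10,11,12,13,14,15,16] (by decide +kernel) _ (by norm_num)

def T_17_4 : List (List ℤ) := [[-15,8,9,15],[-8,-2,10,16],[-17,2,13,17],[-13,6,9,12],[-14,4,8,15],[-9,-4,11,14],[-5,-1,5,12],[-9,0,3,16],[-12,-10,14,17],[-16,-6,13,17],[-3,1,2,7],[-8,-3,3,14],[-11,1,4,11],[-12,-2,5,13],[-7,-6,6,10],[-16,-4,7,15],[-11,0,5,7],[-10,-1,1,10],[-7,-5,0,11],[-15,-7,4,16],[-10,-6,6,7],[-13,-5,2,12],[-11,-4,-1,11],[-14,-3,3,8],[-7,-2,-1,3],[-17,-13,6,16],[-17,-14,10,12],[-16,-3,0,9],[-12,-5,1,5],[-14,-11,4,9],[-15,-8,-4,14],[-12,-9,-6,13],[-17,-13,-2,17],[-16,-10,2,8],[-15,-9,-8,15]]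

theorem st_17_4 : St 17 30 7 8 :=
  chk_sound 17 4 7 8 T_17_4 [1,2,3,4,5,6,7,8,9,10,11,12,13,14,15,16,17] (by decide +kernel) _ (by norm_num)

def T_18_4 : List (List ℤ) := [[-14,1,13,18],[-12,7,10,12],[-3,0,3,16],[-7,4,5,13],[-18,9,11,12],[-11,-9,15,18],[-17,-2,14,17],[-13,2,8,14],[-8,-5,6,17],[-13,-1,9,14],[-10,-1,8,11],[-15,2,3,17],[-5,-4,5,10],[-10,-6,6,15],[-6,-3,-2,15],[-16,-4,7,16],[-12,-4,7,11],[-9,-8,0,18],[-16,-1,1,16],[-18,0,8,9],[-11,-7,4,12],[-16,-7,4,16],[-15,2,3,6],[-15,-6,6,10],[-10,-5,4,5],[-17,-3,-2,15],[-11,-8,1,10],[-14,-9,1,13],[-17,-6,5,8],[-14,-8,-2,13],[-17,-14,2,17],[-18,-15,9,11],[-12,-11,-9,18],[-13,-5,-4,7],[-16,-3,0,3],[-12,-10,-7,12],[-18,-13,-1,14]]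

theorem st_18_4 : St 18 32 8 8 :=
  chk_sound 18 4 8 8 T_18_4 [1,2,3,4,5,6,7,8,9,10,11,12,13,14,15,16,17,18] (by decide +kernel) _ (by norm_num)

def T_19_4 : List (List ℤ) := [[-18,8,12,17],[-19,5,14,18],[-9,1,6,19],[-8,-1,9,16],[-7,0,9,13],[-4,-1,1,18],[-12,0,10,15],[-13,-6,12,19],[-10,4,7,10],[-11,-3,11,13],[-17,-5,15,16],[-16,-2,7,19],[-15,3,8,11],[-12,-5,6,17],[-9,-6,2,18],[-14,3,4,11],[-10,2,4,7],[-8,2,3,5],[-16,-14,14,17],[-15,-13,13,15],[-17,-14,14,16],[-5,-3,-2,8],[-7,-4,-2,10],[-11,-4,-3,14],[-18,-2,6,9],[-17,-6,5,12],[-11,-8,-3,15],[-19,-7,2,16],[-16,-15,5,17],[-13,-11,3,11],[-10,-7,-4,10],[-19,-12,6,13],[-15,-10,0,12],[-18,-1,1,4],[-13,-9,0,7],[-16,-9,1,8],[-19,-6,-1,9],[-18,-14,-5,19],[-17,-12,-8,18]]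

theorem st_19_4 : St 19 34 8 9 :=
  chk_sound 19 4 8 9 T_19_4 [1,2,3,4,5,6,7,8,9,10,11,12,13,14,15,16,17,18,19] (by decide +kernel) _ (by norm_num)

def T_21_4 : List (List ℤ) := [[-15,3,16,17],[-13,9,11,13],[-16,5,12,18],[-11,-1,11,19],[-12,0,8,21],[-19,1,13,21],[-21,10,12,14],[-8,0,7,15],[-20,-3,16,20],[-17,-5,15,19],[-18,-9,18,20],[-7,-2,4,15],[-11,-6,6,20],[-14,-3,8,17],[-10,-4,7,14],[-9,2,4,9],[-12,-4,2,19],[-7,-5,6,10],[-13,-8,3,21],[-10,1,5,6],[-18,1,2,16],[-17,-14,14,17],[-16,-2,-1,18],[-6,-5,-1,10],[-21,-3,8,13],[-10,-6,5,7],[-19,-2,4,12],[-9,-4,-2,9],[-14,-7,4,10],[-17,-8,3,14],[-20,-6,6,11],[-15,-4,2,7],[-20,-18,9,18],[-19,-15,5,17],[-20,-16,3,20],[-15,-7,0,8],[-14,-12,-10,21],[-21,-13,-1,19],[-21,-8,0,12],[-19,-11,1,11],[-18,-12,-5,16],[-13,-11,-9,13],[-17,-16,-3,15]]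

theorem st_21_4 : St 21 38 9 10 :=
  chk_sound 21 4 9 10 T_21_4 [1,2,3,4,5,6,7,8,9,10,11,12,13,14,15,16,17,18,19,20,21] (by decide +kernel) _ (by norm_num)

def T_22_4 : List (List ℤ) := [[-20,10,11,21],[-11,-10,20,22],[-22,10,11,21],[-17,5,15,16],[-4,1,9,12],[-19,5,15,16],[-15,-5,17,19],[-16,-5,17,19],[-13,0,13,14],[-14,0,13,14],[-9,-1,4,18],[-21,-10,20,22],[-21,-11,20,22],[-12,-1,4,18],[-3,-2,6,7],[-6,2,3,8],[-7,2,3,8],[-16,-15,17,19],[-18,1,9,12],[-8,-2,6,7],[-8,-3,6,7],[-12,-9,4,18],[-14,-13,13,14],[-18,-4,9,12],[-7,-6,3,8],[-7,-6,2,8],[-12,-9,-1,18],[-19,-17,15,16],[-8,-3,-2,7],[-8,-3,-2,6],[-7,-6,2,3],[-18,-4,1,12],[-22,-20,11,21],[-22,-20,10,21],[-18,-4,1,9],[-14,-13,0,14],[-14,-13,0,13],[-19,-17,5,16],[-19,-17,5,15],[-16,-15,-5,19],[-12,-9,-1,4],[-16,-15,-5,17],[-21,-11,-10,22],[-22,-20,10,11],[-21,-11,-10,20]]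

theorem st_22_4 : St 22 40 10 10 :=
  chk_sound 22 4 10 10 T_22_4 [1,2,3,4,5,6,7,8,9,10,11,12,13,14,15,16,17,18,19,20,21,22] (by decide +kernel) _ (by norm_num)

def T_23_4 : List (List ℤ) := [[-16,6,15,18],[-10,4,7,21],[-7,-4,10,22],[-8,2,9,17],[-12,5,12,14],[-15,-6,16,23],[-9,-2,8,20],[-23,6,15,18],[-18,-6,16,23],[-11,-5,11,19],[-3,0,3,13],[-19,1,11,19],[-14,-1,12,14],[-22,4,7,21],[-17,-2,8,20],[-20,2,9,17],[-21,-4,10,22],[-18,-15,16,23],[-14,-1,1,19],[-21,-7,10,22],[-13,0,3,13],[-17,-9,8,20],[-11,-5,5,12],[-13,-3,3,13],[-12,-5,5,11],[-20,-8,9,17],[-13,-3,0,13],[-22,-10,7,21],[-19,-1,1,14],[-23,-16,15,18],[-22,-10,4,21],[-17,-9,-2,20],[-20,-8,2,17],[-21,-7,-4,22],[-14,-12,1,14],[-19,-11,-1,19],[-13,-3,0,3],[-19,-11,5,11],[-23,-16,6,18],[-18,-15,-6,23],[-20,-8,2,9],[-23,-16,6,15],[-14,-12,-5,12],[-17,-9,-2,8],[-22,-10,4,7],[-21,-7,-4,10],[-18,-15,-6,16]]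

theorem st_23_4 : St 23 42 10 11 :=
  chk_sound 23 4 10 11 T_23_4 [1,2,3,4,5,6,7,8,9,10,11,12,13,14,15,16,17,18,19,20,21,22,23] (by decide +kernel) _ (by norm_num)

def T_27_4 : List (List ℤ) := [[-15,2,17,23],[-6,-5,18,19],[-13,0,13,25],[-16,4,14,22],[-17,-2,15,27],[-14,-4,16,24],[-1,3,8,11],[-9,7,10,12],[-18,5,6,26],[-19,5,6,26],[-23,-2,15,27],[-24,4,14,22],[-27,2,17,23],[-22,-4,16,24],[-25,0,13,25],[-10,-7,9,20],[-8,-3,1,21],[-12,-7,9,20],[-20,7,10,12],[-11,-3,1,21],[-12,-10,9,20],[-26,-5,18,19],[-26,-6,18,19],[-22,-14,16,24],[-11,-8,1,21],[-23,-17,15,27],[-21,3,8,11],[-25,-13,13,25],[-11,-8,-3,21],[-27,-15,17,23],[-21,-1,8,11],[-24,-16,14,22],[-19,-18,6,26],[-19,-18,5,26],[-20,-9,10,12],[-21,-1,3,11],[-12,-10,-7,20],[-20,-9,7,12],[-21,-1,3,8],[-20,-9,7,10],[-25,-13,0,25],[-24,-16,4,22],[-23,-17,-2,27],[-22,-14,-4,24],[-27,-15,2,23],[-26,-6,-5,19],[-26,-6,-5,18],[-12,-10,-7,9],[-11,-8,-3,1],[-24,-16,4,14],[-27,-15,2,17],[-22,-14,-4,16],[-25,-13,0,13],[-19,-18,5,6],[-23,-17,-2,15]]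

theorem st_27_4 : St 27 50 12 13 :=
  chk_sound 27 4 12 13 T_27_4 [1,2,3,4,5,6,7,8,9,10,11,12,13,14,15,16,17,18,19,20,21,22,23,24,25,26,27] (by decide +kernel) _ (by norm_num)

def T_12_6 : List (List ℤ) := [[-8,-7,1,5,10,11],[-9,-3,-1,4,8,12],[-9,-2,0,2,7,12],[-11,-10,6,7,8,9],[-12,-5,2,3,9,11],[-12,-4,0,4,9,10],[-5,-4,-2,3,5,9],[-8,-6,-4,5,6,12],[-7,-6,-5,4,7,11],[-11,-1,0,1,6,8],[-10,-6,-1,1,8,10],[-11,-3,-2,2,3,12],[-10,-7,-3,3,7,10],[-12,-3,-2,2,3,11],[-10,-8,-1,1,6,10],[-8,-6,-1,0,1,11],[-11,-7,-4,5,6,7],[-12,-6,-5,4,6,8],[-9,-5,-3,2,4,5],[-10,-9,-4,0,4,12],[-11,-9,-3,-2,5,12],[-9,-8,-7,-6,10,11],[-12,-7,-2,0,2,9],[-12,-8,-4,1,3,9],[-11,-10,-5,-1,7,8]]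

theorem st_12_6 : St 12 18 4 5 :=
  chk_sound 12 6 4 5 T_12_6 [1,2,3,4,5,6,7,8,9,10,11,12] (by decide +kernel) _ (by norm_num)

def T_14_6 : List (List ℤ) := [[-13,-12,1,11,13,14],[-14,-12,2,11,12,14],[-14,-13,4,10,12,13],[-10,-9,-8,11,13,14],[-11,-9,1,8,9,12],[-11,-10,5,7,8,10],[-11,-7,-1,8,9,10],[-8,-2,-1,3,6,9],[-5,-4,-2,4,6,7],[-6,-4,-1,2,5,9],[-6,-5,-3,0,6,12],[-4,-2,-1,0,3,7],[-7,-6,-3,0,5,13],[-8,-7,-5,-3,10,14],[-4,-3,-2,2,3,4],[-14,-10,3,5,7,8],[-13,-5,0,3,6,7],[-7,-3,0,1,2,4],[-12,-6,0,3,5,6],[-9,-5,-2,1,4,6],[-7,-6,-4,2,4,5],[-9,-6,-3,1,2,8],[-10,-9,-8,1,7,11],[-10,-8,-7,-5,10,11],[-12,-9,-8,-1,9,11],[-14,-13,-11,8,9,10],[-13,-12,-10,-4,13,14],[-14,-12,-11,-2,12,14],[-14,-13,-11,-1,12,13]]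

theorem st_14_6 : St 14 22 5 6 :=
  chk_sound 14 6 5 6 T_14_6 [1,2,3,4,5,6,7,8,9,10,11,12,13,14] (by decide +kernel) _ (by norm_num)

def T_16_6 : List (List ℤ) := [[-11,-7,-6,12,13,15],[-13,-12,7,8,9,16],[-13,-12,4,10,11,14],[-15,-14,7,9,10,16],[-15,-14,6,8,11,16],[-16,-8,3,6,12,14],[-9,-4,-3,-1,13,14],[-10,-7,-2,0,13,15],[-11,-6,-4,2,12,15],[-16,-9,-3,7,13,15],[-16,-8,1,6,11,12],[-2,-1,0,1,2,5],[-10,-8,1,3,4,14],[-10,-7,2,3,4,11],[-9,-5,0,3,5,8],[-10,-5,1,4,5,6],[-9,-5,-2,2,5,9],[-6,-5,-4,-1,5,10],[-8,-5,-3,0,5,9],[-11,-4,-3,-2,7,10],[-14,-4,-3,-1,8,10],[-5,-2,-1,0,1,2],[-12,-11,-6,-1,8,16],[-15,-13,-7,3,9,16],[-15,-12,-2,4,6,11],[-15,-13,0,2,7,10],[-14,-13,1,3,4,9],[-14,-12,-6,-3,8,16],[-16,-11,-8,-6,14,15],[-16,-10,-9,-7,14,15],[-14,-11,-10,-4,12,13],[-16,-9,-8,-7,12,13],[-15,-13,-12,6,7,11]]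

theorem st_16_6 : St 16 26 6 7 :=
  chk_sound 16 6 6 7 T_16_6 [1,2,3,4,5,6,7,8,9,10,11,12,13,14,15,16] (by decide +kernel) _ (by norm_num)

def T_18_6 : List (List ℤ) := [[-17,-4,6,8,11,14],[-18,-10,4,10,15,16],[-11,0,1,4,5,17],[-13,-12,-5,13,15,17],[-13,-7,-6,10,12,18],[-15,-14,8,9,10,15],[-15,-9,6,7,9,14],[-16,-8,-1,7,11,18],[-17,-9,-8,13,14,17],[-12,-10,-3,9,12,13],[-11,-10,-4,2,13,18],[-14,-6,1,3,11,12],[-14,-7,-2,-1,12,18],[-15,-4,0,3,5,16],[-18,-8,-5,2,16,17],[-9,-2,-1,3,5,7],[-6,-3,-1,0,4,8],[-11,-6,-3,-2,7,16],[-16,-5,-2,2,5,16],[-16,-7,2,3,6,11],[-8,-4,0,1,3,6],[-7,-5,-3,1,2,9],[-17,-16,-2,5,8,18],[-16,-5,-3,0,4,15],[-18,-12,1,2,7,14],[-12,-11,-3,-1,6,14],[-18,-13,-2,4,10,11],[-13,-12,-9,3,10,12],[-17,-14,-13,8,9,17],[-18,-11,-7,1,8,16],[-14,-9,-7,-6,9,15],[-15,-10,-9,-8,14,15],[-18,-12,-10,6,7,13],[-17,-15,-13,5,12,13],[-17,-5,-4,-1,0,11],[-16,-15,-10,-4,10,18],[-14,-11,-8,-6,4,17]]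

theorem st_18_6 : St 18 30 7 8 :=
  chk_sound 18 6 7 8 T_18_6 [1,2,3,4,5,6,7,8,9,10,11,12,13,14,15,16,17,18] (by decide +kernel) _ (by norm_num)

def T_20_6 : List (List ℤ) := [[-14,-2,0,5,15,16],[-18,0,4,8,12,13],[-19,-6,6,11,12,14],[-10,-8,-3,7,14,17],[-15,-12,3,4,16,20],[-16,-13,-1,10,15,20],[-20,-11,1,9,17,18],[-15,-4,0,2,11,19],[-16,-11,-7,9,18,19],[-14,-12,-5,11,13,18],[-17,-9,5,6,10,15],[-10,-5,-4,2,12,14],[-17,-6,-3,7,8,19],[-12,-5,-4,3,8,17],[-18,-8,1,3,10,18],[-11,-9,-7,2,10,20],[-13,-9,-7,-2,16,19],[-17,-8,-1,6,7,16],[-20,-4,-1,5,9,13],[-15,-3,-2,1,6,14],[-20,-19,-13,13,19,20],[-14,-6,-1,2,3,15],[-13,-9,-5,1,4,20],[-16,-7,-6,1,8,17],[-19,-16,2,7,9,13],[-20,-10,-2,7,9,11],[-18,-10,-3,-1,8,18],[-17,-8,-3,4,5,12],[-19,-8,-7,3,6,17],[-14,-12,-2,4,5,10],[-15,-10,-6,-5,9,17],[-18,-13,-11,5,12,14],[-19,-18,-9,7,11,16],[-19,-11,-2,0,4,15],[-18,-17,-9,-1,11,20],[-20,-15,-10,1,13,16],[-20,-16,-4,-3,12,15],[-17,-14,-7,3,8,10],[-14,-12,-11,-6,6,19],[-13,-12,-8,-4,0,18],[-16,-15,-5,0,2,14]]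

theorem st_20_6 : St 20 34 8 9 :=
  chk_sound 20 6 8 9 T_20_6 [1,2,3,4,5,6,7,8,9,10,11,12,13,14,15,16,17,18,19,20] (by decide +kernel) _ (by norm_num)

def T_22_6 : List (List ℤ) := [[-20,-13,-2,18,19,20],[-18,-14,9,10,13,21],[-22,-17,7,14,16,22],[-15,-13,-8,14,19,22],[-21,-4,2,7,12,22],[-20,-5,1,10,15,16],[-14,-12,-11,16,17,20],[-19,-6,4,5,14,17],[-21,-16,-3,15,19,20],[-22,-19,8,12,13,21],[-16,-10,3,4,13,18],[-16,-1,3,6,8,11],[-12,-9,-7,0,17,21],[-10,-7,-2,2,5,21],[-19,-7,4,6,11,13],[-10,-9,-8,-4,18,20],[-15,-4,0,6,8,11],[-17,-3,-1,2,9,15],[-18,-7,-6,8,12,15],[-14,-5,-1,0,11,12],[-22,-9,1,5,9,18],[-11,-5,-3,1,2,17],[-10,-6,-3,3,6,10],[-17,-2,-1,3,5,11],[-18,-9,-5,-1,9,22],[-12,-11,0,1,5,14],[-15,-12,-8,6,7,18],[-15,-9,-2,1,3,17],[-11,-8,-6,0,4,15],[-20,-18,4,8,9,10],[-13,-11,-6,-4,7,19],[-21,-5,-2,2,7,10],[-21,-17,0,7,9,12],[-11,-8,-6,-3,1,16],[-18,-13,-4,-3,10,16],[-21,-13,-12,-8,19,22],[-20,-19,-15,3,16,21],[-17,-14,-5,-4,6,19],[-20,-17,-16,11,12,14],[-16,-15,-10,-1,5,20],[-22,-12,-7,-2,4,21],[-22,-19,-14,8,13,15],[-22,-16,-14,-7,17,22],[-21,-13,-10,-9,14,18],[-20,-19,-18,2,13,20]]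

theorem st_22_6 : St 22 38 9 10 :=
  chk_sound 22 6 9 10 T_22_6 [1,2,3,4,5,6,7,8,9,10,11,12,13,14,15,16,17,18,19,20,21,22] (by decide +kernel) _ (by norm_num)

def T_26_6 : List (List ℤ) := [[-21,-17,0,17,21,26],[-24,-11,7,10,19,24],[-25,-9,-2,15,20,25],[-22,-16,8,13,18,22],[-23,-3,5,6,14,23],[-26,-1,1,4,17,26],[-15,-11,2,9,11,24],[-15,-10,-7,11,15,25],[-13,-8,-5,5,16,23],[-26,-12,-4,12,21,26],[-23,-6,6,8,13,18],[-20,-19,2,9,19,24],[-13,-6,-5,3,13,22],[-18,-14,-8,14,16,23],[-17,-4,0,4,12,17],[-25,-20,7,10,19,20],[-19,-9,-7,9,11,25],[-24,-10,-2,10,15,20],[-18,-13,-3,3,16,23],[-19,-10,-2,2,11,25],[-16,-14,-5,3,16,22],[-18,-14,-6,3,18,22],[-17,-12,-1,1,12,21],[-22,-8,5,6,8,14],[-24,-9,-7,7,15,20],[-21,-4,0,1,4,21],[-26,-12,-1,1,12,26],[-21,-4,-1,0,4,2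1],[-20,-15,-7,7,9,24],[-14,-8,-6,-5,8,22],[-21,-12,-1,1,12,17],[-22,-18,-3,6,14,18],[-22,-16,-3,5,14,16],[-25,-11,-2,2,10,19],[-23,-16,-3,3,13,18],[-20,-15,-10,2,10,24],[-25,-11,-9,7,9,19],[-20,-19,-10,-7,20,25],[-17,-12,-4,0,4,17],[-23,-16,-14,8,14,18],[-22,-13,-3,5,6,13],[-24,-19,-9,-2,19,20],[-18,-13,-8,-6,6,23],[-26,-21,-12,4,12,26],[-23,-16,-5,5,8,13],[-25,-15,-11,7,10,15],[-24,-11,-9,-2,11,15],[-26,-17,-4,-1,1,26],[-23,-14,-6,-5,3,23],[-22,-18,-13,-8,16,22],[-25,-20,-15,2,9,25],[-24,-19,-10,-7,11,24],[-26,-21,-17,0,17,21]]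

theorem st_26_6 : St 26 46 11 12 :=
  chk_sound 26 6 11 12 T_26_6 [1,2,3,4,5,6,7,8,9,10,11,12,13,14,15,16,17,18,19,20,21,22,23,24,25,26] (by decide +kernel) _ (by norm_num)

end Pool.Agent.R12.DM
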