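import Pool.Agent.R12.DM4
import Pool.Agent.R12.DMTab

set_option autoImplicit false

open Finset
open scoped Classical

namespace Pool.Agent.R12.DM

theorem fam2g (g f : ℕ) (h2 : g % 2 = 0) (h3 : 6 ≤ g + f) : ∃ H, HG (3 * g + 5 * f + 2) 4 H := by
  obtain ⟨Q, q1, q2, q3⟩ := match_graph g h2
  exact fam_gen g f 2 (by norm_num) le_rfl h3 Q (fun _ _ => False) q1 (fun _ _ h => h) q2
    (fun _ h => h) (fun i => by rw [q3]) (fun i => by simp)

theorem fam3g (g : ℕ) (h3 : 6 ≤ g) : ∃ H, HG (3 * g + 5 * 0 + 3) 6 H := by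
  obtain ⟨Q, q1, q2, q3⟩ := cyc_graph g (by omega)
  exact fam_gen g 0 3 le_rfl (by norm_num) (by omega) Q (fun _ _ => False) q1 (fun _ _ h => h) q2
    (fun _ h => h) (fun i => by rw [q3]) (fun i => i.elim0)

theorem base_even (k : ℕ) (hk : 4 ≤ k) : St (2 * k + 2) (4 * k) k k := by
  have key : ∀ H, HG (2 * k + 2) 4 H → St (2 * k + 2) (4 * k) k k := fun H hH =>
    co_st (2 * k + 2) 4 H hH (4 * k) k k (by omega) (by omega) (by omega)
  by_cases h : 13 ≤ k
  · obtain ⟨H, hH⟩ := fam2 (2 * k) (by omega)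
    exact key H hH
  · have : k = 4 ∨ k = 5 ∨ k = 6 ∨ k = 7 ∨ k = 8 ∨ k = 9 ∨ k = 10 ∨ k = 11 ∨ k = 12 := by omega
    rcases this with rfl | rfl | rfl | rfl | rfl | rfl | rfl | rfl | rfl
    · exact st_10_4
    · exact st_12_4
    · exact st_14_4
    · exact st_16_4
    · exact st_18_4
    · obtain ⟨H, hH⟩ := fam2g 6 0 (by norm_num) (by norm_num)
      exact key H hH
    · exact st_22_4
    · obtain ⟨H, hH⟩ := fam2g 4 2 (by norm_num) (by norm_num)
      exact key H hH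
    · obtain ⟨H, hH⟩ := fam2g 8 0 (by norm_num) (by norm_num)
      exact key H hH

theorem base_odd1 (k : ℕ) (hk : 4 ≤ k) : St (2 * k + 3) (4 * k + 2) k (k + 1) := by
  have key : ∀ H, HG (2 * k + 3) 4 H → St (2 * k + 3) (4 * k + 2) k (k + 1) := fun H hH =>
    co_st (2 * k + 3) 4 H hH (4 * k + 2) k (k + 1) (by omega) (by omega) (by omega)
  by_cases h : 13 ≤ k
  · obtain ⟨H, hH⟩ := fam2 (2 * k + 1) (by omega)
    exact key H hH
  · have : k = 4 ∨ k = 5 ∨ k = 6 ∨ k = 7 ∨ k = 8 ∨ k = 9 ∨ k = 10 ∨ k = 11 ∨ k = 12 := by omega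
    rcases this with rfl | rfl | rfl | rfl | rfl | rfl | rfl | rfl | rfl
    · exact st_11_4
    · exact st_13_4
    · exact st_15_4
    · exact st_17_4
    · exact st_19_4
    · exact st_21_4
    · exact st_23_4
    · obtain ⟨H, hH⟩ := fam2g 6 1 (by norm_num) (by norm_num)
      exact key H hH
    · exact st_27_4

theorem base_odd2 (k : ℕ) (hk : 4 ≤ k) : St (2 * k + 3 + 1) (4 * k + 2) k (k + 1) := by
  have key : ∀ H, HG (2 * k + 4) 6 H → St (2 * k + 3 + 1) (4 * k + 2) k (k + 1) := fun H hH =>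
    co_st (2 * k + 4) 6 H hH (4 * k + 2) k (k + 1) (by omega) (by omega) (by omega)
  by_cases h : 12 ≤ k
  · obtain ⟨H, hH⟩ := fam3 (2 * k + 1) (by omega) (by omega)
    exact key H hH
  · have : k = 4 ∨ k = 5 ∨ k = 6 ∨ k = 7 ∨ k = 8 ∨ k = 9 ∨ k = 10 ∨ k = 11 := by omega
    rcases this with rfl | rfl | rfl | rfl | rfl | rfl | rfl | rfl
    · exact st_12_6
    · exact st_14_6
    · exact st_16_6
    · exact st_18_6
    · exact st_20_6
    · exact st_22_6
    · obtain ⟨H, hH⟩ := fam3g 7 (by norm_num)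
      exact key H hH
    · exact st_26_6

theorem exist_main (ρ N : ℕ) (h1 : ρ + 2 ≤ N)
    (h2 : 5 ≤ ρ ∨ (ρ = 4 ∧ 7 ≤ N) ∨ (ρ = 3 ∧ 6 ≤ N) ∨ (ρ = 2 ∧ 8 ≤ N)) :
    ∃ G, ZG N (fun _ => 2 * ρ) G := by
  have fin : ∀ r k k', r = 2 * ρ → St N r k k' → ∃ G, ZG N (fun _ => 2 * ρ) G := by
    rintro r k k' rfl ⟨G, hG, -⟩
    exact ⟨G, hG⟩
  rcases h2 with h2 | ⟨rfl, h2⟩ | ⟨rfl, h2⟩ | ⟨rfl, h2⟩
  · by_cases h8 : 8 ≤ ρ
    · rcases Nat.even_or_odd' ρ with ⟨k, rfl | rfl⟩
      · exact fin _ _ _ (by ring) (st_even k _ (base_even k (by omega)) N h1)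
      · exact fin _ _ _ (by ring) (st_odd2 k _ (by omega) (base_odd1 k (by omega))
          (base_odd2 k (by omega)) N h1)
    · have : ρ = 5 ∨ ρ = 6 ∨ ρ = 7 := by omega
      rcases this with rfl | rfl | rfl
      · by_cases h : 8 ≤ N
        · exact fin _ _ _ (by norm_num) (st_odd2 2 8 (by norm_num) st_8_6 st_9_8 N h)
        · obtain rfl : N = 7 := by omega
          exact fin _ _ _ (by norm_num) st_7_4
      · exact fin _ _ _ (by norm_num) (st_even 3 8 st_8_4 N h1)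
      · by_cases h : 10 ≤ N
        · exact fin _ _ _ (by norm_num) (st_odd2 3 10 (by norm_num) st_10_6 st_11_8 N h)
        · obtain rfl : N = 9 := by omega
          exact fin _ _ _ (by norm_num) st_9_4
  · exact fin _ _ _ (by norm_num) (st_even 2 7 st_7_6 N h2)
  · rcases Nat.even_or_odd N with ⟨j, hj⟩ | ⟨j, hj⟩
    · have := st_odd 1 6 le_rfl st_6_6 (j - 3)
      rw [show 6 + 2 * (j - 3) = N by omega] at this
      exact fin _ _ _ (by norm_num) this
    · by_cases h : N = 7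
      · subst h
        exact fin _ _ _ (by norm_num) st_7_8
      · have := st_odd 1 9 le_rfl st_9_12 (j - 4)
        rw [show 9 + 2 * (j - 4) = N by omega] at this
        exact fin _ _ _ (by norm_num) this
  · exact fin _ _ _ (by norm_num) (st_even 1 8 st_8_12 N h2)

/-! ### the case `r = n - 3` -/

/-- index of the zero-sum triple containing the label `x`, for `N = 3m+1` -/
def tau (m x : ℤ) : ℤ :=
  if x ≤ m ∧ -m ≤ x then x
  else if m < x then
    (if (x - (2 * m + 1) + m) % 2 = 0 then -((x - (2 * m + 1) + m) / 2)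
      else (m + 1 - (x - (2 * m + 1))) / 2)
  else (if -x - (2 * m + 1) ≤ 0 then -(-x - (2 * m + 1)) - m else m + 1 - (-x - (2 * m + 1)))

theorem tau_fib (m : ℕ) (i : ℤ) (h1 : -(m:ℤ) ≤ i) (h2 : i ≤ m) :
    (W (3 * m + 1)).filter (fun w => tau m w = i) =
      {i, 2 * m + 1 + (if i ≤ 0 then -2 * i - m else m + 1 - 2 * i),
        -(2 * (m:ℤ) + 1) - i - (if i ≤ 0 then -2 * i - m else m + 1 - 2 * i)} := by
  ext w
  rw [mem_filter, W, Finset.mem_Icc]
  simp only [mem_insert, mem_singleton, tau]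
  push_cast
  constructor
  · rintro ⟨⟨g1, g2⟩, g3⟩
    split_ifs at g3 ⊢ <;> omega
  · intro h
    split_ifs at h ⊢ <;> omega

theorem tau_range (m : ℕ) (w : ℤ) (hw : w ∈ W (3 * m + 1)) : -(m:ℤ) ≤ tau m w ∧ tau m w ≤ m := by
  rw [W, Finset.mem_Icc] at hw
  push_cast at hw
  simp only [tau]
  split_ifs <;> omega

def Tri (m : ℕ) (u w : ℤ) : Prop := u ∈ W (3 * m + 1) ∧ w ∈ W (3 * m + 1) ∧ tau m w ≠ tau m u

theorem exist_three (m : ℕ) : ∃ G, ZG (3 * m + 1) (fun _ => 6 * m) G := by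
  have key : ∀ v ∈ W (3 * m + 1), ((W (3 * m + 1)).filter (fun w => tau m w = tau m v)).card = 3 ∧
      ∑ w ∈ (W (3 * m + 1)).filter (fun w => tau m w = tau m v), w = 0 := by
    intro v hv
    obtain ⟨h1, h2⟩ := tau_range m v hv
    rw [tau_fib m _ h1 h2]
    generalize tau m v = i at h1 h2
    have e1 : i ∉ ({2 * m + 1 + (if i ≤ 0 then -2 * i - m else m + 1 - 2 * i),
        -(2 * (m:ℤ) + 1) - i - (if i ≤ 0 then -2 * i - m else m + 1 - 2 * i)} : Finset ℤ) := by
      simp only [mem_insert, mem_singleton]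
      split_ifs <;> omega
    have e2 : (2 * m + 1 + (if i ≤ 0 then -2 * i - m else m + 1 - 2 * i)) ∉
        ({-(2 * (m:ℤ) + 1) - i - (if i ≤ 0 then -2 * i - m else m + 1 - 2 * i)} : Finset ℤ) := by
      simp only [mem_singleton]
      split_ifs <;> omega
    rw [card_insert_of_notMem e1, card_insert_of_notMem e2, card_singleton, sum_insert e1,
      sum_insert e2, sum_singleton]
    exact ⟨rfl, by ring⟩
  refine ⟨Tri m, ?_, ?_, ?_, ?_, ?_⟩
  · rintro u w ⟨h1, h2, h3⟩; exact ⟨h2, h1, h3.symm⟩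
  · rintro u ⟨-, -, h⟩; exact h rfl
  · rintro u w ⟨h, -⟩; exact h
  all_goals
    intro v hv
    have e : (W (3 * m + 1)).filter (Tri m v) =
        W (3 * m + 1) \ (W (3 * m + 1)).filter (fun w => tau m w = tau m v) := by
      ext w
      simp only [mem_filter, mem_sdiff, Tri]
      tauto
    rw [e]
  · rw [card_sdiff_of_subset (filter_subset _ _), card_W, (key v hv).1]; omega
  · have := sum_sdiff (f := fun w : ℤ => w)
      (filter_subset (fun w => tau m w = tau m v) (W (3 * m + 1)))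
    rw [(key v hv).2, sum_W, add_zero] at this
    exact this

end Pool.Agent.R12.DM
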