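import Pool.Agent.R12.SEM
import Pool.Agent.Helper1.Multi2

set_option autoImplicit false

/-! Edge-magic total labelings of graphs and of disjoint unions of two cycles. -/

namespace Pool.Agent.R12.EMT

open Pool.Agent.R12.SEM Pool.Agent.Helper1.CycleMagic Pool.Agent.Helper1.CycleMagic.Multi

/-- `G` has an edge-magic total labeling: a bijection `lam` from the set of all vertices and all
edges of `G` to `{1, ..., v + e}` such that `lam x + lam (xy) + lam y` is the same number for all
edges `xy`. -/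
def EdgeMagicTotal {V : Type} [Fintype V] (G : SimpleGraph V) : Prop :=
  ∃ (lam : V ⊕ G.edgeSet → ℕ) (k : ℕ),
    Set.BijOn lam Set.univ (Set.Icc 1 (Fintype.card V + G.edgeSet.ncard)) ∧
    ∀ (x y : V) (h : G.Adj x y), lam (Sum.inl x) + lam (Sum.inr ⟨s(x, y), h⟩) + lam (Sum.inl y) = k

/-- If the vertex labels and the induced edge labels cover `1, ..., p + q`, where `q` is at least
the number of edges, then they form an edge-magic total labeling. -/
theorem emt_of_cover {V : Type} [Fintype V] (G : SimpleGraph V) (f : V → ℕ) (k q : ℕ)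
    (hq : G.edgeSet.ncard ≤ q)
    (hc : ∀ z, 1 ≤ z → z ≤ Fintype.card V + q →
      (∃ v, f v = z) ∨ ∃ u v, G.Adj u v ∧ f u + f v + z = k) :
    EdgeMagicTotal G := by
  classical
  let lam : V ⊕ G.edgeSet → ℕ := Sum.elim f (fun e => k - esum f e.1)
  have hfin : Finite (V ⊕ G.edgeSet) := inferInstance
  have hcard : (Set.univ : Set (V ⊕ G.edgeSet)).ncard = Fintype.card V + G.edgeSet.ncard := by
    rw [Set.ncard_univ, Nat.card_sum, Nat.card_eq_fintype_card, Nat.card_coe_set_eq]
  have hb := bijOn_of_cover (s := (Set.univ : Set (V ⊕ G.edgeSet))) (Set.toFinite _)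
    (T := Finset.Icc 1 (Fintype.card V + q)) lam
    (by rw [hcard, Nat.card_Icc]; omega)
    (by
      intro z hz
      rw [Finset.mem_Icc] at hz
      rcases hc z hz.1 hz.2 with ⟨v, hv⟩ | ⟨u, v, huv, h⟩
      · exact ⟨Sum.inl v, Set.mem_univ _, hv⟩
      · refine ⟨Sum.inr ⟨s(u, v), huv⟩, Set.mem_univ _, ?_⟩
        simp only [lam, Sum.elim_inr, esum_mk]
        omega)
  rw [Finset.coe_Icc] at hb
  have hq2 : G.edgeSet.ncard = q := by
    have h1 := hb.image_eq
    have h2 : (lam '' Set.univ).ncard = (Set.univ : Set (V ⊕ G.edgeSet)).ncard :=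
      (Set.ncard_image_iff (Set.toFinite _)).2 hb.injOn
    rw [h1, hcard] at h2
    have h3 : (Set.Icc 1 (Fintype.card V + q)).ncard = Fintype.card V + q := by
      rw [← Finset.coe_Icc, Set.ncard_coe_finset, Nat.card_Icc]
      omega
    omega
  refine ⟨lam, k, by rw [hq2]; exact hb, ?_⟩
  intro x y h
  have := hb.mapsTo (Set.mem_univ (Sum.inr ⟨s(x, y), h⟩))
  rw [Set.mem_Icc] at this
  simp only [lam, Sum.elim_inr, Sum.elim_inl, esum_mk] at this ⊢
  omega

/-- The disjoint union of two cycles. -/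
abbrev twoCycles (m n : ℕ) : SimpleGraph (Fin m ⊕ Fin n) :=
  SimpleGraph.cycleGraph m ⊕g SimpleGraph.cycleGraph n

/-- The edges of a cycle. -/
theorem cycle_adj {n : ℕ} (hn : 2 ≤ n) (i : ℕ) (hi : i < n) :
    (SimpleGraph.cycleGraph n).Adj ⟨i, hi⟩ ⟨(i + 1) % n, Nat.mod_lt _ (by omega)⟩ := by
  obtain ⟨m, rfl⟩ : ∃ m, n = m + 2 := ⟨n - 2, by omega⟩
  rw [SimpleGraph.cycleGraph_adj]
  right
  have e : (⟨(i + 1) % (m + 2), Nat.mod_lt _ (by omega)⟩ : Fin (m + 2)) = ⟨i, hi⟩ + 1 := by
    apply Fin.ext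
    rw [Fin.val_add]
    simp
  rw [e]
  simp

theorem cycle_adj_exists {n : ℕ} (hn : 2 ≤ n) (u v : Fin n)
    (h : (SimpleGraph.cycleGraph n).Adj u v) :
    v.val = (u.val + 1) % n ∨ u.val = (v.val + 1) % n := by
  obtain ⟨m, rfl⟩ : ∃ m, n = m + 2 := ⟨n - 2, by omega⟩
  rw [SimpleGraph.cycleGraph_adj] at h
  rcases h with h | h
  · right
    have e : u = v + 1 := by rw [← h]; simp
    rw [e, Fin.val_add]
    simp
  · left
    have e : v = u + 1 := by rw [← h]; simp
    rw [e, Fin.val_add]
    simp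

theorem ncard_twoCycles {m n : ℕ} (hm : 2 ≤ m) (hn : 2 ≤ n) :
    (twoCycles m n).edgeSet.ncard ≤ m + n := by
  classical
  let F : Fin m ⊕ Fin n → Sym2 (Fin m ⊕ Fin n) := fun x =>
    match x with
    | Sum.inl i => s(Sum.inl i, Sum.inl ⟨(i.val + 1) % m, Nat.mod_lt _ (by omega)⟩)
    | Sum.inr i => s(Sum.inr i, Sum.inr ⟨(i.val + 1) % n, Nat.mod_lt _ (by omega)⟩)
  have h1 : (twoCycles m n).edgeSet ⊆ F '' Set.univ := by
    intro e he
    induction e using Sym2.ind with
    | _ u v =>
      rw [SimpleGraph.mem_edgeSet] at he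
      rcases u with u | u <;> rcases v with v | v
      · rw [SimpleGraph.sum_adj] at he
        rcases cycle_adj_exists hm u v he with h | h
        · refine ⟨Sum.inl u, Set.mem_univ _, ?_⟩
          simp only [F]
          congr
          exact h.symm
        · refine ⟨Sum.inl v, Set.mem_univ _, ?_⟩
          simp only [F]
          rw [Sym2.eq_swap]
          congr
          exact h.symm
      · simp at he
      · simp at he
      · rw [SimpleGraph.sum_adj] at he
        rcases cycle_adj_exists hn u v he with h | h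
        · refine ⟨Sum.inr u, Set.mem_univ _, ?_⟩
          simp only [F]
          congr
          exact h.symm
        · refine ⟨Sum.inr v, Set.mem_univ _, ?_⟩
          simp only [F]
          rw [Sym2.eq_swap]
          congr
          exact h.symm
  have h2 := Set.ncard_le_ncard h1 (Set.toFinite _)
  have h3 := Set.ncard_image_le (f := F) (s := Set.univ) (Set.toFinite _)
  rw [Set.ncard_univ, Nat.card_eq_fintype_card] at h3
  have h5 : Fintype.card (Fin m ⊕ Fin n) = m + n := by simp
  rw [h5] at h3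
  omega

end Pool.Agent.R12.EMT
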