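import Pool.Agent.R12.EMT
import Pool.Agent.Helper1.Multi3

set_option autoImplicit false

/-! Families of edge-magic total labelings of disjoint unions of two cycles. -/

namespace Pool.Agent.R12.EMT

open Pool.Agent.R12.SEM Pool.Agent.Helper1.CycleMagic Pool.Agent.Helper1.CycleMagic.Multi

instance {D : Type} [Fintype D] (T : Ty D Bool) (J : ℕ) (c : ℕ → ℕ) (a b : ℕ) :
    Decidable (Gd T J c a b) := by
  unfold Gd Reg
  infer_instance

/-- A family member. -/
def Mem {D : Type} (T : Ty D Bool) (m : Bool → ℕ) (J : ℕ) : Prop := ∃ c L, St T m J c L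

theorem Mem.grow {D : Type} {T : Ty D Bool} (hT : Ok T) {m : Bool → ℕ} {J : ℕ}
    (hm : ∀ i, 0 < m i) (h : Mem T m J) (d : D) (a : ℕ) :
    Mem T (fun i => m i + 2 * T.G d i * a) (J + T.dj d * a) := by
  induction a with
  | zero => simpa using h
  | succ a ih =>
    obtain ⟨c, L, h1⟩ := ih
    have h3 := step hT h1 (fun i => by have := hm i; omega) d
    have e1 : (fun i => m i + 2 * T.G d i * (a + 1)) =
        fun i => (m i + 2 * T.G d i * a) + 2 * T.G d i := by
      funext i
      ring
    have e2 : J + T.dj d * (a + 1) = J + T.dj d * a + T.dj d := by ring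
    refine ⟨cN T d c, LN T d c L, ?_⟩
    rw [e1, e2]
    exact h3

theorem Mem.emt {D : Type} {T : Ty D Bool} {m n J : ℕ} (hm : 2 ≤ m) (hn : 2 ≤ n)
    (h : Mem T (two m n) J) : EdgeMagicTotal (twoCycles m n) := by
  obtain ⟨c, L, h1⟩ := h
  have hsum : ∑ i, two m n i = m + n := by
    rw [Fintype.sum_bool]
    simp only [two, cond_true, cond_false]
    omega
  let f : Fin m ⊕ Fin n → ℕ := fun v =>
    match v with
    | Sum.inl i => (L false).getD i.val 0
    | Sum.inr i => (L true).getD i.val 0
  -- values of the walks at all places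
  have hlen := h1.len
  have hcl : ∀ i, (L i).getD (two m n i) 0 = (L i).getD 0 0 := fun i =>
    closed_getD (hlen i) (h1.closed i)
  have hmod : ∀ (i : Bool) (j : ℕ), j < two m n i →
      (L i).getD ((j + 1) % two m n i) 0 = (L i).getD (j + 1) 0 := by
    intro i j hj
    rcases Nat.lt_or_ge (j + 1) (two m n i) with h6 | h6
    · rw [Nat.mod_eq_of_lt h6]
    · have h7 : j + 1 = two m n i := by omega
      rw [h7, Nat.mod_self]
      exact (hcl i).symm
  apply emt_of_cover (twoCycles m n) f J (m + n) (ncard_twoCycles hm hn)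
  intro z hz1 hz2
  have hcard : Fintype.card (Fin m ⊕ Fin n) = m + n := by simp
  rw [hcard] at hz2
  obtain ⟨i, h⟩ := h1.surj z (by rw [hsum]; omega) hz1
  rcases h with h | ⟨p, hp, h⟩
  · left
    obtain ⟨j, hj, hj'⟩ := List.getElem_of_mem h
    have hval : (L i).getD j 0 = z := by
      rw [List.getD_eq_getElem _ _ hj, hj']
    have hj2 := hlen i
    have hval2 : ∃ j', j' < two m n i ∧ (L i).getD j' 0 = z := by
      rcases Nat.lt_or_ge j (two m n i) with h6 | h6
      · exact ⟨j, h6, hval⟩
      · have h7 : j = two m n i := by omega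
        refine ⟨0, ?_, ?_⟩
        · cases i <;> simp only [two, cond_true, cond_false] <;> omega
        · rw [← hcl i, ← h7]
          exact hval
    obtain ⟨j', hj', hval'⟩ := hval2
    cases i
    · exact ⟨Sum.inl ⟨j', hj'⟩, hval'⟩
    · exact ⟨Sum.inr ⟨j', hj'⟩, hval'⟩
  · right
    obtain ⟨j, hj, rfl⟩ := mem_prs_iff.1 hp
    have hj2 := hlen i
    have hj3 : j < two m n i := by omega
    simp only at h
    cases i
    · refine ⟨Sum.inl ⟨j, hj3⟩, Sum.inl ⟨(j + 1) % m, Nat.mod_lt _ (by omega)⟩, ?_, ?_⟩
      · rw [SimpleGraph.sum_adj]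
        exact cycle_adj hm j hj3
      · simp only [f]
        have := hmod false j hj3
        simp only [two, cond_false] at this
        rw [this]
        exact h
    · refine ⟨Sum.inr ⟨j, hj3⟩, Sum.inr ⟨(j + 1) % n, Nat.mod_lt _ (by omega)⟩, ?_, ?_⟩
      · rw [SimpleGraph.sum_adj]
        exact cycle_adj hn j hj3
      · simp only [f]
        have := hmod true j hj3
        simp only [two, cond_true] at this
        rw [this]
        exact h

end Pool.Agent.R12.EMT
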