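import Pool.Agent.R12.EMT2

set_option autoImplicit false

/-! Edge-magic total labelings of two cycles of the same even length. -/

namespace Pool.Agent.R12.EMT

open Pool.Agent.R12.SEM Pool.Agent.Helper1.CycleMagic Pool.Agent.Helper1.CycleMagic.Multi

/-- Data: the two cycles grow together. -/
def tyE : Ty Unit Bool where
  K := 6
  w := fun _ k => [1, 1, 2, 2, 1, 1].getD k 0
  fl := fun k => decide (k ≠ 2 ∧ k ≠ 3)
  dj := fun _ => 12
  G := fun _ _ => 1
  pcs := [(0, 4, 3), (5, 1, 2)]
  own := fun k => [false, false, true, false, false, false].getD k false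

theorem okE : Ok tyE := by
  constructor <;> decide +kernel

theorem stE : St tyE (two 6 6) 36
    (fun k => [1, 4, 8, 15, 19, 23].getD k 0)
    (fun b => bif b then [4, 10, 7, 5, 23, 11, 4]
      else [1, 18, 6, 14, 13, 20, 1]) := by
  constructor <;> decide +kernel

theorem emt_even (a : ℕ) : EdgeMagicTotal (twoCycles (6 + 2 * a) (6 + 2 * a)) := by
  have h := Mem.grow okE (m := two 6 6) (J := 36) (by intro i; cases i <;> decide)
    ⟨_, _, stE⟩ () a
  have e : (fun i => two 6 6 i + 2 * tyE.G () i * a) = two (6 + 2 * a) (6 + 2 * a) := by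
    funext i
    cases i <;> simp [two, tyE]
  rw [e] at h
  exact h.emt (by omega) (by omega)

/-- Data: no growth. -/
def tyN : Ty Unit Bool where
  K := 0
  w := fun _ _ => 0
  fl := fun _ => false
  dj := fun _ => 0
  G := fun _ _ => 0
  pcs := []
  own := fun _ => false

theorem st44 : St tyN (two 4 4) 22 (fun _ => 0)
    (fun b => bif b then [2, 8, 4, 11, 2] else [1, 5, 3, 6, 1]) := by
  constructor <;> decide +kernel

theorem emt44 : EdgeMagicTotal (twoCycles 4 4) :=
  Mem.emt (by omega) (by omega) ⟨_, _, st44⟩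

end Pool.Agent.R12.EMT
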