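import Pool.Agent.R12.GoodLab
import Pool.Agent.R545.Stc.PwLemmas

set_option autoImplicit false

/-! A family of good graphs of bounded treewidth whose good edge-labelings need many labels. -/

namespace Pool.Agent.R12.GoodLab

open SimpleGraph

/-- The vertices of the chain: a hub and vertices `u i`, `w i`, `a i`, `b i` for `i < m`. -/
inductive Ver (m : ℕ) : Type
  | hub : Ver m
  | u : Fin m → Ver m
  | w : Fin m → Ver m
  | a : Fin m → Ver m
  | b : Fin m → Ver m
  deriving DecidableEq, Fintype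

open Ver

/-- The labels of the edges of the chain; `0` for pairs that are not adjacent. -/
def lb (m : ℕ) : Ver m → Ver m → ℕ
  | hub, u i => 4 + i.val
  | u i, hub => 4 + i.val
  | u i, a j => if i.val = j.val then 1 else 0
  | a j, u i => if i.val = j.val then 1 else 0
  | w i, b j => if i.val = j.val then 2 else 0
  | b j, w i => if i.val = j.val then 2 else 0
  | u i, w j => if i.val = j.val + 1 then 3 else if i.val + 1 = j.val then m + 4 else 0
  | w j, u i => if i.val = j.val + 1 then 3 else if i.val + 1 = j.val then m + 4 else 0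
  | w i, a j => if i.val = j.val then m + 5 else 0
  | a j, w i => if i.val = j.val then m + 5 else 0
  | u i, b j => if i.val = j.val then m + 6 else 0
  | b j, u i => if i.val = j.val then m + 6 else 0
  | _, _ => 0

theorem lb_symm (m : ℕ) (x y : Ver m) : lb m x y = lb m y x := by
  cases x <;> cases y <;> simp [lb]

theorem lb_self (m : ℕ) (x : Ver m) : lb m x x = 0 := by
  cases x <;> simp [lb]

/-- The chain graph. -/
def chainG (m : ℕ) : SimpleGraph (Ver m) where
  Adj x y := lb m x y ≠ 0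
  symm := ⟨fun x y h => by rwa [lb_symm]⟩
  loopless := ⟨fun x h => h (lb_self m x)⟩

theorem chainG_adj {m : ℕ} {x y : Ver m} : (chainG m).Adj x y ↔ lb m x y ≠ 0 := Iff.rfl

/-- The labeling. -/
def lamN (m : ℕ) : Sym2 (Ver m) → ℕ := Sym2.lift ⟨lb m, lb_symm m⟩

@[simp] theorem lamN_mk (m : ℕ) (x y : Ver m) : lamN m s(x, y) = lb m x y := rfl

/-- Different edges at a vertex have different labels. -/
theorem lb_inj {m : ℕ} {x y z : Ver m} (h : lb m x y ≠ 0) (he : lb m x y = lb m x z) : y = z := by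
  cases x <;> cases y <;> cases z <;> simp only [lb] at h he ⊢ <;>
    first
    | rfl
    | (congr 1; apply Fin.ext; (try split_ifs at h he); all_goals omega)
    | (exfalso; (try split_ifs at h he); all_goals omega)

/-- A superset of the end vertices of the increasing paths that start at `x` and whose labels are
greater than `c`. -/
def S (m : ℕ) : Ver m → ℕ → Ver m → Prop
  | hub, _, hub => True
  | hub, c, u j => c < 4 + j.val
  | hub, c, b j => c < 4 + j.val
  | hub, c, w j => 1 ≤ j.val ∧ c < 3 + j.val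
  | hub, c, a j => 1 ≤ j.val ∧ c < 3 + j.val
  | u i, c, hub => c < 4 + i.val
  | u i, c, u k => k.val = i.val ∨ (c < 3 ∧ k.val + 2 = i.val) ∨ (c < 4 + i.val ∧ i.val < k.val)
  | u i, c, b k => (k.val = i.val ∧ c < m + 6) ∨ (c < 3 ∧ k.val + 2 = i.val) ∨
      (c < 4 + i.val ∧ i.val < k.val)
  | u i, c, w k => (c < 1 ∧ k.val = i.val) ∨ (c < 3 ∧ k.val + 1 = i.val) ∨
      (c < 4 + i.val ∧ i.val + 1 < k.val) ∨ (c < m + 4 ∧ k.val = i.val + 1)
  | u i, c, a k => (c < 1 ∧ k.val = i.val) ∨ (c < 3 ∧ k.val + 1 = i.val) ∨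
      (c < 4 + i.val ∧ i.val + 1 < k.val) ∨ (c < m + 4 ∧ k.val = i.val + 1)
  | w _, c, hub => c < 3
  | w i, c, w k => k.val = i.val ∨ (c < 3 ∧ i.val + 2 ≤ k.val)
  | w i, c, b k => (c < 2 ∧ k.val = i.val) ∨ (c < 3 ∧ i.val + 1 ≤ k.val) ∨
      (c < m + 4 ∧ k.val + 1 = i.val)
  | w i, c, u k => (c < 2 ∧ k.val = i.val) ∨ (c < 3 ∧ i.val + 1 ≤ k.val) ∨
      (c < m + 4 ∧ k.val + 1 = i.val)
  | w i, c, a k => (c < 3 ∧ i.val + 2 ≤ k.val) ∨ (c < m + 5 ∧ k.val = i.val)
  | a _, c, hub => c < 1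
  | a i, c, u k => c < 1 ∧ (k.val = i.val ∨ k.val + 2 = i.val ∨ i.val < k.val)
  | a i, c, b k => c < 1 ∧ (k.val = i.val ∨ k.val + 2 = i.val ∨ i.val < k.val)
  | a i, c, w k => (c < 1 ∧ (k.val + 1 = i.val ∨ i.val < k.val)) ∨ (c < m + 5 ∧ k.val = i.val)
  | a i, c, a k => k.val = i.val ∨ (c < 1 ∧ (k.val + 1 = i.val ∨ i.val < k.val))
  | b _, c, hub => c < 2
  | b i, c, b k => k.val = i.val ∨ (c < 2 ∧ (i.val + 1 ≤ k.val ∨ k.val + 1 = i.val))
  | b i, c, w k => c < 2 ∧ (k.val = i.val ∨ i.val + 2 ≤ k.val)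
  | b i, c, u k => (c < 2 ∧ (i.val + 1 ≤ k.val ∨ k.val + 1 = i.val)) ∨
      (c < m + 6 ∧ k.val = i.val)
  | b i, c, a k => c < 2 ∧ (i.val + 2 ≤ k.val ∨ k.val = i.val)

theorem S_self (m : ℕ) (x : Ver m) (c : ℕ) : S m x c x := by
  cases x <;> simp [S]

theorem S_step (m : ℕ) (x z y : Ver m) (c : ℕ) (hc : c < lb m x z)
    (h : S m z (lb m x z) y) : S m x c y := by
  cases x <;> cases z <;> first
    | (exfalso; simp [lb] at hc; done)
    | (cases y <;> simp only [lb, S] at hc h ⊢ <;> (try split_ifs at hc h) <;> omega)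

theorem S_disj (m : ℕ) (x z z' y : Ver m) (hz : lb m x z ≠ 0) (hz' : lb m x z' ≠ 0)
    (h : S m z (lb m x z) y) (h' : S m z' (lb m x z') y) : z = z' := by
  cases x <;> cases z <;> first
    | (exfalso; simp [lb] at hz; done)
    | (cases z' <;> first
        | (exfalso; simp [lb] at hz'; done)
        | (cases y <;> simp only [lb, S] at hz hz' h h' ⊢ <;>
            first
            | (congr 1; apply Fin.ext; (try split_ifs at hz hz' h h'); all_goals omega)
            | (exfalso; (try split_ifs at hz hz' h h'); all_goals omega)))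

end Pool.Agent.R12.GoodLab
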