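import Mathlib

set_option autoImplicit false

/-! Good edge-labelings: definitions, a family of good graphs. -/

namespace Pool.Agent.R12.GoodLab

open SimpleGraph

/-- A walk is increasing if the labels of its edges, in order, do not decrease. -/
def Increasing {V : Type} {G : SimpleGraph V} (lam : Sym2 V → ℝ) {x y : V} (p : G.Walk x y) :
    Prop := (p.edges.map lam).Pairwise (· ≤ ·)

/-- The edge-labeling `lam` of `G` is good: for all vertices `x`, `y` there is at most one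
increasing path from `x` to `y`. -/
def GoodLabeling {V : Type} (G : SimpleGraph V) (lam : Sym2 V → ℝ) : Prop :=
  ∀ (x y : V) (p q : G.Walk x y), p.IsPath → q.IsPath → Increasing lam p → Increasing lam q → p = q

/-- A graph is good if it has a good edge-labeling. -/
def Good {V : Type} (G : SimpleGraph V) : Prop := ∃ lam : Sym2 V → ℝ, GoodLabeling G lam

/-- A graph is `c`-good if it has a good edge-labeling with at most `c` distinct values on its
edges. -/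
def CGood {V : Type} (G : SimpleGraph V) (c : ℕ) : Prop :=
  ∃ lam : Sym2 V → ℝ, GoodLabeling G lam ∧ (lam '' G.edgeSet).Finite ∧ (lam '' G.edgeSet).ncard ≤ c

/-! ### Four- and five-cycles -/

theorem no22 {V : Type} {G : SimpleGraph V} {lam : Sym2 V → ℝ} (hg : GoodLabeling G lam)
    {x y₁ z y₂ : V} (h1 : G.Adj x y₁) (h2 : G.Adj y₁ z) (h3 : G.Adj x y₂) (h4 : G.Adj y₂ z)
    (hxz : x ≠ z) (hy : y₁ ≠ y₂) (a1 : lam s(x, y₁) ≤ lam s(y₁, z))
    (a2 : lam s(x, y₂) ≤ lam s(y₂, z)) : False := by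
  have e := hg x z (Walk.cons h1 (Walk.cons h2 Walk.nil)) (Walk.cons h3 (Walk.cons h4 Walk.nil))
    (by simp [Walk.cons_isPath_iff, hxz, h1.ne, h2.ne]) 
    (by simp [Walk.cons_isPath_iff, hxz, h3.ne, h4.ne])
    (by simp [Increasing, a1]) (by simp [Increasing, a2])
  simp only [Walk.cons.injEq] at e
  exact hy e.1

theorem no31 {V : Type} {G : SimpleGraph V} {lam : Sym2 V → ℝ} (hg : GoodLabeling G lam)
    {x1 x2 x3 x4 : V} (h1 : G.Adj x1 x2) (h2 : G.Adj x2 x3) (h3 : G.Adj x3 x4)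
    (h4 : G.Adj x1 x4) (n13 : x1 ≠ x3) (n24 : x2 ≠ x4)
    (a1 : lam s(x1, x2) ≤ lam s(x2, x3)) (a2 : lam s(x2, x3) ≤ lam s(x3, x4)) : False := by
  have e := hg x1 x4 (Walk.cons h1 (Walk.cons h2 (Walk.cons h3 Walk.nil)))
    (Walk.cons h4 Walk.nil)
    (by simp [Walk.cons_isPath_iff, n13, n24, h1.ne, h2.ne, h3.ne, h4.ne])
    (by simp [Walk.cons_isPath_iff, h4.ne])
    (by simp [Increasing, a1, a2, a1.trans a2]) (by simp [Increasing])
  simp only [Walk.cons.injEq] at e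
  exact n24 e.1

theorem no32 {V : Type} {G : SimpleGraph V} {lam : Sym2 V → ℝ} (hg : GoodLabeling G lam)
    {x1 x2 x3 x4 x5 : V} (h1 : G.Adj x1 x2) (h2 : G.Adj x2 x3) (h3 : G.Adj x3 x4)
    (h5 : G.Adj x1 x5) (h4 : G.Adj x5 x4) (n13 : x1 ≠ x3) (n14 : x1 ≠ x4) (n24 : x2 ≠ x4)
    (n25 : x2 ≠ x5)
    (a1 : lam s(x1, x2) ≤ lam s(x2, x3)) (a2 : lam s(x2, x3) ≤ lam s(x3, x4))
    (a3 : lam s(x1, x5) ≤ lam s(x5, x4)) : False := by
  have e := hg x1 x4 (Walk.cons h1 (Walk.cons h2 (Walk.cons h3 Walk.nil)))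
    (Walk.cons h5 (Walk.cons h4 Walk.nil))
    (by simp [Walk.cons_isPath_iff, n13, n14, n24, h1.ne, h2.ne, h3.ne])
    (by simp [Walk.cons_isPath_iff, n14, h5.ne, h4.ne])
    (by simp [Increasing, a1, a2, a1.trans a2]) (by simp [Increasing, a3])
  simp only [Walk.cons.injEq] at e
  exact n25 e.1

/-- The labels of a four-cycle alternate. -/
theorem square {V : Type} {G : SimpleGraph V} {lam : Sym2 V → ℝ} (hg : GoodLabeling G lam)
    {x y₁ z y₂ : V} (h1 : G.Adj x y₁) (h2 : G.Adj y₁ z) (h3 : G.Adj x y₂) (h4 : G.Adj y₂ z)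
    (hxz : x ≠ z) (hy : y₁ ≠ y₂) (hlt : lam s(x, y₁) < lam s(x, y₂)) :
    lam s(y₂, z) < lam s(x, y₂) ∧ lam s(x, y₁) < lam s(y₁, z) := by
  have key : lam s(x, y₁) < lam s(y₁, z) := by
    by_contra hc
    push Not at hc
    refine no31 hg h2.symm h1.symm h3 h4.symm hxz.symm hy ?_ ?_
    · rw [Sym2.eq_swap (a := z), Sym2.eq_swap (a := y₁) (b := x)]
      exact hc
    · rw [Sym2.eq_swap (a := y₁) (b := x)]
      exact hlt.le
  refine ⟨?_, key⟩
  by_contra hc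
  push Not at hc
  exact no22 hg h1 h2 h3 h4 hxz hy key.le hc

theorem square_ne {V : Type} {G : SimpleGraph V} {lam : Sym2 V → ℝ} (hg : GoodLabeling G lam)
    {x y₁ z y₂ : V} (h1 : G.Adj x y₁) (h2 : G.Adj y₁ z) (h3 : G.Adj x y₂) (h4 : G.Adj y₂ z)
    (hxz : x ≠ z) (hy : y₁ ≠ y₂) : lam s(x, y₁) ≠ lam s(x, y₂) := by
  intro he
  have key : lam s(x, y₁) < lam s(y₁, z) := by
    by_contra hc
    push Not at hc
    refine no31 hg h2.symm h1.symm h3 h4.symm hxz.symm hy ?_ ?_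
    · rw [Sym2.eq_swap (a := z), Sym2.eq_swap (a := y₁) (b := x)]
      exact hc
    · rw [Sym2.eq_swap (a := y₁) (b := x)]
      exact he.le
  have key2 : lam s(x, y₂) < lam s(y₂, z) := by
    by_contra hc
    push Not at hc
    refine no31 hg h4.symm h3.symm h1 h2.symm hxz.symm hy.symm ?_ ?_
    · rw [Sym2.eq_swap (a := z), Sym2.eq_swap (a := y₂) (b := x)]
      exact hc
    · rw [Sym2.eq_swap (a := y₂) (b := x)]
      exact he.ge
  exact no22 hg h1 h2 h3 h4 hxz hy key.le key2.le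

/-- The gadget: the middle label lies strictly between the two others. -/
theorem gadget_aux {V : Type} {G : SimpleGraph V} {lam : Sym2 V → ℝ} (hg : GoodLabeling G lam)
    {v u₁ u₂ u₃ w a b : V} (e1 : G.Adj v u₁) (e2 : G.Adj v u₂) (e3 : G.Adj v u₃)
    (f1 : G.Adj u₁ w) (f3 : G.Adj u₃ w) (ga : G.Adj u₂ a) (gb : G.Adj u₂ b)
    (ha : G.Adj a w) (hb : G.Adj b w) (hnd : [v, u₁, u₂, u₃, w, a, b].Nodup)
    (hlt : lam s(v, u₁) < lam s(v, u₃)) (hab : lam s(u₂, a) < lam s(u₂, b)) :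
    lam s(v, u₁) < lam s(v, u₂) ∧ lam s(v, u₂) < lam s(v, u₃) := by
  simp only [List.nodup_cons, List.mem_cons, List.not_mem_nil, or_false, not_or, not_false_eq_true,
    List.nodup_nil, and_true] at hnd
  obtain ⟨⟨n1, n2, n3, n4, n5, n6⟩, ⟨n7, n8, n9, n10, n11⟩, ⟨n12, n13, n14, n15⟩,
    ⟨n16, n17, n18⟩, ⟨n19, n20⟩, n21⟩ := hnd
  obtain ⟨s1, s2⟩ := square hg e1 f1 e3 f3 n4 n8 hlt
  obtain ⟨t1, t2⟩ := square hg ga ha gb hb n13 n21 hab
  constructor
  · by_contra hc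
    push Not at hc
    refine no32 hg e2.symm e1 f1 ga ha (Ne.symm n7) n13 n4 n5 ?_ ?_ ?_
    · rw [Sym2.eq_swap (a := u₂)]
      exact hc
    · exact s2.le
    · exact t2.le
  · by_contra hc
    push Not at hc
    refine no32 hg f3.symm e3.symm e2 hb.symm gb.symm (Ne.symm n4) (Ne.symm n13) (Ne.symm n12)
      n18 ?_ ?_ ?_
    · rw [Sym2.eq_swap (a := w), Sym2.eq_swap (a := u₃) (b := v)]
      exact s1.le
    · rw [Sym2.eq_swap (a := u₃) (b := v)]
      exact hc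
    · rw [Sym2.eq_swap (a := w), Sym2.eq_swap (a := b) (b := u₂)]
      exact t1.le

theorem gadget {V : Type} {G : SimpleGraph V} {lam : Sym2 V → ℝ} (hg : GoodLabeling G lam)
    {v u₁ u₂ u₃ w a b : V} (e1 : G.Adj v u₁) (e2 : G.Adj v u₂) (e3 : G.Adj v u₃)
    (f1 : G.Adj u₁ w) (f3 : G.Adj u₃ w) (ga : G.Adj u₂ a) (gb : G.Adj u₂ b)
    (ha : G.Adj a w) (hb : G.Adj b w) (hnd : [v, u₁, u₂, u₃, w, a, b].Nodup) :
    (lam s(v, u₁) < lam s(v, u₂) ∧ lam s(v, u₂) < lam s(v, u₃)) ∨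
    (lam s(v, u₂) < lam s(v, u₁) ∧ lam s(v, u₃) < lam s(v, u₂)) := by
  have hnd' := hnd
  simp only [List.nodup_cons, List.mem_cons, List.not_mem_nil, or_false, not_or, not_false_eq_true,
    List.nodup_nil, and_true] at hnd'
  obtain ⟨⟨n1, n2, n3, n4, n5, n6⟩, ⟨n7, n8, n9, n10, n11⟩, ⟨n12, n13, n14, n15⟩,
    ⟨n16, n17, n18⟩, ⟨n19, n20⟩, n21⟩ := hnd'
  have d1 := square_ne hg e1 f1 e3 f3 n4 n8
  have d2 := square_ne hg ga ha gb hb n13 n21
  have hnd2 : [v, u₁, u₂, u₃, w, b, a].Nodup := by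
    simp only [List.nodup_cons, List.mem_cons, List.not_mem_nil, or_false, not_or,
      not_false_eq_true, List.nodup_nil, and_true]
    tauto
  have hnd3 : [v, u₃, u₂, u₁, w, a, b].Nodup := by
    simp only [List.nodup_cons, List.mem_cons, List.not_mem_nil, or_false, not_or,
      not_false_eq_true, List.nodup_nil, and_true]
    tauto
  have hnd4 : [v, u₃, u₂, u₁, w, b, a].Nodup := by
    simp only [List.nodup_cons, List.mem_cons, List.not_mem_nil, or_false, not_or,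
      not_false_eq_true, List.nodup_nil, and_true]
    tauto
  rcases lt_or_gt_of_ne d1 with h1 | h1 <;> rcases lt_or_gt_of_ne d2 with h2 | h2
  · exact Or.inl (gadget_aux hg e1 e2 e3 f1 f3 ga gb ha hb hnd h1 h2)
  · exact Or.inl (gadget_aux hg e1 e2 e3 f1 f3 gb ga hb ha hnd2 h1 h2)
  · exact Or.inr (gadget_aux hg e3 e2 e1 f3 f1 ga gb ha hb hnd3 h1 h2).symm
  · exact Or.inr (gadget_aux hg e3 e2 e1 f3 f1 gb ga hb ha hnd4 h1 h2).symm

end Pool.Agent.R12.GoodLab
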