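import Pool.Agent.R12.GoodChain

set_option autoImplicit false

/-! The chains are good, have bounded treewidth and need many labels. -/

namespace Pool.Agent.R12.GoodLab

open SimpleGraph Ver

/-- End vertices of increasing paths. -/
theorem reach {m : ℕ} {x y : Ver m} (p : (chainG m).Walk x y) (hp : p.IsPath)
    (hi : (p.edges.map (lamN m)).Pairwise (· ≤ ·)) (c : ℕ) (hc : ∀ e ∈ p.edges, c < lamN m e) :
    S m x c y := by
  induction p generalizing c with
  | nil => exact S_self m _ c
  | @cons x z y h p ih =>
    rw [Walk.edges_cons, List.map_cons, List.pairwise_cons] at hi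
    obtain ⟨hi1, hi2⟩ := hi
    have hc1 : c < lb m x z := by
      have := hc s(x, z) (by rw [Walk.edges_cons]; exact List.mem_cons_self)
      simpa using this
    apply S_step m x z y c hc1
    refine ih hp.of_cons hi2 _ ?_
    intro e he
    cases p with
    | nil => simp at he
    | @cons _ z2 _ h2 p2 =>
      have hx : x ≠ z2 := by
        intro hx
        subst hx
        rw [Walk.cons_isPath_iff] at hp
        apply hp.2
        rw [Walk.support_cons]
        exact List.mem_cons_of_mem _ (Walk.start_mem_support p2)
      have hne : lb m z x ≠ lb m z z2 := by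
        intro he2
        exact hx (lb_inj (by rw [lb_symm]; exact h) he2)
      rw [Walk.edges_cons] at he hi2 hi1
      rw [List.map_cons, List.pairwise_cons] at hi2
      have h3 : lb m x z ≤ lb m z z2 := by
        have := hi1 (lamN m s(z, z2)) (by simp)
        simpa using this
      have h4 : lb m x z < lb m z z2 := by
        rw [lb_symm m z x] at hne
        omega
      rw [List.mem_cons] at he
      rcases he with rfl | he
      · simpa using h4
      · have h5 := hi2.1 (lamN m e) (List.mem_map_of_mem he)
        have h6 : lb m z z2 ≤ lamN m e := by simpa using h5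
        omega

theorem uniq {m : ℕ} {x y : Ver m} (p q : (chainG m).Walk x y) (hp : p.IsPath) (hq : q.IsPath)
    (hi : (p.edges.map (lamN m)).Pairwise (· ≤ ·))
    (hj : (q.edges.map (lamN m)).Pairwise (· ≤ ·)) : p = q := by
  -- strictness along the path
  have strict : ∀ {x z y : Ver m} (h : (chainG m).Adj x z) (p : (chainG m).Walk z y),
      (Walk.cons h p).IsPath → ((Walk.cons h p).edges.map (lamN m)).Pairwise (· ≤ ·) →
      S m z (lb m x z) y := by
    intro x z y h p hp hi
    have hi' := hi
    rw [Walk.edges_cons, List.map_cons, List.pairwise_cons] at hi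
    obtain ⟨hi1, hi2⟩ := hi
    refine reach p hp.of_cons hi2 _ ?_
    intro e he
    cases p with
    | nil => simp at he
    | @cons _ z2 _ h2 p2 =>
      have hx : x ≠ z2 := by
        intro hx
        subst hx
        rw [Walk.cons_isPath_iff] at hp
        apply hp.2
        rw [Walk.support_cons]
        exact List.mem_cons_of_mem _ (Walk.start_mem_support p2)
      have hne : lb m z x ≠ lb m z z2 := by
        intro he2
        exact hx (lb_inj (by rw [lb_symm]; exact h) he2)
      rw [Walk.edges_cons] at he hi2 hi1
      rw [List.map_cons, List.pairwise_cons] at hi2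
      have h3 : lb m x z ≤ lb m z z2 := by
        have := hi1 (lamN m s(z, z2)) (by simp)
        simpa using this
      have h4 : lb m x z < lb m z z2 := by
        rw [lb_symm m z x] at hne
        omega
      rw [List.mem_cons] at he
      rcases he with rfl | he
      · simpa using h4
      · have h5 := hi2.1 (lamN m e) (List.mem_map_of_mem he)
        have h6 : lb m z z2 ≤ lamN m e := by simpa using h5
        omega
  induction p with
  | nil =>
    rw [Walk.isPath_iff_nil] at hq
    exact (Walk.eq_nil_iff_nil.2 hq).symm
  | @cons x z y h p ih =>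
    cases q with
    | nil =>
      rw [Walk.isPath_iff_nil] at hp
      exact Walk.eq_nil_iff_nil.2 hp
    | @cons _ z' _ h' q =>
      have e1 := strict h p hp hi
      have e2 := strict h' q hq hj
      have e := S_disj m x z z' y h h' e1 e2
      subst e
      rw [Walk.edges_cons, List.map_cons, List.pairwise_cons] at hi hj
      rw [ih q hp.of_cons hq.of_cons hi.2 hj.2]

theorem chain_good (m : ℕ) : Good (chainG m) := by
  refine ⟨fun e => (lamN m e : ℝ), ?_⟩
  intro x y p q hp hq hi hj
  have conv : ∀ (p : (chainG m).Walk x y), Increasing (fun e => (lamN m e : ℝ)) p →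
      (p.edges.map (lamN m)).Pairwise (· ≤ ·) := by
    intro p h
    unfold Increasing at h
    rw [List.pairwise_map] at h ⊢
    exact h.imp (fun h => by exact_mod_cast h)
  exact uniq p q hp hq (conv p hi) (conv q hj)

/-- Three consecutive labels at the hub are monotone. -/
theorem chain_mid {m : ℕ} {lam : Sym2 (Ver m) → ℝ} (hg : GoodLabeling (chainG m) lam)
    (i : ℕ) (h : i + 2 < m) :
    (lam s(hub, u ⟨i, by omega⟩) < lam s(hub, u ⟨i + 1, by omega⟩) ∧
      lam s(hub, u ⟨i + 1, by omega⟩) < lam s(hub, u ⟨i + 2, h⟩)) ∨
    (lam s(hub, u ⟨i + 1, by omega⟩) < lam s(hub, u ⟨i, by omega⟩) ∧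
      lam s(hub, u ⟨i + 2, h⟩) < lam s(hub, u ⟨i + 1, by omega⟩)) := by
  refine gadget (w := w ⟨i + 1, by omega⟩) (a := a ⟨i + 1, by omega⟩) (b := b ⟨i + 1, by omega⟩)
    hg ?_ ?_ ?_ ?_ ?_ ?_ ?_ ?_ ?_ ?_ <;>
    simp [chainG_adj, lb] <;> (split_ifs <;> simp)

theorem chain_mono {m : ℕ} {lam : Sym2 (Ver m) → ℝ} (hg : GoodLabeling (chainG m) lam)
    (h3 : 3 ≤ m) (h0 : lam s(hub, u ⟨0, by omega⟩) < lam s(hub, u ⟨1, by omega⟩)) (i : ℕ)
    (h : i + 1 < m) : lam s(hub, u ⟨i, by omega⟩) < lam s(hub, u ⟨i + 1, h⟩) := by
  induction i with
  | zero => exact h0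
  | succ i ih =>
    have h1 := ih (by omega)
    rcases chain_mid hg i (by omega) with h2 | h2
    · exact h2.2
    · exact absurd h1 (not_lt.2 h2.1.le)

theorem chain_anti {m : ℕ} {lam : Sym2 (Ver m) → ℝ} (hg : GoodLabeling (chainG m) lam)
    (h3 : 3 ≤ m) (h0 : lam s(hub, u ⟨1, by omega⟩) < lam s(hub, u ⟨0, by omega⟩)) (i : ℕ)
    (h : i + 1 < m) : lam s(hub, u ⟨i + 1, h⟩) < lam s(hub, u ⟨i, by omega⟩) := by
  induction i with
  | zero => exact h0
  | succ i ih =>
    have h1 := ih (by omega)
    rcases chain_mid hg i (by omega) with h2 | h2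
    · exact absurd h1 (not_lt.2 h2.1.le)
    · exact h2.2

theorem chain_inj {m : ℕ} {lam : Sym2 (Ver m) → ℝ} (hg : GoodLabeling (chainG m) lam)
    (h3 : 3 ≤ m) : Function.Injective (fun i : Fin m => lam s(hub, u i)) := by
  have h01 := chain_mid hg 0 (by omega)
  obtain ⟨n, rfl⟩ : ∃ n, m = n + 1 := ⟨m - 1, by omega⟩
  rcases h01 with h | h
  · have : StrictMono (fun i : Fin (n + 1) => lam s(hub, u i)) := by
      rw [Fin.strictMono_iff_lt_succ]
      intro i
      exact chain_mono hg h3 h.1 i.val (by omega)
    exact this.injective
  · have : StrictAnti (fun i : Fin (n + 1) => lam s(hub, u i)) := by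
      rw [Fin.strictAnti_iff_succ_lt]
      intro i
      exact chain_anti hg h3 h.1 i.val (by omega)
    exact this.injective

theorem chain_not_cgood {m c : ℕ} (h3 : 3 ≤ m) (hc : c < m) : ¬ CGood (chainG m) c := by
  rintro ⟨lam, hg, hf, hn⟩
  have h1 : Set.range (fun i : Fin m => lam s(hub, u i)) ⊆ lam '' (chainG m).edgeSet := by
    rintro _ ⟨i, rfl⟩
    exact ⟨s(hub, u i), by simp [chainG_adj, lb], rfl⟩
  have h2 := Set.ncard_le_ncard h1 hf
  rw [← Set.image_univ, Set.ncard_image_of_injective _ (chain_inj hg h3), Set.ncard_univ,
    Nat.card_eq_fintype_card, Fintype.card_fin] at h2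
  omega

/-- The bags of a path decomposition. -/
def inBag {m : ℕ} (i : Fin m) : Ver m → Prop
  | hub => True
  | u j => i.val ≤ j.val + 1 ∧ j.val ≤ i.val + 1
  | w j => j.val = i.val
  | a j => j.val = i.val
  | b j => j.val = i.val

instance {m : ℕ} (i : Fin m) : DecidablePred (inBag i) := fun x => by
  cases x <;> simp only [inBag] <;> infer_instance

theorem chain_tw {m : ℕ} (hm : 0 < m) :
    Pool.Agent.R545.Stc.TreewidthLe (chainG m) 6 := by
  classical
  obtain ⟨n, rfl⟩ : ∃ n, m = n + 1 := ⟨m - 1, by omega⟩
  refine ⟨n + 1, pathGraph (n + 1), fun i => Finset.univ.filter (inBag i), ⟨?_, ?_, ?_, ?_⟩, ?_⟩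
  · exact Pool.Agent.R545.Stc.pathGraph_isTree n
  · intro x
    cases x with
    | hub => exact ⟨0, by simp [inBag]⟩
    | u j => exact ⟨j, by simp [inBag]⟩
    | w j => exact ⟨j, by simp [inBag]⟩
    | a j => exact ⟨j, by simp [inBag]⟩
    | b j => exact ⟨j, by simp [inBag]⟩
  · intro x y h
    rw [chainG_adj] at h
    simp only [Finset.mem_filter, Finset.mem_univ, true_and]
    cases x with
    | hub => cases y with
      | u j => exact ⟨j, by simp [inBag]⟩
      | hub => simp [lb] at h
      | w j => simp [lb] at h
      | a j => simp [lb] at h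
      | b j => simp [lb] at h
    | u i => cases y with
      | hub => exact ⟨i, by simp [inBag]⟩
      | u j => simp [lb] at h
      | w j =>
        refine ⟨j, ?_⟩
        simp only [lb] at h
        simp only [inBag, and_true]
        split_ifs at h <;> omega
      | a j =>
        refine ⟨j, ?_⟩
        simp only [lb] at h
        simp only [inBag, and_true]
        split_ifs at h <;> omega
      | b j =>
        refine ⟨j, ?_⟩
        simp only [lb] at h
        simp only [inBag, and_true]
        split_ifs at h <;> omega
    | w i => 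
      refine ⟨i, ?_⟩
      cases y with
      | hub => simp [lb] at h
      | u j =>
        simp only [lb] at h
        simp only [inBag, true_and]
        split_ifs at h <;> omega
      | w j => simp [lb] at h
      | a j =>
        simp only [lb] at h
        simp only [inBag, true_and]
        split_ifs at h <;> omega
      | b j =>
        simp only [lb] at h
        simp only [inBag, true_and]
        split_ifs at h <;> omega
    | a i =>
      refine ⟨i, ?_⟩
      cases y with
      | hub => simp [lb] at h
      | u j =>
        simp only [lb] at h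
        simp only [inBag, true_and]
        split_ifs at h <;> omega
      | a j => simp [lb] at h
      | w j =>
        simp only [lb] at h
        simp only [inBag, true_and]
        split_ifs at h <;> omega
      | b j => simp [lb] at h
    | b i =>
      refine ⟨i, ?_⟩
      cases y with
      | hub => simp [lb] at h
      | u j =>
        simp only [lb] at h
        simp only [inBag, true_and]
        split_ifs at h <;> omega
      | b j => simp [lb] at h
      | w j =>
        simp only [lb] at h
        simp only [inBag, true_and]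
        split_ifs at h <;> omega
      | a j => simp [lb] at h
  · intro x
    apply Pool.Agent.R545.Stc.induce_pathGraph_connected
    · constructor
      intro p hp q hq r hr
      rw [Set.mem_ofPred_eq, Finset.mem_filter] at hp hq ⊢
      have h1 : p.val ≤ r.val := hr.1
      have h2 : r.val ≤ q.val := hr.2
      refine ⟨Finset.mem_univ _, ?_⟩
      cases x <;> simp only [inBag] at hp hq ⊢ <;> omega
    · cases x with
      | hub => exact ⟨0, by simp [inBag]⟩
      | u j => exact ⟨j, by simp [inBag]⟩
      | w j => exact ⟨j, by simp [inBag]⟩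
      | a j => exact ⟨j, by simp [inBag]⟩
      | b j => exact ⟨j, by simp [inBag]⟩
  · intro i
    have hsub : Finset.univ.filter (inBag i) ⊆
        ({hub, w i, a i, b i} : Finset (Ver (n + 1))) ∪
          (Finset.univ.filter (fun j : Fin (n + 1) => i.val ≤ j.val + 1 ∧ j.val ≤ i.val + 1)).image
            u := by
      intro x hx
      rw [Finset.mem_filter] at hx
      have hx := hx.2
      cases x with
      | hub => simp
      | u j =>
        apply Finset.mem_union_right
        rw [Finset.mem_image]
        exact ⟨j, by simpa [inBag] using hx, rfl⟩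
      | w j =>
        have : j = i := Fin.ext hx
        simp [this]
      | a j =>
        have : j = i := Fin.ext hx
        simp [this]
      | b j =>
        have : j = i := Fin.ext hx
        simp [this]
    have h1 := Finset.card_le_card hsub
    have h2 := Finset.card_union_le ({hub, w i, a i, b i} : Finset (Ver (n + 1)))
      ((Finset.univ.filter (fun j : Fin (n + 1) => i.val ≤ j.val + 1 ∧ j.val ≤ i.val + 1)).image u)
    have h3 : ({hub, w i, a i, b i} : Finset (Ver (n + 1))).card ≤ 4 := Finset.card_le_four
    have h4 : ((Finset.univ.filter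
        (fun j : Fin (n + 1) => i.val ≤ j.val + 1 ∧ j.val ≤ i.val + 1)).image
          (u : Fin (n + 1) → Ver (n + 1))).card ≤ 3 := by
      refine le_trans Finset.card_image_le ?_
      have h5 : ((Finset.univ.filter
          (fun j : Fin (n + 1) => i.val ≤ j.val + 1 ∧ j.val ≤ i.val + 1)).image Fin.val).card ≤
          (Finset.Icc (i.val - 1) (i.val + 1)).card := by
        apply Finset.card_le_card
        intro k hk
        rw [Finset.mem_image] at hk
        obtain ⟨j, hj, rfl⟩ := hk
        rw [Finset.mem_filter] at hj
        rw [Finset.mem_Icc]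
        omega
      rw [Finset.card_image_of_injective _ Fin.val_injective, Nat.card_Icc] at h5
      omega
    show (Finset.univ.filter (inBag i)).card ≤ 6 + 1
    omega

/-- For some `k`, good graphs of treewidth `k` need arbitrarily many labels. -/
theorem main : ∃ k : ℕ, ∀ c : ℕ, ∃ (V : Type) (_ : Fintype V) (G : SimpleGraph V),
    Pool.Agent.R545.Stc.treewidth G = k ∧ Good G ∧ ¬ CGood G c := by
  by_contra hcon
  push Not at hcon
  choose f hf using hcon
  set c := ∑ k ∈ Finset.range 7, f k with hc
  have h1 := chain_tw (m := c + 3) (by omega)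
  have h2 : Pool.Agent.R545.Stc.treewidth (chainG (c + 3)) ≤ 6 :=
    Pool.Agent.R545.Stc.treewidth_le_of h1
  have h3 := hf (Pool.Agent.R545.Stc.treewidth (chainG (c + 3))) (Ver (c + 3)) inferInstance
    (chainG (c + 3)) rfl (chain_good _)
  have h4 : ∀ k, k ≤ 6 → f k ≤ c := fun k hk =>
    Finset.single_le_sum (f := f) (fun _ _ => Nat.zero_le _) (Finset.mem_range.2 (by omega))
  have h5 := h4 _ h2
  exact chain_not_cgood (by omega) (by omega) h3

end Pool.Agent.R12.GoodLab
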