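import Mathlib
import Pool.Agent.R537.LR.Stm

/-!
# LR-KST: a set of positions without a complete 4 x 4 pattern is small (for helper537)
-/

set_option autoImplicit false

namespace Pool.Agent.R12.LRKST

open Finset

theorem noninj (T : ℕ) :
    (univ.filter (fun f : Fin 4 → Fin T => ¬ Function.Injective f)).card ≤ 6 * T ^ 3 := by
  classical
  have hsub : (univ.filter (fun f : Fin 4 → Fin T => ¬ Function.Injective f)) ⊆
      (univ.filter (fun p : Fin 4 × Fin 4 => p.1 < p.2)).biUnion
        (fun p => univ.filter (fun f : Fin 4 → Fin T => f p.1 = f p.2)) := by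
    intro f hf
    have hf' : ¬ Function.Injective f := (Finset.mem_filter.1 hf).2
    simp only [Function.Injective, not_forall] at hf'
    obtain ⟨a, b, hab, hne⟩ := hf'
    rw [Finset.mem_biUnion]
    rcases lt_or_gt_of_ne hne with h | h
    · exact ⟨(a, b), by simp [h], by simp [hab]⟩
    · exact ⟨(b, a), by simp [h], by simp [hab]⟩
  have hcard : ∀ p ∈ (univ.filter (fun p : Fin 4 × Fin 4 => p.1 < p.2)),
      (univ.filter (fun f : Fin 4 → Fin T => f p.1 = f p.2)).card ≤ T ^ 3 := by
    intro p hp
    have hlt : p.1 < p.2 := (Finset.mem_filter.1 hp).2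
    have : (univ.filter (fun f : Fin 4 → Fin T => f p.1 = f p.2)).card ≤
        (univ : Finset (Fin 3 → Fin T)).card := by
      refine Finset.card_le_card_of_injOn (fun f => fun i : Fin 3 => f (p.2.succAbove i)) ?_ ?_
      · intro f _; simp
      · intro f hf g hg hfg
        have hf' : f p.1 = f p.2 := by simpa using hf
        have hg' : g p.1 = g p.2 := by simpa using hg
        have hrest : ∀ i, i ≠ p.2 → f i = g i := by
          intro i hi
          obtain ⟨k, rfl⟩ := Fin.exists_succAbove_eq hi
          exact congrFun hfg k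
        funext i
        by_cases hi : i = p.2
        · rw [hi, ← hf', ← hg']; exact hrest _ hlt.ne
        · exact hrest i hi
    refine this.trans ?_
    simp
  calc (univ.filter (fun f : Fin 4 → Fin T => ¬ Function.Injective f)).card
      ≤ _ := Finset.card_le_card hsub
    _ ≤ ∑ p ∈ (univ.filter (fun p : Fin 4 × Fin 4 => p.1 < p.2)),
        (univ.filter (fun f : Fin 4 → Fin T => f p.1 = f p.2)).card := Finset.card_biUnion_le
    _ ≤ (univ.filter (fun p : Fin 4 × Fin 4 => p.1 < p.2)).card * T ^ 3 :=
        Finset.sum_le_card_nsmul _ _ _ hcard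
    _ = 6 * T ^ 3 := by
        congr 1

theorem t_KST_aux (T : ℕ) (G : Finset (Fin T × Fin T))
    (hG : ∀ f g : Fin 4 → Fin T, Function.Injective f → Function.Injective g →
      ∃ i j, (f i, g j) ∉ G) : G.card ^ 4 ≤ 9 * T ^ 7 := by
  classical
  -- the sum of the fourth powers
  have hpow : ∀ b : Fin T, (univ.filter (fun a => (a, b) ∈ G)).card ^ 4 =
      (univ.filter (fun f : Fin 4 → Fin T => ∀ i, (f i, b) ∈ G)).card := by
    intro b
    have h1 : (univ.filter (fun f : Fin 4 → Fin T => ∀ i, (f i, b) ∈ G)) =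
        Fintype.piFinset (fun _ : Fin 4 => univ.filter (fun a => (a, b) ∈ G)) := by
      ext f; simp
    rw [h1, Fintype.card_piFinset]
    simp
  have hsum4 : ∑ b : Fin T, (univ.filter (fun a => (a, b) ∈ G)).card ^ 4 ≤ 9 * T ^ 4 := by
    calc ∑ b : Fin T, (univ.filter (fun a => (a, b) ∈ G)).card ^ 4
        = ∑ b : Fin T, ∑ f : Fin 4 → Fin T, (if ∀ i, (f i, b) ∈ G then 1 else 0) := by
          refine Finset.sum_congr rfl fun b _ => ?_
          rw [hpow b, Finset.card_filter]
      _ = ∑ f : Fin 4 → Fin T, ∑ b : Fin T, (if ∀ i, (f i, b) ∈ G then 1 else 0) :=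
          Finset.sum_comm
      _ = ∑ f : Fin 4 → Fin T, (univ.filter (fun b => ∀ i, (f i, b) ∈ G)).card := by
          refine Finset.sum_congr rfl fun f _ => ?_
          rw [Finset.card_filter]
      _ ≤ ∑ f : Fin 4 → Fin T, (3 + (if ¬ Function.Injective f then T else 0)) := by
          refine Finset.sum_le_sum fun f _ => ?_
          by_cases hf : Function.Injective f
          · have : (univ.filter (fun b => ∀ i, (f i, b) ∈ G)).card ≤ 3 := by
              by_contra hcon
              have h4 : 4 ≤ (univ.filter (fun b => ∀ i, (f i, b) ∈ G)).card := by omega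
              let g := Finset.orderEmbOfCardLe (univ.filter (fun b => ∀ i, (f i, b) ∈ G)) h4
              obtain ⟨i, j, hij⟩ := hG f g hf g.injective
              have hm := Finset.orderEmbOfCardLe_mem
                (univ.filter (fun b => ∀ i, (f i, b) ∈ G)) h4 j
              exact hij ((Finset.mem_filter.1 hm).2 i)
            omega
          · have h1 : (univ.filter (fun b => ∀ i, (f i, b) ∈ G)).card ≤ T :=
              (Finset.card_le_univ _).trans (by simp)
            rw [if_pos hf]
            omega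
      _ = 3 * T ^ 4 + (univ.filter (fun f : Fin 4 → Fin T => ¬ Function.Injective f)).card * T := by
          rw [Finset.sum_add_distrib, ← Finset.sum_filter, Finset.sum_const, Finset.sum_const]
          simp [mul_comm]
      _ ≤ 3 * T ^ 4 + (6 * T ^ 3) * T :=
          Nat.add_le_add_left (Nat.mul_le_mul_right _ (noninj T)) _
      _ = 9 * T ^ 4 := by ring
  have hcard : G.card = ∑ b : Fin T, (univ.filter (fun a => (a, b) ∈ G)).card := by
    have h1 : G.card = ∑ p : Fin T × Fin T, (if p ∈ G then 1 else 0) := by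
      rw [← Finset.card_filter]; simp
    rw [h1, Fintype.sum_prod_type_right]
    refine Finset.sum_congr rfl fun b _ => ?_
    rw [Finset.card_filter]
  set x : Fin T → ℕ := fun b => (univ.filter (fun a => (a, b) ∈ G)).card with hx
  have s1 : (∑ b, x b) ^ 2 ≤ T * ∑ b, x b ^ 2 := by
    have := sq_sum_le_card_mul_sum_sq (s := (univ : Finset (Fin T))) (f := x)
    simpa using this
  have s2 : (∑ b, x b ^ 2) ^ 2 ≤ T * ∑ b, x b ^ 4 := by
    have := sq_sum_le_card_mul_sum_sq (s := (univ : Finset (Fin T))) (f := fun b => x b ^ 2)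
    simp only [← pow_mul] at this
    simpa using this
  calc G.card ^ 4 = ((∑ b, x b) ^ 2) ^ 2 := by rw [hcard]; ring
    _ ≤ (T * ∑ b, x b ^ 2) ^ 2 := Nat.pow_le_pow_left s1 2
    _ = T ^ 2 * (∑ b, x b ^ 2) ^ 2 := by ring
    _ ≤ T ^ 2 * (T * ∑ b, x b ^ 4) := Nat.mul_le_mul_left _ s2
    _ ≤ T ^ 2 * (T * (9 * T ^ 4)) := Nat.mul_le_mul_left _ (Nat.mul_le_mul_left _ hsum4)
    _ = 9 * T ^ 7 := by ring

/-- LR-KST -/
theorem t_KST : Pool.Agent.NPC.R537LR.S_KST := fun T G h => t_KST_aux T G h

end Pool.Agent.R12.LRKST
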