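import Pool.Agent.R12.Book

set_option autoImplicit false

/-! Super edge-magic labelings of ladders from tables of linear data. -/

namespace Pool.Agent.R12.Ladder

open Pool.Agent.R12.SEM
open Pool.Agent.R12.Book (Lin ev ladd ev_ladd chain chain_cover)

/-- The ladder with `n` rungs. -/
abbrev ladder (n : ℕ) : SimpleGraph (Fin n × Fin 2) :=
  SimpleGraph.pathGraph n □ SimpleGraph.pathGraph 2

theorem card_ladder (n : ℕ) : Fintype.card (Fin n × Fin 2) = 2 * n := by
  simp
  ring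

/-- Enumeration of the edges of the ladder with `n + 1` rungs. -/
def ledge (n : ℕ) : Fin (n + 1) ⊕ (Fin n × Fin 2) → Sym2 (Fin (n + 1) × Fin 2)
  | Sum.inl i => s((i, 0), (i, 1))
  | Sum.inr (i, c) => s((i.castSucc, c), (i.succ, c))

theorem ledge_mem (n : ℕ) (e : Fin (n + 1) ⊕ (Fin n × Fin 2)) :
    ledge n e ∈ (ladder (n + 1)).edgeSet := by
  rcases e with i | ⟨i, c⟩
  · simp [ledge, ladder, SimpleGraph.boxProd_adj, SimpleGraph.pathGraph_adj]
  · simp [ledge, ladder, SimpleGraph.boxProd_adj, SimpleGraph.pathGraph_adj]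

theorem ledge_surj (n : ℕ) (e : Sym2 (Fin (n + 1) × Fin 2)) (he : e ∈ (ladder (n + 1)).edgeSet) :
    ∃ x, ledge n x = e := by
  induction e using Sym2.ind with
  | _ u v =>
    obtain ⟨u1, u2⟩ := u
    obtain ⟨v1, v2⟩ := v
    rw [SimpleGraph.mem_edgeSet, SimpleGraph.boxProd_adj] at he
    simp only [SimpleGraph.pathGraph_adj] at he
    rcases he with ⟨h1, h2⟩ | ⟨h1, h2⟩
    · subst h2
      rcases h1 with h1 | h1
      · refine ⟨Sum.inr (⟨u1.val, by omega⟩, u2), ?_⟩
        have e1 : (⟨u1.val, by omega⟩ : Fin n).castSucc = u1 := rfl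
        have e2 : (⟨u1.val, by omega⟩ : Fin n).succ = v1 := Fin.ext h1
        simp only [ledge]
        rw [e1, e2]
      · refine ⟨Sum.inr (⟨v1.val, by omega⟩, u2), ?_⟩
        have e1 : (⟨v1.val, by omega⟩ : Fin n).castSucc = v1 := rfl
        have e2 : (⟨v1.val, by omega⟩ : Fin n).succ = u1 := Fin.ext h1
        simp only [ledge]
        rw [e1, e2]
        exact Sym2.eq_swap
    · subst h2
      refine ⟨Sum.inl u1, ?_⟩
      fin_cases u2 <;> fin_cases v2 <;> simp at h1
      · rfl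
      · exact Sym2.eq_swap

theorem ncard_ladder (n : ℕ) (hn : 0 < n) : (ladder n).edgeSet.ncard ≤ 3 * n - 2 := by
  obtain ⟨m, rfl⟩ : ∃ m, n = m + 1 := ⟨n - 1, by omega⟩
  have h1 : (ladder (m + 1)).edgeSet ⊆ ledge m '' Set.univ := by
    intro e he
    obtain ⟨x, hx⟩ := ledge_surj m e he
    exact ⟨x, Set.mem_univ _, hx⟩
  have h2 := Set.ncard_le_ncard h1 (Set.toFinite _)
  have h3 := Set.ncard_image_le (f := ledge m) (s := Set.univ) (Set.toFinite _)
  rw [Set.ncard_univ, Nat.card_eq_fintype_card] at h3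
  have h5 : Fintype.card (Fin (m + 1) ⊕ (Fin m × Fin 2)) = 3 * m + 1 := by
    simp
    ring
  rw [h5] at h3
  omega

/-- Consecutive entries of a list. -/
def Nxt (L : List (ℕ × ℕ)) (p q : ℕ × ℕ) : Prop := ∃ i : ℕ, L[i]? = some p ∧ L[i + 1]? = some q

/-- The labeling of the ladder given by a list of rungs; the two labels of a rung are the labels
of its vertices in the two classes of the bipartition. -/
theorem ladder_of_list (n s : ℕ) (hn : 0 < n) (L : List (ℕ × ℕ)) (hL : L.length = n)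
    (lab : ∀ z, 1 ≤ z → z < 2 * n + 1 → ∃ p ∈ L, z = p.1 ∨ z = p.2)
    (sum : ∀ z, s ≤ z → z < s + (3 * n - 2) →
      (∃ p ∈ L, z = p.1 + p.2) ∨ ∃ p q, Nxt L p q ∧ (z = p.1 + q.2 ∨ z = p.2 + q.1)) :
    SuperEdgeMagic (ladder n) := by
  subst hL
  let f : Fin L.length × Fin 2 → ℕ := fun v =>
    if (v.1.val + v.2.val) % 2 = 0 then (L.get v.1).1 else (L.get v.1).2
  apply sem_of_cover (ladder L.length) f s (3 * L.length - 2)
  · exact ncard_ladder _ hn
  · intro z h1 h2
    rw [card_ladder] at h2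
    obtain ⟨p, hp, h⟩ := lab z h1 (by omega)
    obtain ⟨i, rfl⟩ := List.get_of_mem hp
    rcases Nat.even_or_odd' i.val with ⟨c, hc | hc⟩
    · rcases h with h | h
      · refine ⟨(i, 0), ?_⟩
        simp only [f]
        rw [if_pos (by simp; omega)]
        exact h.symm
      · refine ⟨(i, 1), ?_⟩
        simp only [f]
        rw [if_neg (by simp; omega)]
        exact h.symm
    · rcases h with h | h
      · refine ⟨(i, 1), ?_⟩
        simp only [f]
        rw [if_pos (by simp; omega)]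
        exact h.symm
      · refine ⟨(i, 0), ?_⟩
        simp only [f]
        rw [if_neg (by simp; omega)]
        exact h.symm
  · intro z h1 h2
    rcases sum z h1 h2 with ⟨p, hp, h⟩ | ⟨p, q, ⟨i, hi1, hi2⟩, h⟩
    · obtain ⟨i, rfl⟩ := List.get_of_mem hp
      refine ⟨(i, 0), (i, 1), by
        simp [ladder, SimpleGraph.boxProd_adj, SimpleGraph.pathGraph_adj], ?_⟩
      simp only [f]
      rcases Nat.even_or_odd' i.val with ⟨c, hc | hc⟩
      · rw [if_pos (by simp; omega), if_neg (by simp; omega)]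
        exact h.symm
      · rw [if_neg (by simp; omega), if_pos (by simp; omega), h, Nat.add_comm]
    · obtain ⟨li1, e1⟩ := List.getElem?_eq_some_iff.1 hi1
      obtain ⟨li2, e2⟩ := List.getElem?_eq_some_iff.1 hi2
      have g1 : L.get ⟨i, li1⟩ = p := e1
      have g2 : L.get ⟨i + 1, li2⟩ = q := e2
      have adj : ∀ c : Fin 2, (ladder L.length).Adj (⟨i, li1⟩, c) (⟨i + 1, li2⟩, c) := by
        intro c
        simp [ladder, SimpleGraph.boxProd_adj, SimpleGraph.pathGraph_adj]
      rcases Nat.even_or_odd' i with ⟨c, hc | hc⟩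
      · rcases h with h | h
        · refine ⟨_, _, adj 0, ?_⟩
          simp only [f]
          rw [if_pos (by simp; omega), if_neg (by simp; omega), g1, g2, h]
        · refine ⟨_, _, adj 1, ?_⟩
          simp only [f]
          rw [if_neg (by simp; omega), if_pos (by simp; omega), g1, g2, h]
      · rcases h with h | h
        · refine ⟨_, _, adj 1, ?_⟩
          simp only [f]
          rw [if_pos (by simp; omega), if_neg (by simp; omega), g1, g2, h]
        · refine ⟨_, _, adj 0, ?_⟩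
          simp only [f]
          rw [if_neg (by simp; omega), if_pos (by simp; omega), g1, g2, h]

/-! ### Tables -/

/-- A block `(m, a, sa, b, sb)` stands for the rungs `(a + sa j, b + sb j)`, `j < m`. -/
structure Blk where
  /-- number of rungs -/
  m : Lin
  /-- first label of the first kind -/
  a : Lin
  /-- step -/
  sa : ℕ
  /-- first label of the second kind -/
  b : Lin
  /-- step -/
  sb : ℕ

/-- The rungs of a block. -/
def Blk.rungs (t : ℕ) (k : Blk) : List (ℕ × ℕ) :=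
  (List.range (ev t k.m)).map fun j => (ev t k.a + k.sa * j, ev t k.b + k.sb * j)

/-- The rungs of a list of blocks. -/
def rungs (t : ℕ) (D : List Blk) : List (ℕ × ℕ) := D.flatMap (Blk.rungs t)

/-- Total number of rungs as a linear form. -/
def total : List Blk → Lin
  | [] => (0, 0)
  | k :: D => ladd k.m (total D)

theorem length_rungs (t : ℕ) (D : List Blk) : (rungs t D).length = ev t (total D) := by
  induction D with
  | nil => simp [rungs, total, ev]
  | cons k D ih =>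
    simp only [rungs, total] at ih ⊢
    rw [List.flatMap_cons, List.length_append, ih, ev_ladd]
    simp [Blk.rungs]

theorem mem_rungs {t : ℕ} {D : List Blk} {i : ℕ} {k : Blk} (h : D[i]? = some k) {j : ℕ}
    (hj : j < ev t k.m) : (ev t k.a + k.sa * j, ev t k.b + k.sb * j) ∈ rungs t D := by
  unfold rungs
  rw [List.mem_flatMap]
  refine ⟨k, List.mem_of_getElem? h, ?_⟩
  unfold Blk.rungs
  rw [List.mem_map]
  exact ⟨j, List.mem_range.2 hj, rfl⟩

theorem nxt_append_left {L : List (ℕ × ℕ)} {p q : ℕ × ℕ} (M : List (ℕ × ℕ)) (h : Nxt L p q) :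
    Nxt (L ++ M) p q := by
  obtain ⟨i, h1, h2⟩ := h
  obtain ⟨l1, -⟩ := List.getElem?_eq_some_iff.1 h1
  obtain ⟨l2, -⟩ := List.getElem?_eq_some_iff.1 h2
  exact ⟨i, by rw [List.getElem?_append_left l1, h1], by rw [List.getElem?_append_left l2, h2]⟩

theorem nxt_append_right {L : List (ℕ × ℕ)} {p q : ℕ × ℕ} (M : List (ℕ × ℕ)) (h : Nxt L p q) :
    Nxt (M ++ L) p q := by
  obtain ⟨i, h1, h2⟩ := h
  refine ⟨M.length + i, ?_, ?_⟩
  · rw [List.getElem?_append_right (by omega)]
    simpa using h1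
  · rw [List.getElem?_append_right (by omega)]
    have : M.length + i + 1 - M.length = i + 1 := by omega
    rw [this, h2]

theorem blk_get {t : ℕ} {k : Blk} {j : ℕ} (hj : j < ev t k.m) :
    (Blk.rungs t k)[j]? = some (ev t k.a + k.sa * j, ev t k.b + k.sb * j) := by
  unfold Blk.rungs
  simp [List.getElem?_map, List.getElem?_range hj]

/-- Consecutive rungs of one block. -/
theorem nxt_in {t : ℕ} {D : List Blk} {i : ℕ} {k : Blk} (h : D[i]? = some k) {j : ℕ}
    (hj : j + 1 < ev t k.m) :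
    Nxt (rungs t D) (ev t k.a + k.sa * j, ev t k.b + k.sb * j)
      (ev t k.a + k.sa * (j + 1), ev t k.b + k.sb * (j + 1)) := by
  induction D generalizing i with
  | nil => simp at h
  | cons k' D ih =>
    unfold rungs
    rw [List.flatMap_cons]
    cases i with
    | zero =>
      simp only [List.getElem?_cons_zero, Option.some.injEq] at h
      subst h
      apply nxt_append_left
      exact ⟨j, blk_get (by omega), blk_get hj⟩
    | succ i =>
      simp only [List.getElem?_cons_succ] at h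
      apply nxt_append_right
      exact ih h

/-- Last rung of a block and first rung of the next. -/
theorem nxt_next {t : ℕ} {D : List Blk} {i : ℕ} {k l : Blk} (h : D[i]? = some k)
    (h' : D[i + 1]? = some l) (hk : 0 < ev t k.m) (hl : 0 < ev t l.m) :
    Nxt (rungs t D) (ev t k.a + k.sa * (ev t k.m - 1), ev t k.b + k.sb * (ev t k.m - 1))
      (ev t l.a, ev t l.b) := by
  induction D generalizing i with
  | nil => simp at h
  | cons k' D ih =>
    unfold rungs
    rw [List.flatMap_cons]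
    cases i with
    | zero =>
      simp only [List.getElem?_cons_zero, Option.some.injEq] at h
      subst h
      simp only [Nat.zero_add, List.getElem?_cons_succ] at h'
      have hlen : (Blk.rungs t k').length = ev t k'.m := by simp [Blk.rungs]
      refine ⟨ev t k'.m - 1, ?_, ?_⟩
      · rw [List.getElem?_append_left (by omega)]
        exact blk_get (by omega)
      · rw [List.getElem?_append_right (by omega)]
        have e : ev t k'.m - 1 + 1 - (Blk.rungs t k').length = 0 := by omega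
        rw [e]
        cases D with
        | nil => simp at h'
        | cons l' D =>
          simp only [List.getElem?_cons_zero, Option.some.injEq] at h'
          subst h'
          rw [List.flatMap_cons, List.getElem?_append_left (by simp [Blk.rungs]; exact hl),
            blk_get hl]
          simp
    | succ i =>
      simp only [List.getElem?_cons_succ] at h h'
      apply nxt_append_right
      exact ih h h'

/-- Pieces of intervals of labels. -/
inductive LItem where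
  | X (i : ℕ) | Y (i : ℕ) | XY (i j : ℕ) | YX (i j : ℕ)

/-- Pieces of intervals of sums. -/
inductive SItem where
  | P (i : ℕ) | U (i : ℕ) | V (i : ℕ) | R (i : ℕ)

/-- Start and length of a piece of labels. -/
def LItem.iv (D : List Blk) : LItem → Option (Lin × Lin)
  | .X i => D[i]?.bind fun k => if k.sa = 1 ∨ k.m = (1, 0) then some (k.a, k.m) else none
  | .Y i => D[i]?.bind fun k => if k.sb = 1 ∨ k.m = (1, 0) then some (k.b, k.m) else none
  | .XY i j => D[i]?.bind fun k => D[j]?.bind fun l =>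
      if k.sa = 2 ∧ l.sb = 2 ∧ k.m = l.m ∧ l.b = ladd k.a (1, 0) then
        some (k.a, ladd k.m k.m) else none
  | .YX i j => D[i]?.bind fun k => D[j]?.bind fun l =>
      if k.sb = 2 ∧ l.sa = 2 ∧ k.m = l.m ∧ l.a = ladd k.b (1, 0) then
        some (k.b, ladd k.m k.m) else none

/-- The last label of an arithmetic progression. -/
def last (a : Lin) (s : ℕ) (m : Lin) : Lin := (a.1 + s * (m.1 - 1), a.2 + s * m.2)

theorem ev_last {t : ℕ} {a : Lin} {s : ℕ} {m : Lin} (hm : 0 < m.1) :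
    ev t (last a s m) = ev t a + s * (ev t m - 1) := by
  obtain ⟨m1, m2⟩ := m
  obtain ⟨c, rfl⟩ : ∃ c, m1 = c + 1 := ⟨m1 - 1, by simp only at hm; omega⟩
  simp only [ev, last]
  have : c + 1 + m2 * t - 1 = c + m2 * t := by omega
  rw [this]
  simp only [Nat.add_sub_cancel]
  ring

/-- Start and length of a piece of sums. -/
def SItem.iv (D : List Blk) : SItem → Option (Lin × Lin)
  | .P i => D[i]?.bind fun k => if k.m = (1, 0) then some (ladd k.a k.b, (1, 0)) else none
  | .U i => D[i]?.bind fun k => D[i + 1]?.bind fun l =>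
      if 0 < k.m.1 ∧ 0 < l.m.1 then some (ladd (last k.a k.sa k.m) l.b, (1, 0)) else none
  | .V i => D[i]?.bind fun k => D[i + 1]?.bind fun l =>
      if 0 < k.m.1 ∧ 0 < l.m.1 then some (ladd (last k.b k.sb k.m) l.a, (1, 0)) else none
  | .R i => D[i]?.bind fun k =>
      if ((k.sa = 1 ∧ k.sb = 2) ∨ (k.sa = 2 ∧ k.sb = 1)) ∧ 0 < k.m.1 then
        some (ladd k.a k.b, (3 * k.m.1 - 2, 3 * k.m.2)) else none

theorem pos_ev {t : ℕ} {m : Lin} (h : 0 < m.1) : 0 < ev t m := by
  simp only [ev]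
  omega

/-- The main check. -/
theorem ladder_of_table (n s : Lin) (D : List Blk) (LI : List LItem) (SI : List SItem)
    (hn0 : decide (0 < n.1) = true) (hn : total D = n)
    (hl : chain (1, 0) (LI.map (LItem.iv D)) (ladd (ladd n n) (1, 0)) = true)
    (hs : chain s (SI.map (SItem.iv D)) (s.1 + 3 * n.1 - 2, s.2 + 3 * n.2) = true)
    (t : ℕ) : SuperEdgeMagic (ladder (ev t n)) := by
  have hn0 : 0 < n.1 := by simpa using hn0
  have hone : ev t (1, 0) = 1 := by simp [ev]
  apply ladder_of_list (ev t n) (ev t s) (pos_ev hn0) (rungs t D)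
  · rw [length_rungs, hn]
  · intro z h1 h2
    obtain ⟨s', l', hm, h3, h4⟩ := chain_cover (t := t) (z := z) hl
      (by simp only [ev]; omega)
      (by simp only [ev_ladd]; simp only [ev] at h2 ⊢; omega)
    rw [List.mem_map] at hm
    obtain ⟨it, -, hit⟩ := hm
    cases it with
    | X i =>
      simp only [LItem.iv, Option.bind_eq_some_iff] at hit
      obtain ⟨k, hk, hit⟩ := hit
      split_ifs at hit with hc
      · simp only [Option.some.injEq, Prod.mk.injEq] at hit
        obtain ⟨rfl, rfl⟩ := hit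
        refine ⟨_, mem_rungs hk (j := z - ev t k.a) (by omega), Or.inl ?_⟩
        simp only
        rcases hc with hc | hc
        · rw [hc]
          omega
        · rw [hc, hone] at h4
          have : z - ev t k.a = 0 := by omega
          rw [this]
          omega
    | Y i =>
      simp only [LItem.iv, Option.bind_eq_some_iff] at hit
      obtain ⟨k, hk, hit⟩ := hit
      split_ifs at hit with hc
      · simp only [Option.some.injEq, Prod.mk.injEq] at hit
        obtain ⟨rfl, rfl⟩ := hit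
        refine ⟨_, mem_rungs hk (j := z - ev t k.b) (by omega), Or.inr ?_⟩
        simp only
        rcases hc with hc | hc
        · rw [hc]
          omega
        · rw [hc, hone] at h4
          have : z - ev t k.b = 0 := by omega
          rw [this]
          omega
    | XY i j =>
      simp only [LItem.iv, Option.bind_eq_some_iff] at hit
      obtain ⟨k, hk, l, hl', hit⟩ := hit
      split_ifs at hit with hc
      · simp only [Option.some.injEq, Prod.mk.injEq] at hit
        obtain ⟨rfl, rfl⟩ := hit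
        obtain ⟨c1, c2, c3, c4⟩ := hc
        rw [ev_ladd] at h4
        have e4 := congrArg (ev t) c4
        rw [ev_ladd, hone] at e4
        rcases Nat.even_or_odd' (z - ev t k.a) with ⟨c, hc | hc⟩
        · refine ⟨_, mem_rungs hk (j := c) (by omega), Or.inl ?_⟩
          simp only
          rw [c1]
          omega
        · refine ⟨_, mem_rungs hl' (j := c) (by rw [← c3]; omega), Or.inr ?_⟩
          simp only
          rw [c2]
          omega
    | YX i j =>
      simp only [LItem.iv, Option.bind_eq_some_iff] at hit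
      obtain ⟨k, hk, l, hl', hit⟩ := hit
      split_ifs at hit with hc
      · simp only [Option.some.injEq, Prod.mk.injEq] at hit
        obtain ⟨rfl, rfl⟩ := hit
        obtain ⟨c1, c2, c3, c4⟩ := hc
        rw [ev_ladd] at h4
        have e4 := congrArg (ev t) c4
        rw [ev_ladd, hone] at e4
        rcases Nat.even_or_odd' (z - ev t k.b) with ⟨c, hc | hc⟩
        · refine ⟨_, mem_rungs hk (j := c) (by omega), Or.inr ?_⟩
          simp only
          rw [c1]
          omega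
        · refine ⟨_, mem_rungs hl' (j := c) (by rw [← c3]; omega), Or.inl ?_⟩
          simp only
          rw [c2]
          omega
  · intro z h1 h2
    obtain ⟨s', l', hm, h3, h4⟩ := chain_cover (t := t) (z := z) hs h1
      (by
        have e1 : 3 * (n.2 * t) = 3 * n.2 * t := by ring
        have e2 : (s.2 + 3 * n.2) * t = s.2 * t + 3 * n.2 * t := by ring
        simp only [ev] at h2 ⊢
        rw [e2]
        omega)
    rw [List.mem_map] at hm
    obtain ⟨it, -, hit⟩ := hm
    cases it with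
    | P i =>
      simp only [SItem.iv, Option.bind_eq_some_iff] at hit
      obtain ⟨k, hk, hit⟩ := hit
      split_ifs at hit with hc
      · simp only [Option.some.injEq, Prod.mk.injEq] at hit
        obtain ⟨rfl, rfl⟩ := hit
        left
        rw [ev_ladd] at h3 h4
        refine ⟨_, mem_rungs hk (j := 0) (by rw [hc]; omega), ?_⟩
        simp only
        omega
    | U i =>
      simp only [SItem.iv, Option.bind_eq_some_iff] at hit
      obtain ⟨k, hk, l, hl', hit⟩ := hit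
      split_ifs at hit with hc
      · simp only [Option.some.injEq, Prod.mk.injEq] at hit
        obtain ⟨rfl, rfl⟩ := hit
        obtain ⟨c1, c2⟩ := hc
        right
        rw [ev_ladd, ev_last c1] at h3 h4
        refine ⟨_, _, nxt_next hk hl' (pos_ev c1) (pos_ev c2), Or.inl ?_⟩
        simp only
        omega
    | V i =>
      simp only [SItem.iv, Option.bind_eq_some_iff] at hit
      obtain ⟨k, hk, l, hl', hit⟩ := hit
      split_ifs at hit with hc
      · simp only [Option.some.injEq, Prod.mk.injEq] at hit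
        obtain ⟨rfl, rfl⟩ := hit
        obtain ⟨c1, c2⟩ := hc
        right
        rw [ev_ladd, ev_last c1] at h3 h4
        refine ⟨_, _, nxt_next hk hl' (pos_ev c1) (pos_ev c2), Or.inr ?_⟩
        simp only
        omega
    | R i =>
      simp only [SItem.iv, Option.bind_eq_some_iff] at hit
      obtain ⟨k, hk, hit⟩ := hit
      split_ifs at hit with hc
      · simp only [Option.some.injEq, Prod.mk.injEq] at hit
        obtain ⟨rfl, rfl⟩ := hit
        obtain ⟨hc, c3⟩ := hc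
        rw [ev_ladd] at h3 h4
        have e5 : ev t (3 * k.m.1 - 2, 3 * k.m.2) = 3 * ev t k.m - 2 := by
          simp only [ev]
          have : 3 * k.m.2 * t = 3 * (k.m.2 * t) := by ring
          rw [this]
          omega
        rw [e5] at h4
        obtain ⟨d, r, hr, hd⟩ : ∃ d r, r < 3 ∧ z = ev t k.a + ev t k.b + (3 * d + r) :=
          ⟨(z - (ev t k.a + ev t k.b)) / 3, (z - (ev t k.a + ev t k.b)) % 3, by omega, by omega⟩
        obtain rfl | rfl | rfl : r = 0 ∨ r = 1 ∨ r = 2 := by omega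
        · left
          refine ⟨_, mem_rungs hk (j := d) (by omega), ?_⟩
          simp only
          rcases hc with ⟨c1, c2⟩ | ⟨c1, c2⟩
          · rw [c1, c2]
            omega
          · rw [c1, c2]
            omega
        · right
          refine ⟨_, _, nxt_in hk (j := d) (by omega), ?_⟩
          simp only
          rcases hc with ⟨c1, c2⟩ | ⟨c1, c2⟩
          · right
            rw [c1, c2]
            omega
          · left
            rw [c1, c2]
            omega
        · right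
          refine ⟨_, _, nxt_in hk (j := d) (by omega), ?_⟩
          simp only
          rcases hc with ⟨c1, c2⟩ | ⟨c1, c2⟩
          · left
            rw [c1, c2]
            omega
          · right
            rw [c1, c2]
            omega

/-- Table `F`. -/
def DF : List Blk := [
  ⟨(1, 0), (13, 1), 0, (17, 3), 0⟩, ⟨(1, 0), (10, 1), 0, (7, 0), 0⟩,
  ⟨(1, 0), (27, 4), 0, (5, 0), 0⟩, ⟨(1, 1), (14, 1), 2, (8, 0), 1⟩,
  ⟨(1, 0), (1, 0), 0, (9, 1), 0⟩, ⟨(1, 0), (2, 0), 0, (11, 1), 0⟩,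
  ⟨(1, 0), (3, 0), 0, (22, 4), 0⟩, ⟨(1, 0), (4, 0), 0, (25, 4), 0⟩,
  ⟨(1, 0), (6, 0), 0, (12, 1), 0⟩, ⟨(1, 1), (21, 3), 1, (15, 1), 2⟩,
  ⟨(1, 0), (23, 4), 0, (16, 3), 0⟩, ⟨(1, 0), (24, 4), 0, (18, 3), 0⟩,
  ⟨(1, 0), (26, 4), 0, (19, 3), 0⟩, ⟨(1, 0), (28, 4), 0, (20, 3), 0⟩]

theorem TF (t : ℕ) : SuperEdgeMagic (ladder (ev t (14, 2))) :=
  ladder_of_table (14, 2) (9, 1) DF [
    .X 4, .X 5, .X 6, .X 7, .Y 2, .X 8, .Y 1, .Y 3, .Y 4, .X 1, .Y 5, .Y 8, .X 0, .XY 3 9,
    .Y 10, .Y 0, .Y 11, .Y 12, .Y 13, .X 9, .Y 6, .X 10, .X 11, .Y 7, .X 12, .X 2, .X 13] [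
    .V 3, .P 4, .V 4, .U 4, .P 5, .V 5, .U 1, .U 7, .P 1, .P 8, .V 2, .U 0, .U 8, .R 3, .U 3,
    .U 5, .P 6, .V 6, .V 0, .U 6, .P 7, .P 0, .V 7, .P 2, .V 8, .V 1, .U 2, .R 9, .U 9, .V 9,
    .P 10, .V 10, .U 10, .P 11, .U 11, .V 11, .P 12, .U 12, .V 12, .P 13]
    (by decide +kernel) (by decide +kernel) (by decide +kernel) (by decide +kernel) t

/-- Table `S4`. -/
def DS4 : List Blk := [
  ⟨(1, 0), (8, 0), 0, (4, 0), 0⟩, ⟨(1, 0), (3, 0), 0, (2, 0), 0⟩,
  ⟨(1, 0), (7, 0), 0, (1, 0), 0⟩, ⟨(1, 0), (5, 0), 0, (6, 0), 0⟩]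

theorem TS4 (t : ℕ) : SuperEdgeMagic (ladder (ev t (4, 0))) :=
  ladder_of_table (4, 0) (4, 0) DS4 [
    .Y 2, .Y 1, .X 1, .Y 0, .X 3, .Y 3, .X 2, .X 0] [
    .U 1, .P 1, .V 2, .V 0, .P 2, .V 1, .U 0, .P 3, .P 0, .U 2]
    (by decide +kernel) (by decide +kernel) (by decide +kernel) (by decide +kernel) t

/-- Table `S6`. -/
def DS6 : List Blk := [
  ⟨(1, 0), (5, 0), 0, (11, 0), 0⟩, ⟨(1, 0), (1, 0), 0, (9, 0), 0⟩,
  ⟨(1, 0), (2, 0), 0, (4, 0), 0⟩, ⟨(1, 0), (3, 0), 0, (6, 0), 0⟩,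
  ⟨(1, 0), (7, 0), 0, (12, 0), 0⟩, ⟨(1, 0), (8, 0), 0, (10, 0), 0⟩]

theorem TS6 (t : ℕ) : SuperEdgeMagic (ladder (ev t (6, 0))) :=
  ladder_of_table (6, 0) (5, 0) DS6 [
    .X 1, .X 2, .X 3, .Y 2, .X 0, .Y 3, .X 4, .X 5, .Y 1, .Y 5, .Y 0, .Y 4] [
    .U 1, .P 2, .V 2, .U 2, .P 3, .P 1, .V 1, .V 0, .V 3, .U 0, .U 3, .P 0, .U 4, .P 5, .P 4,
    .V 4]
    (by decide +kernel) (by decide +kernel) (by decide +kernel) (by decide +kernel) t

/-- Table `S8`. -/
def DS8 : List Blk := [
  ⟨(1, 0), (14, 0), 0, (7, 0), 0⟩, ⟨(1, 0), (6, 0), 0, (4, 0), 0⟩,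
  ⟨(1, 0), (5, 0), 0, (1, 0), 0⟩, ⟨(1, 0), (13, 0), 0, (3, 0), 0⟩,
  ⟨(1, 0), (9, 0), 0, (2, 0), 0⟩, ⟨(1, 0), (15, 0), 0, (10, 0), 0⟩,
  ⟨(1, 0), (12, 0), 0, (11, 0), 0⟩, ⟨(1, 0), (16, 0), 0, (8, 0), 0⟩]

theorem TS8 (t : ℕ) : SuperEdgeMagic (ladder (ev t (8, 0))) :=
  ladder_of_table (8, 0) (6, 0) DS8 [
    .Y 2, .Y 4, .Y 3, .Y 1, .X 2, .X 1, .Y 0, .Y 7, .X 4, .Y 5, .Y 6, .X 6, .X 3, .X 0, .X 5,
    .X 7] [
    .P 2, .U 1, .U 2, .V 1, .P 1, .P 4, .V 3, .V 0, .V 2, .U 3, .P 3, .V 4, .U 0, .U 4, .U 6,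
    .P 0, .V 5, .P 6, .P 7, .P 5, .U 5, .V 6]
    (by decide +kernel) (by decide +kernel) (by decide +kernel) (by decide +kernel) t

/-- Table `S10`. -/
def DS10 : List Blk := [
  ⟨(1, 0), (12, 0), 0, (17, 0), 0⟩, ⟨(1, 0), (4, 0), 0, (5, 0), 0⟩,
  ⟨(1, 0), (2, 0), 0, (6, 0), 0⟩, ⟨(1, 0), (7, 0), 0, (13, 0), 0⟩,
  ⟨(1, 0), (9, 0), 0, (16, 0), 0⟩, ⟨(1, 0), (3, 0), 0, (15, 0), 0⟩,
  ⟨(1, 0), (1, 0), 0, (11, 0), 0⟩, ⟨(1, 0), (20, 0), 0, (10, 0), 0⟩,
  ⟨(1, 0), (18, 0), 0, (14, 0), 0⟩, ⟨(1, 0), (19, 0), 0, (8, 0), 0⟩]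

theorem TS10 (t : ℕ) : SuperEdgeMagic (ladder (ev t (10, 0))) :=
  ladder_of_table (10, 0) (7, 0) DS10 [
    .X 6, .X 2, .X 5, .X 1, .Y 1, .Y 2, .X 3, .Y 9, .X 4, .Y 7, .Y 6, .X 0, .Y 3, .Y 8, .Y 5,
    .Y 4, .Y 0, .X 8, .X 9, .X 7] [
    .V 1, .P 2, .P 1, .U 1, .U 6, .P 6, .V 2, .U 5, .U 2, .V 5, .U 0, .P 5, .V 4, .P 3, .V 0,
    .V 3, .U 3, .U 4, .P 4, .U 8, .P 9, .V 7, .P 0, .P 7, .V 6, .P 8, .V 8, .U 7]
    (by decide +kernel) (by decide +kernel) (by decide +kernel) (by decide +kernel) t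

/-- Table `S12`. -/
def DS12 : List Blk := [
  ⟨(1, 0), (16, 0), 0, (24, 0), 0⟩, ⟨(1, 0), (5, 0), 0, (10, 0), 0⟩,
  ⟨(1, 0), (3, 0), 0, (9, 0), 0⟩, ⟨(1, 0), (15, 0), 0, (8, 0), 0⟩,
  ⟨(1, 0), (2, 0), 0, (7, 0), 0⟩, ⟨(1, 0), (11, 0), 0, (6, 0), 0⟩,
  ⟨(1, 0), (22, 0), 0, (14, 0), 0⟩, ⟨(1, 0), (21, 0), 0, (17, 0), 0⟩,
  ⟨(1, 0), (20, 0), 0, (13, 0), 0⟩, ⟨(1, 0), (19, 0), 0, (1, 0), 0⟩,
  ⟨(1, 0), (18, 0), 0, (12, 0), 0⟩, ⟨(1, 0), (4, 0), 0, (23, 0), 0⟩]

theorem TS12 (t : ℕ) : SuperEdgeMagic (ladder (ev t (12, 0))) :=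
  ladder_of_table (12, 0) (8, 0) DS12 [
    .Y 9, .X 4, .X 2, .X 11, .X 1, .Y 5, .Y 4, .Y 3, .Y 2, .Y 1, .X 5, .Y 10, .Y 8, .Y 6, .X 3,
    .X 0, .Y 7, .X 10, .X 9, .X 8, .X 7, .X 6, .Y 11, .Y 0] [
    .U 4, .P 4, .V 3, .U 2, .P 2, .V 1, .U 1, .P 1, .V 10, .P 5, .V 4, .V 9, .P 9, .U 8, .U 3,
    .P 3, .V 2, .U 5, .U 0, .P 11, .V 5, .V 0, .P 10, .U 9, .V 8, .P 8, .U 7, .V 6, .P 6, .V 7,
    .P 7, .U 6, .P 0, .U 10]
    (by decide +kernel) (by decide +kernel) (by decide +kernel) (by decide +kernel) t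

theorem ladder_even (n : ℕ) (h4 : 4 ≤ n) (h : Even n) : SuperEdgeMagic (ladder n) := by
  have h2 := Nat.even_iff.1 h
  rcases Nat.lt_or_ge n 14 with h12 | h12
  · obtain rfl | rfl | rfl | rfl | rfl : n = 4 ∨ n = 6 ∨ n = 8 ∨ n = 10 ∨ n = 12 := by omega
    · exact TS4 0
    · exact TS6 0
    · exact TS8 0
    · exact TS10 0
    · exact TS12 0
  · obtain ⟨t, rfl⟩ : ∃ t, n = 14 + 2 * t := ⟨(n - 14) / 2, by omega⟩
    exact TF t

/-- The ladder with two rungs, a cycle of length four, is not super edge-magic. -/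
theorem not_ladder_two : ¬ SuperEdgeMagic (ladder 2) := by
  intro h
  obtain ⟨f, s, h1, h2⟩ := sem_sums h
  have hc := ncard_ladder 2 (by omega)
  rw [card_ladder] at h1
  set a := f (0, 0) with ha
  set b := f (0, 1) with hb
  set c := f (1, 1) with hc'
  set d := f (1, 0) with hd
  have m1 : ∀ v, 1 ≤ f v ∧ f v ≤ 4 := fun v => by
    have := h1.mapsTo (Set.mem_univ v)
    rw [Set.mem_Icc] at this
    omega
  have i1 : ∀ u v, u ≠ v → f u ≠ f v := fun u v huv he =>
    huv (h1.injOn (Set.mem_univ _) (Set.mem_univ _) he)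
  have k1 := m1 (0, 0)
  have k2 := m1 (0, 1)
  have k3 := m1 (1, 1)
  have k4 := m1 (1, 0)
  have j1 := i1 (0, 0) (0, 1) (by decide)
  have j2 := i1 (0, 0) (1, 1) (by decide)
  have j3 := i1 (0, 0) (1, 0) (by decide)
  have j4 := i1 (0, 1) (1, 1) (by decide)
  have j5 := i1 (0, 1) (1, 0) (by decide)
  have j6 := i1 (1, 1) (1, 0) (by decide)
  have a1 : (ladder 2).Adj (0, 0) (0, 1) := by
    simp [ladder, SimpleGraph.boxProd_adj, SimpleGraph.pathGraph_adj]
  have a2 : (ladder 2).Adj (0, 1) (1, 1) := by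
    simp [ladder, SimpleGraph.boxProd_adj, SimpleGraph.pathGraph_adj]
  have a3 : (ladder 2).Adj (1, 1) (1, 0) := by
    simp [ladder, SimpleGraph.boxProd_adj, SimpleGraph.pathGraph_adj]
  have a4 : (ladder 2).Adj (1, 0) (0, 0) := by
    simp [ladder, SimpleGraph.boxProd_adj, SimpleGraph.pathGraph_adj]
  have e : ∀ u v, (ladder 2).Adj u v → s ≤ f u + f v ∧ f u + f v < s + 4 := fun u v huv => by
    have := h2.mapsTo (show s(u, v) ∈ (ladder 2).edgeSet from huv)
    rw [Set.mem_Ico, esum_mk] at this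
    omega
  have i2 : ∀ u v u' v', (ladder 2).Adj u v → (ladder 2).Adj u' v' → s(u, v) ≠ s(u', v') →
      f u + f v ≠ f u' + f v' := fun u v u' v' h h' hne he =>
    hne (h2.injOn (show s(u, v) ∈ (ladder 2).edgeSet from h)
      (show s(u', v') ∈ (ladder 2).edgeSet from h') he)
  have e1 := e _ _ a1
  have e2 := e _ _ a2
  have e3 := e _ _ a3
  have e4 := e _ _ a4
  have n1 := i2 _ _ _ _ a1 a2 (by decide)
  have n2 := i2 _ _ _ _ a1 a3 (by decide)
  have n3 := i2 _ _ _ _ a1 a4 (by decide)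
  have n4 := i2 _ _ _ _ a2 a3 (by decide)
  have n5 := i2 _ _ _ _ a2 a4 (by decide)
  have n6 := i2 _ _ _ _ a3 a4 (by decide)
  rw [← ha, ← hb, ← hc', ← hd] at *
  have s1 : a + b + c + d = 10 := by omega
  omega

end Pool.Agent.R12.Ladder
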