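import Mathlib

set_option autoImplicit false

/-! Super edge-magic labelings: definition and basic facts. -/

namespace Pool.Agent.R12.SEM

/-- A super edge-magic labeling of a graph with `p` vertices and `q` edges: a labeling `f` of the
vertices by `1, ..., p` and a labeling `g` of the edges by `p + 1, ..., p + q` (both bijective)
such that `f u + f v + g (uv)` is the same number `c` for all edges `uv`. -/
def SuperEdgeMagic {V : Type} [Fintype V] (G : SimpleGraph V) : Prop :=
  ∃ (f : V → ℕ) (g : Sym2 V → ℕ) (c : ℕ),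
    Set.BijOn f Set.univ (Set.Icc 1 (Fintype.card V)) ∧
    Set.BijOn g G.edgeSet (Set.Icc (Fintype.card V + 1) (Fintype.card V + G.edgeSet.ncard)) ∧
    ∀ u v : V, G.Adj u v → f u + f v + g s(u, v) = c

/-- The sum of the labels of the ends of an edge. -/
def esum {V : Type} (f : V → ℕ) : Sym2 V → ℕ :=
  Sym2.lift ⟨fun u v => f u + f v, fun _ _ => Nat.add_comm _ _⟩

@[simp] theorem esum_mk {V : Type} (f : V → ℕ) (u v : V) : esum f s(u, v) = f u + f v := rfl

/-- A finite set mapped onto at least as many values is mapped injectively. -/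
theorem bijOn_of_cover {α : Type} {s : Set α} (hs : s.Finite) {T : Finset ℕ} (F : α → ℕ)
    (hcard : s.ncard ≤ T.card) (hcov : ∀ z ∈ T, ∃ a ∈ s, F a = z) :
    Set.BijOn F s (T : Set ℕ) := by
  classical
  have h1 : (T : Set ℕ) ⊆ F '' s := fun z hz => hcov z (Finset.mem_coe.1 hz)
  have hfin : (F '' s).Finite := hs.image F
  have h2 : (F '' s).ncard ≤ s.ncard := Set.ncard_image_le hs
  have h3 : (T : Set ℕ).ncard = T.card := Set.ncard_coe_finset T
  have h4 : (T : Set ℕ) = F '' s :=
    Set.eq_of_subset_of_ncard_le h1 (by omega) hfin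
  have h5 : (F '' s).ncard = s.ncard := by
    rw [← h4, h3]
    have : (T : Set ℕ).ncard ≤ (F '' s).ncard := Set.ncard_le_ncard h1 hfin
    omega
  refine ⟨?_, ?_, ?_⟩
  · intro a ha
    rw [h4]
    exact ⟨a, ha, rfl⟩
  · exact (Set.ncard_image_iff hs).1 h5
  · rw [Set.SurjOn, h4]

/-- If the vertex labels cover `1, ..., p` and the edge sums cover `q` consecutive numbers, where
`q` is at least the number of edges, then the graph is super edge-magic. -/
theorem sem_of_cover {V : Type} [Fintype V] (G : SimpleGraph V) (f : V → ℕ) (s q : ℕ)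
    (hq : G.edgeSet.ncard ≤ q)
    (hf : ∀ z, 1 ≤ z → z ≤ Fintype.card V → ∃ v, f v = z)
    (hs : ∀ z, s ≤ z → z < s + q → ∃ u v, G.Adj u v ∧ f u + f v = z) :
    SuperEdgeMagic G := by
  classical
  have hE : G.edgeSet.Finite := Set.toFinite _
  have b1 : Set.BijOn f Set.univ (Set.Icc 1 (Fintype.card V)) := by
    have := bijOn_of_cover (s := (Set.univ : Set V)) (Set.toFinite _)
      (T := Finset.Icc 1 (Fintype.card V)) f
      (by rw [Set.ncard_univ, Nat.card_eq_fintype_card, Nat.card_Icc]; omega)
      (by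
        intro z hz
        rw [Finset.mem_Icc] at hz
        obtain ⟨v, hv⟩ := hf z hz.1 hz.2
        exact ⟨v, Set.mem_univ _, hv⟩)
    rwa [Finset.coe_Icc] at this
  have b2 : Set.BijOn (esum f) G.edgeSet (Set.Ico s (s + q)) := by
    have := bijOn_of_cover (s := G.edgeSet) hE (T := Finset.Ico s (s + q)) (esum f)
      (by rw [Nat.card_Ico]; omega)
      (by
        intro z hz
        rw [Finset.mem_Ico] at hz
        obtain ⟨u, v, huv, h⟩ := hs z hz.1 hz.2
        exact ⟨s(u, v), huv, h⟩)
    rwa [Finset.coe_Ico] at this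
  have hq2 : G.edgeSet.ncard = q := by
    have h1 := b2.image_eq
    have h2 : (esum f '' G.edgeSet).ncard = G.edgeSet.ncard :=
      (Set.ncard_image_iff hE).2 b2.injOn
    rw [h1] at h2
    have h3 : (Set.Ico s (s + q)).ncard = q := by
      rw [← Finset.coe_Ico, Set.ncard_coe_finset, Nat.card_Ico]
      omega
    omega
  refine ⟨f, fun e => Fintype.card V + s + q - esum f e, Fintype.card V + s + q, b1, ?_, ?_⟩
  · refine ⟨?_, ?_, ?_⟩
    · intro e he
      have := b2.mapsTo he
      rw [Set.mem_Ico] at this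
      rw [Set.mem_Icc]
      simp only
      omega
    · intro e he e' he' h
      have h1 := b2.mapsTo he
      have h2 := b2.mapsTo he'
      rw [Set.mem_Ico] at h1 h2
      apply b2.injOn he he'
      simp only at h
      omega
    · intro z hz
      rw [Set.mem_Icc] at hz
      obtain ⟨e, he, h⟩ := b2.surjOn (show Fintype.card V + s + q - z ∈ Set.Ico s (s + q) by
        rw [Set.mem_Ico]
        omega)
      refine ⟨e, he, ?_⟩
      simp only
      rw [h]
      omega
  · intro u v huv
    have := b2.mapsTo (show s(u, v) ∈ G.edgeSet from huv)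
    rw [Set.mem_Ico, esum_mk] at this
    simp only [esum_mk]
    omega

/-- The converse: the edge sums of a super edge-magic labeling are consecutive. -/
theorem sem_sums {V : Type} [Fintype V] {G : SimpleGraph V} (h : SuperEdgeMagic G) :
    ∃ (f : V → ℕ) (s : ℕ), Set.BijOn f Set.univ (Set.Icc 1 (Fintype.card V)) ∧
      Set.BijOn (esum f) G.edgeSet (Set.Ico s (s + G.edgeSet.ncard)) := by
  obtain ⟨f, g, c, h1, h2, h3⟩ := h
  by_cases h0 : G.edgeSet.ncard = 0
  · refine ⟨f, 0, h1, ?_⟩
    have : G.edgeSet = ∅ := (Set.ncard_eq_zero (Set.toFinite _)).1 h0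
    rw [h0, this]
    simp
  have hc : ∀ e ∈ G.edgeSet, esum f e + g e = c := by
    intro e he
    induction e using Sym2.ind with
    | _ u v => exact h3 u v he
  obtain ⟨e0, he0, hge0⟩ := h2.surjOn (show Fintype.card V + G.edgeSet.ncard ∈
    Set.Icc (Fintype.card V + 1) (Fintype.card V + G.edgeSet.ncard) by
      rw [Set.mem_Icc]
      omega)
  have hc0 := hc e0 he0
  refine ⟨f, c - (Fintype.card V + G.edgeSet.ncard), h1, ?_, ?_, ?_⟩
  · intro e he
    have a1 := hc e he
    have a2 := h2.mapsTo he
    rw [Set.mem_Icc] at a2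
    rw [Set.mem_Ico]
    omega
  · intro e he e' he' h
    have a1 := hc e he
    have a2 := hc e' he'
    exact h2.injOn he he' (by omega)
  · intro z hz
    rw [Set.mem_Ico] at hz
    obtain ⟨e, he, hge⟩ := h2.surjOn (show c - z ∈
      Set.Icc (Fintype.card V + 1) (Fintype.card V + G.edgeSet.ncard) by
        rw [Set.mem_Icc]
        omega)
    refine ⟨e, he, ?_⟩
    have a1 := hc e he
    omega

end Pool.Agent.R12.SEM
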